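import Pool.Agent.Q276.UR.B2
import Pool.Agent.Q276.LR.E2

/-! The bound for all indices, without any hypothesis. -/

set_option autoImplicit false

open Filter Topology Set MeasureTheory

namespace Pool.Agent.Q276.UR

open SG (ord NZ zmult ZS)
open H177.Lat (kI yy del2)
open LG.GapAux (NZ_low)
open Pool.Agent.Q276.LR

/-- from dyadic blocks to all indices -/
theorem globalize2 : ∃ C0 : ℝ, 0 < C0 ∧ ∀ F : ℕ → ℝ, (∀ n, 0 ≤ F n) → ∀ D T1 : ℝ, 0 < D →
    100 ≤ T1 → (∀ V : ℝ, T1 ≤ V →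
      ∑ n ∈ Finset.Ioc (NZ (17 / 32 * V)) (NZ V), F n ≤ D * (V * Real.log V)) →
    ∀ᶠ N : ℕ in atTop, ∑ n ∈ Finset.Icc 1 N, F n ≤ C0 * D * N := by
  obtain ⟨c, T2, hc, hT2, hlow⟩ := NZ_low
  refine ⟨24 / c, by positivity, fun F hF D T1 hD hT1 h1 => ?_⟩
  have h2 := upto F hF D T1 hD.le hT1 h1
  set S0 := ∑ n ∈ Finset.Ioc 0 (NZ T1), F n with hS0
  have hN : Tendsto (fun N : ℕ => (N : ℝ)) atTop atTop := tendsto_natCast_atTop_atTop
  filter_upwards [SG.ord_tendsto.eventually_ge_atTop (3 * T2 + 3), eventually_ge_atTop 1,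
    hN.eventually_ge_atTop (S0 / (6 / c * D))] with N hN1 hN2 hN3
  set Y := ord N with hY
  have hYpos : 0 < Y := by linarith
  have h3 := h2 Y (by linarith)
  have h4 : ∑ n ∈ Finset.Icc 1 N, F n ≤ ∑ n ∈ Finset.Ioc 0 (NZ Y), F n := by
    apply Finset.sum_le_sum_of_subset_of_nonneg
    · intro n hn
      rw [Finset.mem_Icc] at hn
      rw [Finset.mem_Ioc]
      have := SG.le_NZ_ord hN2
      exact ⟨by omega, hn.2.trans this⟩
    · intro n _ _
      exact hF n
  have h5 := hlow (Y / 3) (by linarith)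
  have h6 : NZ (2 * (Y / 3)) < N := by
    by_contra hcon
    push Not at hcon
    have h7 : ord N ≤ 2 * (Y / 3) := (SG.ord_le_iff hN2 _).mpr hcon
    rw [← hY] at h7
    linarith
  have h7 : (NZ (2 * (Y / 3)) : ℝ) ≤ N := by exact_mod_cast h6.le
  have h8 : Real.log Y ≤ 2 * Real.log (Y / 3) := by
    have h9 : Y ≤ (Y / 3) ^ 2 := by nlinarith
    have h10 := Real.log_le_log hYpos h9
    rw [Real.log_pow] at h10
    push_cast at h10
    exact h10
  have h9 : Y * Real.log Y ≤ 6 / c * N := by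
    have h10 : c * (Y / 3 * Real.log (Y / 3)) ≤ N := h5.trans h7
    have h11 : Y * Real.log Y ≤ Y * (2 * Real.log (Y / 3)) := mul_le_mul_of_nonneg_left h8 hYpos.le
    have h12 : Y * (2 * Real.log (Y / 3)) = 6 / c * (c * (Y / 3 * Real.log (Y / 3))) := by
      field_simp
      ring
    rw [h12] at h11
    exact h11.trans (mul_le_mul_of_nonneg_left h10 (by positivity))
  rw [div_le_iff₀ (by positivity)] at hN3
  have h10 := mul_le_mul_of_nonneg_left h9 (show 0 ≤ 3 * D by positivity)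
  calc ∑ n ∈ Finset.Icc 1 N, F n ≤ 3 * D * (Y * Real.log Y) + S0 := h4.trans h3
    _ ≤ 3 * D * (6 / c * N) + N * (6 / c * D) := add_le_add h10 hN3
    _ = 24 / c * D * N := by ring

theorem XD_block : ∃ B : ℝ, 0 < B ∧ ∀ J : ℕ, 1 ≤ J → ∃ T0 : ℝ, 100 ≤ T0 ∧ ∀ T : ℝ, T0 ≤ T →
      ∑ n ∈ Finset.Ioc (NZ (T + Real.sqrt T)) (NZ (2 * T - Real.sqrt T)),
            |XD J n| ≤ B / Real.sqrt J * (T * Real.log T / (2 * Real.pi)) := by
  obtain ⟨B, hB, hwb⟩ := block_bound
  have hpi := Real.pi_gt_three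
  refine ⟨B + 1, by positivity, fun J hJ => ?_⟩
  obtain ⟨T1, hT1, h1⟩ := hwb J hJ
  obtain ⟨T2, hT2, h2⟩ := room J
  obtain ⟨T3, hT3⟩ := (Real.tendsto_log_atTop.eventually_ge_atTop
    ((2 : ℝ) ^ (J + 2) * Real.sqrt J)).exists_forall_of_atTop
  have hJ1 : (1 : ℝ) ≤ J := by exact_mod_cast hJ
  refine ⟨max (max T1 T2) (max T3 40000), ?_, fun T hT => ?_⟩
  · exact hT1.trans ((le_max_left _ _).trans (le_max_left _ _))
  have hTT1 : T1 ≤ T := ((le_max_left _ _).trans (le_max_left _ _)).trans hT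
  have hTT2 : T2 ≤ T := ((le_max_right _ _).trans (le_max_left _ _)).trans hT
  have hTT3 : T3 ≤ T := ((le_max_left _ _).trans (le_max_right _ _)).trans hT
  have hT4 : 40000 ≤ T := ((le_max_right _ _).trans (le_max_right _ _)).trans hT
  have hL := hT3 T hTT3
  have hTpos : 0 < T := by linarith
  have hr0 : 0 < Real.sqrt J := Real.sqrt_pos.2 (by linarith)
  set r := Real.sqrt J with hr
  set s := Real.sqrt T with hs
  have hss : s * s = T := Real.mul_self_sqrt hTpos.le
  have hs200 : 200 ≤ s := by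
    rw [hs, show (200 : ℝ) = Real.sqrt (200 ^ 2) by rw [Real.sqrt_sq (by norm_num)]]
    apply Real.sqrt_le_sqrt
    linarith
  have hsT : 25 * s ≤ T := by nlinarith
  have hcon := h1 T hTT1
  set a' := NZ (T + s) with ha'
  set b' := NZ (2 * T - s) with hb'
  have r1 : NZ T + 2 ^ J ≤ a' := h2 T hTT2 T le_rfl (by linarith)
  have r2 : b' + 2 ^ J ≤ NZ (2 * T) := by
    have := h2 T hTT2 (2 * T - s) (by linarith) (by linarith)
    rw [← hs, sub_add_cancel] at this
    exact this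
  have r3 : a' ≤ b' := SG.NZ_mono (by linarith)
  have hp : 1 ≤ 2 ^ J := Nat.one_le_two_pow
  have hord : ∀ m : ℕ, NZ T < m → m ≤ NZ (2 * T) → T ≤ ord m ∧ ord m ≤ 2 * T := by
    intro m hm1 hm2
    constructor
    · by_contra hcon2
      push Not at hcon2
      have := (SG.ord_le_iff (by omega : 1 ≤ m) T).mp hcon2.le
      omega
    · exact (SG.ord_le_iff (by omega : 1 ≤ m) _).mpr hm2
  have q1 : ∀ n ∈ Finset.Ioc a' b', |XD J n| ≤ |XX J (yy T) n| +
      (ord (n + 2 ^ J) - ord (n - (2 ^ J - 1))) / Real.pi := by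
    intro n hn
    rw [Finset.mem_Ioc] at hn
    apply XD_diff J hJ (by linarith) n (by omega)
    intro m hm
    rw [Finset.mem_Ioo] at hm
    obtain ⟨o1, o2⟩ := hord m (by omega) (by omega)
    constructor <;> linarith
  have q2 := tele_sum ord T (2 * T) a' b' (2 ^ J - 1) (2 ^ J) (by omega) r3 (by
    intro n hn1 hn2
    exact hord n (by omega) (by omega))
  refine (Finset.sum_le_sum q1).trans ?_
  rw [Finset.sum_add_distrib, ← Finset.sum_div]
  have q3 : ((2 ^ J - 1 + 2 ^ J : ℕ) : ℝ) ≤ 2 ^ (J + 1) := by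
    have : 2 ^ J - 1 + 2 ^ J ≤ 2 ^ (J + 1) := by rw [pow_succ]; omega
    exact_mod_cast this
  have q4 : (∑ n ∈ Finset.Ioc a' b', (ord (n + 2 ^ J) - ord (n - (2 ^ J - 1)))) / Real.pi ≤
      1 / r * (T * Real.log T / (2 * Real.pi)) := by
    rw [div_le_iff₀ (by positivity)]
    have q5 : ((2 ^ J - 1 + 2 ^ J : ℕ) : ℝ) * (2 * T - T) ≤ 2 ^ (J + 1) * T := by
      rw [show 2 * T - T = T by ring]
      exact mul_le_mul_of_nonneg_right q3 (by positivity)
    refine (q2.trans q5).trans ?_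
    have q6 : (2 : ℝ) ^ (J + 1) ≤ 1 / r * Real.log T / 2 := by
      rw [le_div_iff₀ (by norm_num), one_div, ← div_eq_inv_mul, le_div_iff₀ hr0]
      have : (2 : ℝ) ^ (J + 1) * 2 = 2 ^ (J + 2) := by ring
      rw [this]
      exact hL
    calc (2 : ℝ) ^ (J + 1) * T ≤ 1 / r * Real.log T / 2 * T :=
          mul_le_mul_of_nonneg_right q6 (by positivity)
      _ = 1 / r * (T * Real.log T / (2 * Real.pi)) * Real.pi := by field_simp
  have q7 : (B + 1) / r * (T * Real.log T / (2 * Real.pi)) =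
      B / r * (T * Real.log T / (2 * Real.pi)) + 1 / r * (T * Real.log T / (2 * Real.pi)) := by
    ring
  rw [q7]
  exact add_le_add hcon q4

/-- **the average of the weighted sums is small, without any hypothesis** -/
theorem XD_uncond : ∃ C : ℝ, 0 < C ∧ ∀ J : ℕ, 1 ≤ J →
    ∀ᶠ N : ℕ in atTop, ∑ n ∈ Finset.Icc 1 N, |XD J n| ≤ C / Real.sqrt J * N := by
  obtain ⟨B, hB, hwb⟩ := XD_block
  obtain ⟨C0, hC0, hg⟩ := globalize2
  refine ⟨C0 * B, by positivity, fun J hJ => ?_⟩
  obtain ⟨T1, hT1, h1⟩ := hwb J hJ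
  have hJ0 : (0 : ℝ) < J := by exact_mod_cast hJ
  have hr0 : 0 < Real.sqrt J := Real.sqrt_pos.2 hJ0
  have hpi := Real.pi_gt_three
  have := hg (fun n => |XD J n|) (fun n => abs_nonneg _) (B / Real.sqrt J) (2 * T1 + 40000)
    (by positivity) (by linarith) (by
      intro V hV
      set T : ℝ := 101 / 200 * V with hT
      have hTT1 : T1 ≤ T := by rw [hT]; linarith
      have hT0 : 0 < T := by linarith
      have hTbig : 20000 ≤ T := by rw [hT]; linarith
      have h2 := h1 T hTT1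
      set s := Real.sqrt T with hs
      have hss : s * s = T := Real.mul_self_sqrt hT0.le
      have hs0 : 0 ≤ s := Real.sqrt_nonneg T
      have hs140 : 140 ≤ s := by
        rw [hs, show (140 : ℝ) = Real.sqrt (140 ^ 2) by rw [Real.sqrt_sq (by norm_num)]]
        apply Real.sqrt_le_sqrt
        linarith
      have hsT : 140 * s ≤ T := by nlinarith
      have h3 : ∑ n ∈ Finset.Ioc (NZ (17 / 32 * V)) (NZ V), |XD J n| ≤
          ∑ n ∈ Finset.Ioc (NZ (T + s)) (NZ (2 * T - s)), |XD J n| := by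
        apply Finset.sum_le_sum_of_subset_of_nonneg
        · apply Finset.Ioc_subset_Ioc
          · apply SG.NZ_mono
            rw [hT] at hsT ⊢
            linarith
          · apply SG.NZ_mono
            rw [hT] at hsT ⊢
            linarith
        · intro n _ _
          exact abs_nonneg _
      refine (h3.trans h2).trans ?_
      apply mul_le_mul_of_nonneg_left _ (by positivity)
      have hlT : 0 ≤ Real.log T := Real.log_nonneg (by linarith)
      have hTV : T ≤ V := by rw [hT]; linarith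
      have h5 : Real.log T ≤ Real.log V := Real.log_le_log hT0 hTV
      have h6 : T * Real.log T ≤ V * Real.log V := by
        apply mul_le_mul hTV h5 hlT (by linarith)
      refine le_trans ?_ h6
      apply div_le_self (by positivity)
      linarith)
  filter_upwards [this] with N hN
  refine hN.trans (le_of_eq ?_)
  ring

/-- **every block of gaps is determined by the outer gaps, without any hypothesis** -/
theorem blocks_uncond : ∃ C : ℝ, 0 < C ∧ ∀ J K : ℕ, 1 ≤ J → 1 ≤ K →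
    ∀ᶠ N : ℕ in atTop, ∑ n ∈ Finset.Ioc (2 ^ J) N, |BB J K n| ≤
      C * (1 / Real.sqrt J + K * (1 + Real.log K) / J) * N := by
  obtain ⟨C, hC, h1⟩ := XD_uncond
  obtain ⟨C1, hC1, h2⟩ := mean_dev
  refine ⟨2 * C + 4 * C1, by positivity, fun J K hJ hK => ?_⟩
  have hJ0 : (0 : ℝ) < J := by exact_mod_cast hJ
  have hK0 : (0 : ℝ) < K := by exact_mod_cast hK
  have hK1 : (1 : ℝ) ≤ K := by exact_mod_cast hK
  have hlK : 0 ≤ Real.log K := Real.log_nonneg hK1
  filter_upwards [eventually_shift (h1 J hJ) K, eventually_shift h2 K, eventually_ge_atTop K]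
    with N g1 g2 g3
  have hNK : ((N + K : ℕ) : ℝ) ≤ 2 * N := by
    have : N + K ≤ 2 * N := by omega
    exact_mod_cast this
  have hN0 : (0 : ℝ) ≤ N := Nat.cast_nonneg N
  have s1 : ∑ n ∈ Finset.Ioc (2 ^ J) N, |BB J K n| ≤ ∑ n ∈ Finset.Ioc (2 ^ J) N,
      ((K : ℝ)⁻¹ * ∑ i ∈ Finset.range K, |XD J (n + i)| +
      ((Nat.log 2 K : ℝ) + 2) / J * ∑ i ∈ Finset.range K, |xx (n + i)|) := by
    refine Finset.sum_le_sum fun n hn => ?_
    rw [Finset.mem_Ioc] at hn
    exact BB_bound hJ hK n (by omega)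
  refine s1.trans ?_
  rw [Finset.sum_add_distrib, ← Finset.mul_sum, ← Finset.mul_sum]
  have s2 := shift_sum (fun n => |XD J n|) (fun n => abs_nonneg _) (2 ^ J) N K
  have s3 := shift_sum (fun n => |xx n|) (fun n => abs_nonneg _) (2 ^ J) N K
  have s4 : (K : ℝ)⁻¹ * ∑ n ∈ Finset.Ioc (2 ^ J) N, ∑ i ∈ Finset.range K, |XD J (n + i)| ≤
      2 * C * (1 / Real.sqrt J) * N := by
    rw [inv_mul_le_iff₀ hK0]
    refine s2.trans ?_
    apply mul_le_mul_of_nonneg_left _ hK0.le
    refine g1.trans ?_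
    calc C / Real.sqrt J * ((N + K : ℕ) : ℝ) ≤ C / Real.sqrt J * (2 * N) :=
          mul_le_mul_of_nonneg_left hNK (by positivity)
      _ = _ := by ring
  have s5 : ((Nat.log 2 K : ℝ) + 2) / J * ∑ n ∈ Finset.Ioc (2 ^ J) N, ∑ i ∈ Finset.range K, |xx (n + i)| ≤
      4 * C1 * (K * (1 + Real.log K) / J) * N := by
    have t1 : (Nat.log 2 K : ℝ) + 2 ≤ 2 * (1 + Real.log K) := by
      have t2 : (2 : ℝ) ^ (Nat.log 2 K) ≤ K := by
        have := Nat.pow_log_le_self 2 (by omega : K ≠ 0)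
        exact_mod_cast this
      have t3 := Real.log_le_log (by positivity) t2
      rw [Real.log_pow] at t3
      have t4 := Real.log_two_gt_d9
      have t5 : (0 : ℝ) ≤ Nat.log 2 K := Nat.cast_nonneg _
      nlinarith
    have t2 : ∑ n ∈ Finset.Ioc (2 ^ J) N, ∑ i ∈ Finset.range K, |xx (n + i)| ≤ K * (C1 * (2 * N)) := by
      refine s3.trans (mul_le_mul_of_nonneg_left ?_ hK0.le)
      exact g2.trans (mul_le_mul_of_nonneg_left hNK hC1.le)
    calc ((Nat.log 2 K : ℝ) + 2) / J * ∑ n ∈ Finset.Ioc (2 ^ J) N, ∑ i ∈ Finset.range K, |xx (n + i)| ≤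
        (2 * (1 + Real.log K)) / J * (K * (C1 * (2 * N))) := by
          apply mul_le_mul _ t2 _ (by positivity)
          · exact div_le_div_of_nonneg_right t1 hJ0.le
          · exact Finset.sum_nonneg fun n _ => Finset.sum_nonneg fun i _ => abs_nonneg _
      _ = _ := by ring
  have p1 : 0 ≤ 1 / Real.sqrt J * N := by positivity
  have p2 : 0 ≤ K * (1 + Real.log K) / J * N := by positivity
  nlinarith

end Pool.Agent.Q276.UR
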