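import Mathlib

/-! Local counts through boxes. -/

set_option autoImplicit false

open Filter Topology Set

namespace Pool.Agent.Q276.UR

/-- the number of points in a box -/
noncomputable def bx (I : Finset ℕ) (f : ℕ → ℤ) (k : ℤ) : ℝ := ((I.filter (fun n => f n = k)).card : ℝ)

lemma bx_nonneg (I : Finset ℕ) (f : ℕ → ℤ) (k : ℤ) : 0 ≤ bx I f k := Nat.cast_nonneg _

lemma bx_zero {I : Finset ℕ} {f : ℕ → ℤ} {k : ℤ} (h : k ∉ I.image f) : bx I f k = 0 := by
  unfold bx
  rw [Nat.cast_eq_zero, Finset.card_eq_zero, Finset.filter_eq_empty_iff]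
  intro n hn hcon
  exact h (Finset.mem_image.2 ⟨n, hn, hcon⟩)

/-- the number of points in boxes at distance at most `D` -/
noncomputable def kb (I : Finset ℕ) (f : ℕ → ℤ) (D : ℕ) (n : ℕ) : ℝ :=
  ((I.filter (fun m => |f n - f m| ≤ D)).card : ℝ)

lemma kb_le (I : Finset ℕ) (f : ℕ → ℤ) (D : ℕ) (n : ℕ) :
    kb I f D n ≤ ∑ d ∈ Finset.Icc (-(D : ℤ)) D, bx I f (f n + d) := by
  classical
  unfold kb bx
  have h : I.filter (fun m => |f n - f m| ≤ D) ⊆
      (Finset.Icc (-(D : ℤ)) D).biUnion (fun d => I.filter (fun m => f m = f n + d)) := by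
    intro m hm
    rw [Finset.mem_filter] at hm
    rw [Finset.mem_biUnion]
    refine ⟨f m - f n, ?_, ?_⟩
    · rw [Finset.mem_Icc]
      have := abs_le.1 hm.2
      constructor <;> linarith
    · rw [Finset.mem_filter]
      exact ⟨hm.1, by ring⟩
  have h2 := (Finset.card_le_card h).trans Finset.card_biUnion_le
  exact_mod_cast h2

lemma sum_shift (I : Finset ℕ) (f : ℕ → ℤ) (p : ℕ) (hp : 1 ≤ p) (d : ℤ) :
    ∑ k ∈ I.image f, bx I f (k + d) ^ p ≤ ∑ k ∈ I.image f, bx I f k ^ p := by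
  classical
  have e1 : ∑ k ∈ I.image f, bx I f (k + d) ^ p = ∑ k ∈ (I.image f).image (fun k => k + d), bx I f k ^ p := by
    symm
    apply Finset.sum_image (s := I.image f) (g := fun k => k + d) (f := fun k => bx I f k ^ p)
    intro a _ b _ hab
    simpa using hab
  rw [e1]
  have e2 : ∑ k ∈ (I.image f).image (fun k => k + d), bx I f k ^ p =
      ∑ k ∈ ((I.image f).image (fun k => k + d)).filter (fun k => k ∈ I.image f), bx I f k ^ p := by
    rw [Finset.sum_filter]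
    refine Finset.sum_congr rfl fun k _ => ?_
    split_ifs with h
    · rfl
    · rw [bx_zero h, zero_pow (by omega)]
  rw [e2]
  apply Finset.sum_le_sum_of_subset_of_nonneg
  · intro k hk
    rw [Finset.mem_filter] at hk
    exact hk.2
  · intro k _ _
    exact pow_nonneg (bx_nonneg _ _ _) _

lemma sum_fiber (I : Finset ℕ) (f : ℕ → ℤ) (g : ℤ → ℝ) :
    ∑ n ∈ I, g (f n) = ∑ k ∈ I.image f, bx I f k * g k := by
  classical
  rw [← Finset.sum_fiberwise_of_maps_to (fun n hn => Finset.mem_image_of_mem f hn)]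
  refine Finset.sum_congr rfl fun k _ => ?_
  unfold bx
  rw [Finset.card_eq_sum_ones, Nat.cast_sum, Finset.sum_mul]
  refine Finset.sum_congr rfl fun n hn => ?_
  rw [Finset.mem_filter] at hn
  rw [hn.2]
  simp

lemma card_Icc_int (D : ℕ) : ((Finset.Icc (-(D : ℤ)) D).card : ℝ) = 2 * D + 1 := by
  rw [Int.card_Icc]
  have : ((D : ℤ) + 1 - -(D : ℤ)).toNat = 2 * D + 1 := by omega
  rw [this]
  push_cast
  ring

/-- the number of close pairs -/
theorem kb_sum (I : Finset ℕ) (f : ℕ → ℤ) (D : ℕ) :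
    ∑ n ∈ I, kb I f D n ≤ (2 * D + 1) * ∑ k ∈ I.image f, bx I f k ^ 2 := by
  calc ∑ n ∈ I, kb I f D n ≤ ∑ n ∈ I, ∑ d ∈ Finset.Icc (-(D : ℤ)) D, bx I f (f n + d) :=
        Finset.sum_le_sum fun n _ => kb_le I f D n
    _ = ∑ d ∈ Finset.Icc (-(D : ℤ)) D, ∑ k ∈ I.image f, bx I f k * bx I f (k + d) := by
        rw [Finset.sum_comm]
        refine Finset.sum_congr rfl fun d _ => ?_
        exact sum_fiber I f (fun k => bx I f (k + d))
    _ ≤ ∑ d ∈ Finset.Icc (-(D : ℤ)) D, ∑ k ∈ I.image f, bx I f k ^ 2 := by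
        refine Finset.sum_le_sum fun d _ => ?_
        have h1 : ∀ k ∈ I.image f, bx I f k * bx I f (k + d) ≤
            (1 / 2) * bx I f k ^ 2 + (1 / 2) * bx I f (k + d) ^ 2 := by
          intro k _
          nlinarith [sq_nonneg (bx I f k - bx I f (k + d))]
        refine (Finset.sum_le_sum h1).trans ?_
        rw [Finset.sum_add_distrib, ← Finset.mul_sum, ← Finset.mul_sum]
        have := sum_shift I f 2 (by norm_num) d
        linarith
    _ = _ := by rw [Finset.sum_const, nsmul_eq_mul, card_Icc_int]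

lemma three_amgm {a b c : ℝ} (ha : 0 ≤ a) (hb : 0 ≤ b) (hc : 0 ≤ c) :
    a * (b * c) ≤ (1 / 3) * a ^ 3 + (1 / 3) * b ^ 3 + (1 / 3) * c ^ 3 := by
  nlinarith [mul_nonneg (add_nonneg (add_nonneg ha hb) hc) (add_nonneg (add_nonneg
    (sq_nonneg (a - b)) (sq_nonneg (b - c))) (sq_nonneg (a - c)))]

/-- second moment of the local counts -/
theorem kb_sq (I : Finset ℕ) (f : ℕ → ℤ) (D : ℕ) :
    ∑ n ∈ I, kb I f D n ^ 2 ≤ (2 * D + 1) ^ 2 * ∑ k ∈ I.image f, bx I f k ^ 3 := by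
  have h0 : ∀ n, kb I f D n ^ 2 ≤ ∑ d ∈ Finset.Icc (-(D : ℤ)) D, ∑ d' ∈ Finset.Icc (-(D : ℤ)) D,
      bx I f (f n + d) * bx I f (f n + d') := by
    intro n
    have h1 : kb I f D n ^ 2 ≤ (∑ d ∈ Finset.Icc (-(D : ℤ)) D, bx I f (f n + d)) ^ 2 :=
      pow_le_pow_left₀ (Nat.cast_nonneg _) (kb_le I f D n) 2
    refine h1.trans (le_of_eq ?_)
    rw [sq, Finset.sum_mul_sum]
  calc ∑ n ∈ I, kb I f D n ^ 2 ≤ ∑ n ∈ I, ∑ d ∈ Finset.Icc (-(D : ℤ)) D,
        ∑ d' ∈ Finset.Icc (-(D : ℤ)) D, bx I f (f n + d) * bx I f (f n + d') :=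
        Finset.sum_le_sum fun n _ => h0 n
    _ = ∑ d ∈ Finset.Icc (-(D : ℤ)) D, ∑ d' ∈ Finset.Icc (-(D : ℤ)) D,
        ∑ k ∈ I.image f, bx I f k * (bx I f (k + d) * bx I f (k + d')) := by
        rw [Finset.sum_comm]
        refine Finset.sum_congr rfl fun d _ => ?_
        rw [Finset.sum_comm]
        refine Finset.sum_congr rfl fun d' _ => ?_
        exact sum_fiber I f (fun k => bx I f (k + d) * bx I f (k + d'))
    _ ≤ ∑ d ∈ Finset.Icc (-(D : ℤ)) D, ∑ d' ∈ Finset.Icc (-(D : ℤ)) D,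
        ∑ k ∈ I.image f, bx I f k ^ 3 := by
        refine Finset.sum_le_sum fun d _ => Finset.sum_le_sum fun d' _ => ?_
        have h1 : ∀ k ∈ I.image f, bx I f k * (bx I f (k + d) * bx I f (k + d')) ≤
            (1 / 3) * bx I f k ^ 3 + (1 / 3) * bx I f (k + d) ^ 3 + (1 / 3) * bx I f (k + d') ^ 3 :=
          fun k _ => three_amgm (bx_nonneg _ _ _) (bx_nonneg _ _ _) (bx_nonneg _ _ _)
        refine (Finset.sum_le_sum h1).trans ?_
        rw [Finset.sum_add_distrib, Finset.sum_add_distrib, ← Finset.mul_sum, ← Finset.mul_sum,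
          ← Finset.mul_sum]
        have g1 := sum_shift I f 3 (by norm_num) d
        have g2 := sum_shift I f 3 (by norm_num) d'
        linarith
    _ = _ := by
        rw [Finset.sum_const, Finset.sum_const, nsmul_eq_mul, nsmul_eq_mul, card_Icc_int]
        ring

end Pool.Agent.Q276.UR
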