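import Pool.Agent.Q276.UR.A1
import Pool.Agent.Q276.UR.A4
import Pool.Agent.Y750.OM.Mom4
import Pool.Agent.Y750.OM.Cnt

/-! Moments of the local counts of the ordinates, without any hypothesis. -/

set_option autoImplicit false

open Filter Topology Set MeasureTheory

namespace Pool.Agent.Q276.UR

open SG (ord NZ zmult ZS)
open H370 (Zf mult NN)
open H177.Lat (yy kI)
open Pool.Agent.Y750.OM (cell cell_pow cntmom)

/-- the box of the `n`-th ordinate -/
noncomputable def fb (T : ℝ) (n : ℕ) : ℤ := ⌊ord n * Real.log T⌋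

/-- the indices of a dyadic block -/
noncomputable def II (T : ℝ) : Finset ℕ := Finset.Ioc (NZ T) (NZ (2 * T))

theorem boxes (q : ℕ) (hq : 1 ≤ q) : ∃ C T0 : ℝ, 0 < C ∧ 10 ≤ T0 ∧ ∀ T : ℝ, T0 ≤ T →
    ∑ k ∈ (II T).image (fb T), bx (II T) (fb T) k ^ q ≤ C * (T * Real.log T) := by
  classical
  obtain ⟨C, T0, hC, hT0, h⟩ := cntmom q hq
  refine ⟨C, T0, hC, hT0, fun T hT => ?_⟩
  have hT1 : 1 ≤ T := by linarith
  have hL : 0 < Real.log T := Real.log_pos (by linarith)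
  have h1 := cell_pow q hL (Zf riemannZeta T (2 * T)) (fun s => (mult riemannZeta s : ℝ))
    (fun s => Nat.cast_nonneg _) (by positivity : 0 ≤ C * T) (h T hT) ((II T).image (fb T))
  refine le_trans (le_of_eq ?_) (h1.trans (le_of_eq (by ring)))
  refine Finset.sum_congr rfl fun k _ => ?_
  congr 1
  have h2 := sum_conv hT1 (by linarith : T ≤ 2 * T)
    (fun x => if ⌊x * Real.log T⌋ = k then (1 : ℝ) else 0)
  have h3 : ∑ s ∈ (Zf riemannZeta T (2 * T)).filter (fun s => cell (Real.log T) s = k),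
      (mult riemannZeta s : ℝ) = ∑ s ∈ Zf riemannZeta T (2 * T), (mult riemannZeta s : ℝ) *
      (if ⌊s.im * Real.log T⌋ = k then (1 : ℝ) else 0) := by
    rw [Finset.sum_filter]
    refine Finset.sum_congr rfl fun s _ => ?_
    unfold cell
    split_ifs <;> simp
  rw [h3, h2]
  unfold bx fb II
  rw [Finset.card_eq_sum_ones, Finset.sum_filter]
  push_cast
  rfl

lemma kI_le (T : ℝ) (hT : 1 ≤ T) (ρ : ℕ) (n : ℕ) :
    (kI (II T) (yy T) ρ n : ℝ) ≤ kb (II T) (fb T) (7 * ρ) n := by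
  unfold kI kb
  have h : (II T).filter (fun n' => |yy T n - yy T n'| ≤ ρ) ⊆
      (II T).filter (fun m => |fb T n - fb T m| ≤ (7 * ρ : ℕ)) := by
    intro m hm
    rw [Finset.mem_filter] at hm ⊢
    refine ⟨hm.1, ?_⟩
    have h1 := hm.2
    have hpi := Real.pi_lt_d2
    have hpi0 := Real.pi_pos
    have e1 : yy T n - yy T m = (ord n * Real.log T - ord m * Real.log T) / (2 * Real.pi) := by
      unfold yy
      ring
    rw [e1, abs_div, abs_of_pos (by positivity : 0 < 2 * Real.pi), div_le_iff₀ (by positivity)] at h1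
    have h2 : |ord n * Real.log T - ord m * Real.log T| ≤ ((7 * ρ : ℕ) : ℝ) := by
      refine h1.trans ?_
      push_cast
      have : (0 : ℝ) ≤ ρ := Nat.cast_nonneg ρ
      nlinarith
    unfold fb
    have h3 := abs_le.1 h2
    rw [abs_le]
    constructor
    · have h4 : ⌊ord m * Real.log T⌋ ≤ ⌊ord n * Real.log T⌋ + ((7 * ρ : ℕ) : ℤ) := by
        rw [← Int.floor_add_natCast]
        apply Int.floor_le_floor
        linarith
      linarith
    · have h4 : ⌊ord n * Real.log T⌋ ≤ ⌊ord m * Real.log T⌋ + ((7 * ρ : ℕ) : ℤ) := by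
        rw [← Int.floor_add_natCast]
        apply Int.floor_le_floor
        linarith
      linarith
  exact_mod_cast Finset.card_le_card h

/-- close pairs of ordinates -/
theorem kI_sum (ρ : ℕ) : ∃ C T0 : ℝ, 0 < C ∧ 10 ≤ T0 ∧ ∀ T : ℝ, T0 ≤ T →
    ∑ n ∈ II T, (kI (II T) (yy T) ρ n : ℝ) ≤ C * (T * Real.log T) := by
  obtain ⟨C, T0, hC, hT0, h⟩ := boxes 2 (by norm_num)
  refine ⟨(2 * ((7 * ρ : ℕ) : ℝ) + 1) * C, T0, by positivity, hT0, fun T hT => ?_⟩
  refine (Finset.sum_le_sum fun n _ => kI_le T (by linarith) ρ n).trans ?_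
  refine (kb_sum (II T) (fb T) (7 * ρ)).trans ?_
  rw [mul_assoc]
  exact mul_le_mul_of_nonneg_left (h T hT) (by positivity)

/-- second moments of the local counts of the ordinates -/
theorem kI_sq (ρ : ℕ) : ∃ C T0 : ℝ, 0 < C ∧ 10 ≤ T0 ∧ ∀ T : ℝ, T0 ≤ T →
    ∑ n ∈ II T, (kI (II T) (yy T) ρ n : ℝ) ^ 2 ≤ C * (T * Real.log T) := by
  obtain ⟨C, T0, hC, hT0, h⟩ := boxes 3 (by norm_num)
  refine ⟨(2 * ((7 * ρ : ℕ) : ℝ) + 1) ^ 2 * C, T0, by positivity, hT0, fun T hT => ?_⟩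
  refine (Finset.sum_le_sum fun n _ => pow_le_pow_left₀ (Nat.cast_nonneg _)
    (kI_le T (by linarith) ρ n) 2).trans ?_
  refine (kb_sq (II T) (fb T) (7 * ρ)).trans ?_
  rw [mul_assoc]
  exact mul_le_mul_of_nonneg_left (h T hT) (by positivity)

end Pool.Agent.Q276.UR
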