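import Pool.Agent.Q276.UR.A3
import Pool.Agent.Q276.UR.A5
import Pool.Agent.Q276.UR.B1
import Pool.Agent.Q276.LR.D2

/-! The bound in a dyadic block, without any hypothesis. -/

set_option autoImplicit false

open Filter Topology Set MeasureTheory

namespace Pool.Agent.Q276.UR

lemma aux_scale (C T L : ℝ) :
    C * (T * L) = 2 * Real.pi * C * (T * L / (2 * Real.pi)) := by
  have : Real.pi ≠ 0 := Real.pi_ne_zero
  field_simp

open SG (ord NZ zmult ZS)
open H177.Lat (kI yy)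
open H370.A2 (RR)
open H370 (NN)
open Pool.Agent.Q276.LR

lemma Cut_Psi (J : ℕ) : Cut (fun x => PH J x ^ 2) 2 = Psi J := by
  funext x
  unfold Cut ct Psi
  have : (2 * x) ^ 2 = 4 * x ^ 2 := by ring
  rw [this]

lemma bl_RR (J : ℕ) (u : ℝ) : bl (Psi J) u = RR (Psi J) (1 / 2) u := by
  unfold bl RR
  rw [intervalIntegral.integral_of_le (by norm_num), ← integral_Icc_eq_integral_Ioc]
  rw [← setIntegral_eq_integral_of_forall_compl_eq_zero (s := Icc (-(1 / 2)) (1 / 2))]
  intro α hα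
  rw [Psi_out, zero_mul]
  by_contra h
  push Not at h
  exact hα (abs_le.1 h.le)

lemma int_Psi_full (J : ℕ) : ∫ α : ℝ, |α| * Psi J α ≤ 28 / J := by
  have h1 : ∫ α : ℝ, |α| * Psi J α = ∫ x in (-(1 / 2) : ℝ)..(1 / 2), |x| * Psi J x := by
    rw [intervalIntegral.integral_of_le (by norm_num), ← integral_Icc_eq_integral_Ioc]
    rw [← setIntegral_eq_integral_of_forall_compl_eq_zero (s := Icc (-(1 / 2)) (1 / 2))]
    intro α hα
    rw [Psi_out, mul_zero]
    by_contra h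
    push Not at h
    exact hα (abs_le.1 h.le)
  rw [h1]
  exact int_Psi J

lemma PSm_Psi (J : ℕ) (T : ℝ) : PSm (Cut (fun x => PH J x ^ 2) 2) T =
    ∑ n ∈ Finset.Ioc (NZ T) (NZ (2 * T)), ∑ m ∈ Finset.Ioc (NZ T) (NZ (2 * T)),
      RR (Psi J) (1 / 2) (yy T n - yy T m) := by
  rw [Cut_Psi]
  unfold PSm
  simp_rw [bl_RR]

/-- the pair sum in a dyadic block -/
theorem pair_block : ∃ E0 : ℝ, 0 < E0 ∧ ∀ J : ℕ, 1 ≤ J → ∀ ε : ℝ, 0 < ε → ∃ T0 : ℝ, 100 ≤ T0 ∧
    ∀ T : ℝ, T0 ≤ T →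
    ∑ n ∈ Finset.Ioc (NZ T) (NZ (2 * T)), ∑ m ∈ Finset.Ioc (NZ T) (NZ (2 * T)),
      RR (Psi J) (1 / 2) (yy T n - yy T m) ≤
      T * Real.log T / (2 * Real.pi) * (mJ J ^ 2 + E0 / J + ε) := by
  obtain ⟨C, hC, hp⟩ := pair_upper
  refine ⟨28 + 16 * C, by positivity, fun J hJ ε hε => ?_⟩
  have hJ1 : (1 : ℝ) ≤ J := by exact_mod_cast hJ
  have hJ0 : (0 : ℝ) < J := by linarith
  have hA : ∀ x : ℝ, x ^ 2 * PH J x ^ 2 ≤ 16 / J ^ 2 := by
    intro x
    have h2 := PH_abs (J := J) x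
    have h3 : 0 ≤ |x| * PH J x := mul_nonneg (abs_nonneg _) (PH_nonneg _ _)
    have h4 : (|x| * PH J x) ^ 2 ≤ (4 / J) ^ 2 := pow_le_pow_left₀ h3 h2 2
    have h5 : (|x| * PH J x) ^ 2 = x ^ 2 * PH J x ^ 2 := by rw [mul_pow, sq_abs]
    have h6 : (4 / (J : ℝ)) ^ 2 = 16 / J ^ 2 := by rw [div_pow]; norm_num
    rw [h5, h6] at h4
    exact h4
  obtain ⟨T1, hT1, h1⟩ := hp (fun x => PH J x ^ 2) ((PH_contDiff J).pow 2) (fun x => sq_nonneg _)
    (16 / J ^ 2) hA (ε / 2) (by positivity)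
  set Q : ℝ := mJ J ^ 2 + (28 + 16 * C) / J + ε / 2 with hQ
  have hm0 := mJ_nonneg J
  have hQ0 : 0 < Q := by positivity
  obtain ⟨T2, hT2, h2⟩ := win_asymp (ε / (2 * Q)) (by positivity)
  refine ⟨max T1 T2, hT2.trans (le_max_right _ _), fun T hT => ?_⟩
  have g1 := h1 T ((le_max_left _ _).trans hT)
  have hTT2 : T2 ≤ T := (le_max_right _ _).trans hT
  have hT100 : 100 ≤ T := hT2.trans hTT2
  have hpi := Real.pi_gt_three
  have hl : 0 < Real.log T := Real.log_pos (by linarith)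
  have hs1 : Real.sqrt T ≤ T := by
    rw [Real.sqrt_le_left (by linarith)]
    nlinarith
  have g2 := (abs_le.1 (h2 T hTT2 T le_rfl (by linarith) T hs1 le_rfl)).2
  rw [← two_mul] at g2
  rw [NZ_diff (by linarith) (by linarith)] at g2
  set M : ℝ := T * Real.log T / (2 * Real.pi) with hM
  have hM0 : 0 < M := by positivity
  set Nn : ℝ := (NN riemannZeta T (2 * T) : ℝ) with hNn
  have hNn0 : 0 ≤ Nn := Nat.cast_nonneg _
  have hNM : Nn ≤ (1 + ε / (2 * Q)) * M := by linarith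
  rw [PSm_Psi, Cut_Psi] at g1
  simp only [PH_zero] at g1
  have g3 := (abs_le.1 g1).2
  have g4 := int_Psi_full J
  set P := ∑ n ∈ Finset.Ioc (NZ T) (NZ (2 * T)), ∑ m ∈ Finset.Ioc (NZ T) (NZ (2 * T)),
      RR (Psi J) (1 / 2) (yy T n - yy T m) with hP
  have g5 : P ≤ Nn * Q := by
    have e1 : C * (16 / (J : ℝ) ^ 2) ≤ 16 * C / J := by
      rw [mul_div_assoc', div_le_div_iff₀ (by positivity) hJ0]
      have : (J : ℝ) ≤ J ^ 2 := by nlinarith
      nlinarith [mul_le_mul_of_nonneg_left this (by positivity : 0 ≤ 16 * C)]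
    have e2 : Nn * (mJ J ^ 2 + ∫ α : ℝ, |α| * Psi J α) ≤ Nn * (mJ J ^ 2 + 28 / J) :=
      mul_le_mul_of_nonneg_left (by linarith) hNn0
    have e3 : (C * (16 / (J : ℝ) ^ 2) + ε / 2) * Nn ≤ (16 * C / J + ε / 2) * Nn :=
      mul_le_mul_of_nonneg_right (by linarith) hNn0
    have e4 : Nn * Q = Nn * (mJ J ^ 2 + 28 / J) + (16 * C / J + ε / 2) * Nn := by
      rw [hQ]; ring
    linarith
  have g6 : Nn * Q ≤ (1 + ε / (2 * Q)) * M * Q := mul_le_mul_of_nonneg_right hNM hQ0.le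
  have g7 : (1 + ε / (2 * Q)) * M * Q = M * (Q + ε / 2) := by
    field_simp
  rw [g7] at g6
  refine (g5.trans g6).trans (le_of_eq ?_)
  rw [hQ]
  ring

theorem block_bound : ∃ B : ℝ, 0 < B ∧ ∀ J : ℕ, 1 ≤ J → ∃ T0 : ℝ, 100 ≤ T0 ∧ ∀ T : ℝ, T0 ≤ T →
      ∑ n ∈ Finset.Ioc (NZ (T + Real.sqrt T)) (NZ (2 * T - Real.sqrt T)),
            |XX J (yy T) n| ≤ B / Real.sqrt J * (T * Real.log T / (2 * Real.pi)) := by
  have hpi := Real.pi_gt_three
  have hpi4 := Real.pi_lt_four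
  obtain ⟨E0, hE0, hpb⟩ := pair_block
  obtain ⟨Ca, Ta, hCa, hTa, ha⟩ := kI_sum 2
  obtain ⟨Cb, Tb, hCb, hTb, hb⟩ := kI_sum 1
  set C2 : ℝ := 2 * Real.pi * max Ca Cb with hC2
  have hCm : 0 < max Ca Cb := lt_of_lt_of_le hCa (le_max_left _ _)
  have hC20 : 0 < C2 := by positivity
  refine ⟨2 * (E0 / 4 + 20000 * C2) + 3, by positivity, fun J hJ => ?_⟩
  set m := mJ J with hm
  have hm0 : 0 ≤ m := mJ_nonneg J
  have hJ1 : (1 : ℝ) ≤ J := by exact_mod_cast hJ
  have hJpos : (0 : ℝ) < J := by linarith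
  set ε : ℝ := 1 / (2 * J * (1 + m) ^ 2) with hεd
  have hm1 : 1 ≤ (1 + m) ^ 2 := by nlinarith
  have hε : 0 < ε := by positivity
  have hε1 : ε ≤ 1 / 2 := by
    rw [hεd]
    apply one_div_le_one_div_of_le (by norm_num)
    nlinarith
  have hεm : ε * (1 + m) ^ 2 = 1 / (2 * J) := by
    rw [hεd]
    field_simp
  obtain ⟨T1, hT1, hP⟩ := hpb J hJ ε hε
  obtain ⟨T2, hT2, hw⟩ := win_asymp (ε / 2) (by positivity)
  obtain ⟨T3, hT3, hh⟩ := heights ε hε J
  refine ⟨max T1 (max (max Ta Tb) (max T2 T3)), ?_, fun T hT => ?_⟩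
  · exact hT3.trans ((le_max_right _ _).trans ((le_max_right _ _).trans (le_max_right _ _)))
  have hTT1 : T1 ≤ T := (le_max_left _ _).trans hT
  have hTr : max (max Ta Tb) (max T2 T3) ≤ T := (le_max_right _ _).trans hT
  have hTTa : Ta ≤ T := ((le_max_left _ _).trans (le_max_left _ _)).trans hTr
  have hTTb : Tb ≤ T := ((le_max_right _ _).trans (le_max_left _ _)).trans hTr
  have hTT2 : T2 ≤ T := ((le_max_left _ _).trans (le_max_right _ _)).trans hTr
  have hTT3 : T3 ≤ T := ((le_max_right _ _).trans (le_max_right _ _)).trans hTr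
  obtain ⟨k1, k2, k3⟩ := hh T hTT3
  have hT100 : 100 ≤ T := hT3.trans hTT3
  have hTpos : 0 < T := by linarith
  set s := Real.sqrt T with hs
  have hss : s * s = T := Real.mul_self_sqrt hTpos.le
  have hL1 : 1 ≤ Real.log T := by
    have := one_le_pow2 J
    nlinarith
  set L := Real.log T with hL
  set H : ℝ := T with hH
  have hεs : 200 ≤ ε * s := by
    rw [div_le_iff₀ hε] at k2
    linarith
  have hεH : 4 * s ≤ ε * H := by
    rw [← hss]
    have : 200 * s ≤ ε * (s * s) := by nlinarith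
    linarith
  set t : ℝ := T with ht
  have g1 : T ≤ t := le_rfl
  have g2 : t ≤ 2 * T := by linarith
  have e2T : 2 * T = t + H := by rw [hH, ht]; ring
  have hcon := hP T hTT1
  rw [e2T] at hcon ⊢
  set a := NZ t with haa
  set b := NZ (t + H) with hbb
  set a' := NZ (t + s) with haa'
  set b' := NZ (t + H - s) with hbb'
  set y := yy T with hy
  set M : ℝ := H * L / (2 * Real.pi) with hM
  set Y0 : ℝ := t * L / (2 * Real.pi) with hY0
  have hH0 : 0 < H := by positivity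
  have hM0 : 0 < M := by positivity
  have hs0 : 0 < s := by linarith
  have hyv : ∀ n, y n = ord n * (L / (2 * Real.pi)) := fun n => by
    rw [hy]; unfold yy; rw [hL]; ring
  have hc0 : 0 < L / (2 * Real.pi) := by positivity
  -- the points
  have hmono : ∀ n ∈ Finset.Ioc a b, ∀ m ∈ Finset.Ioc a b, n ≤ m → y n ≤ y m := by
    intro n hn m _ hnm
    rw [Finset.mem_Ioc] at hn
    have h2 := SG.ord_mono (by omega : 1 ≤ n) hnm
    rw [hyv, hyv]
    gcongr
  have hgt : ∀ (x : ℝ) (n : ℕ), NZ x < n → x < ord n := by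
    intro x n hn
    by_contra hcon2
    push Not at hcon2
    have := (SG.ord_le_iff (by omega : 1 ≤ n) x).mp hcon2
    omega
  have hle : ∀ (x : ℝ) (n : ℕ), 1 ≤ n → n ≤ NZ x → ord n ≤ x := fun x n h1 h2 =>
    (SG.ord_le_iff h1 x).mpr h2
  have hin : ∀ n ∈ Finset.Ioc a b, Y0 ≤ y n ∧ y n ≤ Y0 + M := by
    intro n hn
    rw [Finset.mem_Ioc] at hn
    have h1 := hgt t n hn.1
    have h2 := hle (t + H) n (by omega) hn.2
    rw [hyv, hY0, hM]
    constructor
    · calc t * L / (2 * Real.pi) = t * (L / (2 * Real.pi)) := by ring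
        _ ≤ ord n * (L / (2 * Real.pi)) := mul_le_mul_of_nonneg_right h1.le hc0.le
    · calc ord n * (L / (2 * Real.pi)) ≤ (t + H) * (L / (2 * Real.pi)) :=
            mul_le_mul_of_nonneg_right h2 hc0.le
        _ = _ := by ring
  -- counts
  have hH8 : 8 * s ≤ H := by nlinarith
  have hsH : s ≤ H := by linarith
  have c1 := hw T hTT2 t g1 (by linarith) s le_rfl (by linarith)
  have c2 := hw T hTT2 (t + H - s) (by linarith) (by linarith) s le_rfl (by linarith)
  rw [sub_add_cancel] at c2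
  have c3 := hw T hTT2 (t + s) (by linarith) (by linarith) (H - 2 * s) (by linarith) (by linarith)
  rw [show t + s + (H - 2 * s) = t + H - s by ring] at c3
  have c4 := hw T hTT2 (t + 1) (by linarith) (by linarith) (H - 2) (by linarith) (by linarith)
  rw [show t + 1 + (H - 2) = t + H - 1 by ring] at c4
  rw [← haa', ← haa, ← hL] at c1
  rw [← hbb, ← hbb', ← hL] at c2
  rw [← hbb', ← haa', ← hL] at c3
  rw [← hL] at c4
  have hsL : (2 : ℝ) ^ J ≤ (1 - ε / 2) * (s * L / (2 * Real.pi)) := by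
    have h1 : (2 : ℝ) ^ J * (2 * Real.pi) * s ≤ L * s := mul_le_mul_of_nonneg_right k1 hs0.le
    have h2 : (2 : ℝ) ^ J * s ≤ s * L / (2 * Real.pi) := by
      rw [le_div_iff₀ (by positivity)]
      linarith
    have h3 : (0 : ℝ) < 2 ^ J := by positivity
    have h4 : (2 : ℝ) ^ J ≤ 3 / 4 * ((2 : ℝ) ^ J * s) := by
      have e1 : (2 : ℝ) ^ J * 1 ≤ 2 ^ J * (3 / 4 * s) :=
        mul_le_mul_of_nonneg_left (by linarith) h3.le
      linarith
    have h5 : 0 ≤ s * L / (2 * Real.pi) := by positivity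
    have h6 : 3 / 4 * (s * L / (2 * Real.pi)) ≤ (1 - ε / 2) * (s * L / (2 * Real.pi)) :=
      mul_le_mul_of_nonneg_right (by linarith) h5
    linarith
  have d1 : a + 2 ^ J ≤ a' := by
    have h1 := (abs_le.1 c1).1
    have h2 : (a : ℝ) + 2 ^ J ≤ a' := by
      have : (1 - ε / 2) * (s * L / (2 * Real.pi)) = s * L / (2 * Real.pi) -
        ε / 2 * (s * L / (2 * Real.pi)) := by ring
      linarith
    exact_mod_cast h2
  have d2 : b' + 2 ^ J ≤ b := by
    have h1 := (abs_le.1 c2).1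
    have h2 : (b' : ℝ) + 2 ^ J ≤ b := by
      have : (1 - ε / 2) * (s * L / (2 * Real.pi)) = s * L / (2 * Real.pi) -
        ε / 2 * (s * L / (2 * Real.pi)) := by ring
      linarith
    exact_mod_cast h2
  have d3 : (1 - ε) * M ≤ (b' : ℝ) - a' := by
    have h1 := (abs_le.1 c3).1
    have h2 : (1 - ε) * M ≤ (1 - ε / 2) * ((H - 2 * s) * L / (2 * Real.pi)) := by
      have h3 : (1 - ε) * H ≤ (1 - ε / 2) * (H - 2 * s) := by nlinarith
      have h4 := mul_le_mul_of_nonneg_right h3 hc0.le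
      calc (1 - ε) * M = (1 - ε) * H * (L / (2 * Real.pi)) := by rw [hM]; ring
        _ ≤ (1 - ε / 2) * (H - 2 * s) * (L / (2 * Real.pi)) := h4
        _ = _ := by ring
    have h5 : (1 - ε / 2) * ((H - 2 * s) * L / (2 * Real.pi)) = (H - 2 * s) * L / (2 * Real.pi) -
        ε / 2 * ((H - 2 * s) * L / (2 * Real.pi)) := by ring
    linarith
  have d3' : a' ≤ b' := by
    have : (0 : ℝ) ≤ (b' : ℝ) - a' := by
      refine le_trans ?_ d3
      have : 0 ≤ 1 - ε := by linarith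
      positivity
    have h : (a' : ℝ) ≤ b' := by linarith
    exact_mod_cast h
  have d4 : (1 - ε) * M ≤ (NZ (t + H - 1) : ℝ) - NZ (t + 1) := by
    have h1 := (abs_le.1 c4).1
    have h2 : (1 - ε) * M ≤ (1 - ε / 2) * ((H - 2) * L / (2 * Real.pi)) := by
      have h3 : (1 - ε) * H ≤ (1 - ε / 2) * (H - 2) := by nlinarith
      have h4 := mul_le_mul_of_nonneg_right h3 hc0.le
      calc (1 - ε) * M = (1 - ε) * H * (L / (2 * Real.pi)) := by rw [hM]; ring
        _ ≤ (1 - ε / 2) * (H - 2) * (L / (2 * Real.pi)) := h4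
        _ = _ := by ring
    have h5 : (1 - ε / 2) * ((H - 2) * L / (2 * Real.pi)) = (H - 2) * L / (2 * Real.pi) -
        ε / 2 * ((H - 2) * L / (2 * Real.pi)) := by ring
    linarith
  -- the hypotheses of the local theorem
  have hsub : Finset.Ioc a' b' ⊆ Finset.Ioc a b := by
    apply Finset.Ioc_subset_Ioc
    · exact (Nat.le_add_right a _).trans d1
    · exact (Nat.le_add_right b' _).trans d2
  have hin' : ∀ n ∈ Finset.Ioc a' b', Y0 + 1 ≤ y n ∧ y n ≤ Y0 + M - 1 := by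
    intro n hn
    rw [Finset.mem_Ioc] at hn
    have h1 := hgt (t + s) n hn.1
    have h2 := hle (t + H - s) n (by omega) hn.2
    have h3 : 1 ≤ s * (L / (2 * Real.pi)) := by
      have e1 : s * (L / (2 * Real.pi)) = s * L / (2 * Real.pi) := by ring
      rw [e1, le_div_iff₀ (by positivity)]
      nlinarith
    rw [hyv, hY0, hM]
    constructor
    · calc t * L / (2 * Real.pi) + 1 ≤ (t + s) * (L / (2 * Real.pi)) := by
            have : (t + s) * (L / (2 * Real.pi)) = t * L / (2 * Real.pi) + s * (L / (2 * Real.pi)) := by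
              ring
            linarith
        _ ≤ ord n * (L / (2 * Real.pi)) := mul_le_mul_of_nonneg_right h1.le hc0.le
    · calc ord n * (L / (2 * Real.pi)) ≤ (t + H - s) * (L / (2 * Real.pi)) :=
            mul_le_mul_of_nonneg_right h2 hc0.le
        _ = t * L / (2 * Real.pi) + H * L / (2 * Real.pi) - s * (L / (2 * Real.pi)) := by ring
        _ ≤ _ := by linarith
  have hkI : ∀ ρ : ℕ, ∀ C : ℝ, 2 * Real.pi * C ≤ C2 →
      ∑ n ∈ II T, (kI (II T) (yy T) ρ n : ℝ) ≤ C * (T * Real.log T) →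
      ∑ n ∈ Finset.Ioc a b, (kI (Finset.Ioc a b) y ρ n : ℝ) ≤ C2 * M := by
    intro ρ C hC h
    have e1 : II T = Finset.Ioc a b := by
      unfold II
      rw [haa, hbb, ← e2T]
    rw [e1] at h
    refine h.trans ?_
    have e3 : C * (T * Real.log T) = 2 * Real.pi * C * M := aux_scale C T (Real.log T)
    rw [e3]
    exact mul_le_mul_of_nonneg_right hC hM0.le
  have hk2 := hkI 2 Ca (mul_le_mul_of_nonneg_left (le_max_left _ _) (by positivity)) (ha T hTTa)
  have hk1 := hkI 1 Cb (mul_le_mul_of_nonneg_left (le_max_right _ _) (by positivity)) (hb T hTTb)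
  push_cast at hk1 hk2
  have hcount : (1 - ε) * M ≤ (((Finset.Ioc a b).filter
      (fun n => Y0 + 2 ^ J ≤ y n ∧ y n ≤ Y0 + M - 2 ^ J)).card : ℝ) := by
    refine d4.trans ?_
    have h1 : Finset.Ioc (NZ (t + 1)) (NZ (t + H - 1)) ⊆ (Finset.Ioc a b).filter
        (fun n => Y0 + 2 ^ J ≤ y n ∧ y n ≤ Y0 + M - 2 ^ J) := by
      intro n hn
      rw [Finset.mem_Ioc] at hn
      have h2 := hgt (t + 1) n hn.1
      have h3 := hle (t + H - 1) n (by omega) hn.2
      have m1 : a ≤ NZ (t + 1) := SG.NZ_mono (by linarith)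
      have m2 : NZ (t + H - 1) ≤ b := SG.NZ_mono (by linarith)
      have h4 : (2 : ℝ) ^ J ≤ L / (2 * Real.pi) := by
        rw [le_div_iff₀ (by positivity)]
        exact k1
      rw [Finset.mem_filter, Finset.mem_Ioc]
      refine ⟨⟨by omega, by omega⟩, ?_, ?_⟩
      · rw [hyv, hY0]
        calc t * L / (2 * Real.pi) + 2 ^ J ≤ (t + 1) * (L / (2 * Real.pi)) := by
              have : (t + 1) * (L / (2 * Real.pi)) = t * L / (2 * Real.pi) + L / (2 * Real.pi) := by
                ring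
              linarith
          _ ≤ ord n * (L / (2 * Real.pi)) := mul_le_mul_of_nonneg_right h2.le hc0.le
      · rw [hyv, hY0, hM]
        calc ord n * (L / (2 * Real.pi)) ≤ (t + H - 1) * (L / (2 * Real.pi)) :=
              mul_le_mul_of_nonneg_right h3 hc0.le
          _ = t * L / (2 * Real.pi) + H * L / (2 * Real.pi) - L / (2 * Real.pi) := by ring
          _ ≤ _ := by linarith
    have h5 := Finset.card_le_card h1
    rw [Nat.card_Ioc] at h5
    have h6 : ((NZ (t + H - 1) - NZ (t + 1) : ℕ) : ℝ) ≤ (((Finset.Ioc a b).filter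
        (fun n => Y0 + 2 ^ J ≤ y n ∧ y n ≤ Y0 + M - 2 ^ J)).card : ℝ) := by exact_mod_cast h5
    refine le_trans ?_ h6
    rw [Nat.cast_sub (SG.NZ_mono (by linarith))]
  have hloc := local_gen E0 J hJ (Finset.Ioc a b) (Finset.Ioc a' b') hsub y Y0 M ε C2 hM0 hε.le
    hC20.le hin' hcon hk2 hk1 hcount
  have hfin := XX_abs J a b a' b' y Y0 M hmono hin d1 d2 d3'
  rw [← hm] at hloc hfin
  -- numerics
  set r := Real.sqrt J with hr
  have hr1 : 1 ≤ r := by rw [hr]; exact Real.one_le_sqrt.2 hJ1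
  have hr0 : 0 < r := by linarith
  have hrr : r * r = J := Real.mul_self_sqrt hJpos.le
  have q1 : m * (M - ((b' : ℝ) - a')) ≤ 1 / r * M := by
    have h1 : m * (M - ((b' : ℝ) - a')) ≤ m * (ε * M) :=
      mul_le_mul_of_nonneg_left (by linarith) hm0
    have h2 : m * ε ≤ 1 / r := by
      have h3 : m * ε ≤ ε * (1 + m) ^ 2 := by nlinarith
      rw [hεm] at h3
      refine h3.trans ?_
      rw [← hrr]
      apply one_div_le_one_div_of_le hr0
      nlinarith
    calc m * (M - ((b' : ℝ) - a')) ≤ m * ε * M := by linarith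
      _ ≤ 1 / r * M := mul_le_mul_of_nonneg_right h2 hM0.le
  have q2 : r * (ε * (1 + m ^ 2)) ≤ 1 / r := by
    have h3 : ε * (1 + m ^ 2) ≤ 1 / J := by
      have h4 : ε * (1 + m ^ 2) ≤ ε * (1 + m) ^ 2 := by
        apply mul_le_mul_of_nonneg_left _ hε.le
        nlinarith
      rw [hεm] at h4
      refine h4.trans ?_
      apply one_div_le_one_div_of_le hJpos
      linarith
    calc r * (ε * (1 + m ^ 2)) ≤ r * (1 / J) := mul_le_mul_of_nonneg_left h3 hr0.le
      _ = 1 / r := by rw [← hrr]; field_simp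
  refine hfin.trans ?_
  have q3 : 2 * ∑ n ∈ Finset.Ioc a' b', |FF J (Finset.Ioc a b) y (y n) - m| ≤
      2 * (M * ((E0 / 4 + 20000 * C2) / r + 1 / r)) := by
    apply mul_le_mul_of_nonneg_left _ (by norm_num)
    refine hloc.trans ?_
    apply mul_le_mul_of_nonneg_left _ hM0.le
    linarith
  have q4 : (2 * (E0 / 4 + 20000 * C2) + 3) / r * M =
      1 / r * M + 2 * (M * ((E0 / 4 + 20000 * C2) / r + 1 / r)) := by
    field_simp
    ring
  have q5 : (2 * (E0 / 4 + 20000 * C2) + 3) / r * (T * L / (2 * Real.pi)) =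
      (2 * (E0 / 4 + 20000 * C2) + 3) / r * M := rfl
  linarith

end Pool.Agent.Q276.UR
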