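import Pool.Agent.Q276.LR.A1

/-! The values of the Fejér kernel at the integers. -/

set_option autoImplicit false

open Filter Topology Set MeasureTheory FourierTransform Asymptotics

namespace Pool.Agent.Q276.UR

open H177.Lat (tri KK tri_nonneg tri_zero tri_in tri_even tri_lip tri_cont tri_integrable KK_zero
  KK_ne KK_nonneg KK_le KK_sq)
open Pool.Agent.Q276.LR (four_tri tri_zero')

lemma KK_even (e x : ℝ) : KK e (-x) = KK e x := by
  unfold KK
  congr 1
  funext u
  congr 1
  rw [show 2 * Real.pi * u * -x = -(2 * Real.pi * u * x) by ring, Real.cos_neg]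

/-- Poisson summation for the triangle -/
theorem KK_tsum {e : ℝ} (he : 0 < e) (he1 : e ≤ 1) :
    Summable (fun n : ℤ => KK e n) ∧ ∑' n : ℤ, KK e n = 1 := by
  set f : ℝ → ℂ := fun u => ((tri e u : ℝ) : ℂ) with hf
  have hfc : Continuous f := Complex.continuous_ofReal.comp (tri_cont e)
  have hfO : f =O[cocompact ℝ] (fun x => |x| ^ (-(2 : ℝ))) := by
    have h1 : f =ᶠ[cocompact ℝ] fun _ => 0 := by
      have h2 : ∀ᶠ x : ℝ in cocompact ℝ, x ∉ Icc (-e) e := (isCompact_Icc).compl_mem_cocompact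
      filter_upwards [h2] with x hx
      simp only [hf]
      rw [tri_zero he]
      · simp
      · by_contra hcon
        push Not at hcon
        exact hx (abs_le.1 hcon.le)
    exact h1.trans_isBigO (isBigO_zero _ _)
  have hFf : ∀ x, 𝓕 f x = ((KK e x : ℝ) : ℂ) := fun x => four_tri he x
  have hFO : 𝓕 f =O[cocompact ℝ] (fun x => |x| ^ (-(2 : ℝ))) := by
    apply IsBigO.of_bound (1 / e)
    have h2 : ∀ᶠ x : ℝ in cocompact ℝ, x ∉ Icc (-1 : ℝ) 1 := (isCompact_Icc).compl_mem_cocompact
    filter_upwards [h2] with x hx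
    have hx1 : 1 < |x| := by
      by_contra hcon
      push Not at hcon
      exact hx (abs_le.1 hcon)
    rw [hFf, Complex.norm_real, Real.norm_of_nonneg (KK_nonneg he x),
      Real.norm_of_nonneg (by positivity), Real.rpow_neg (abs_nonneg _)]
    have h3 : |x| ^ (2 : ℝ) = x ^ 2 := by
      rw [Real.rpow_two, sq_abs]
    rw [h3, ← div_eq_mul_inv, le_div_iff₀ (by
      rw [← sq_abs]; positivity)]
    exact KK_sq he x
  have h := Real.tsum_eq_tsum_fourier_of_rpow_decay hfc (by norm_num : (1 : ℝ) < 2) hfO hFO 0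
  simp only [zero_add] at h
  have hsumF : Summable (fun n : ℤ => KK e n) := by
    have h1 : Summable fun n : ℤ => (1 / e + e) * (1 / ((n : ℝ) ^ 2)) := by
      apply Summable.mul_left
      exact_mod_cast Real.summable_one_div_int_pow.2 (by norm_num : 1 < 2)
    have h2 : ∀ n : ℤ, n ≠ 0 → KK e n ≤ (1 / e + e) * (1 / ((n : ℝ) ^ 2)) := by
      intro n hn
      have hn' : (n : ℝ) ≠ 0 := by exact_mod_cast hn
      have hn2 : 0 < (n : ℝ) ^ 2 := by positivity
      rw [mul_one_div, le_div_iff₀ hn2]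
      have := KK_sq he (n : ℝ)
      linarith
    refine Summable.of_norm_bounded_eventually (g := fun n : ℤ => (1 / e + e) * (1 / ((n : ℝ) ^ 2))) h1 ?_
    rw [Filter.eventually_cofinite]
    refine (Set.finite_singleton (0 : ℤ)).subset ?_
    intro n hn
    by_contra hne
    apply hn
    rw [Real.norm_of_nonneg (KK_nonneg he _)]
    exact h2 n hne
  refine ⟨hsumF, ?_⟩
  have hL : ∑' n : ℤ, f n = 1 := by
    rw [tsum_eq_single 0]
    · simp only [hf]
      rw [Int.cast_zero, tri_zero']
      simp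
    · intro n hn
      simp only [hf]
      rw [tri_zero he]
      · simp
      · have : (1 : ℝ) ≤ |(n : ℝ)| := by exact_mod_cast Int.one_le_abs hn
        linarith
  rw [hL] at h
  have hR : ∑' n : ℤ, 𝓕 f n * fourier n ((0 : ℝ) : UnitAddCircle) = ((∑' n : ℤ, KK e n : ℝ) : ℂ) := by
    rw [Complex.ofReal_tsum]
    congr 1
    funext n
    rw [hFf]
    simp
  rw [hR] at h
  exact_mod_cast h.symm

/-- partial sums -/
theorem KK_partial {e : ℝ} (he : 0 < e) (he1 : e ≤ 1) (K : ℕ) :
    KK e 0 + 2 * ∑ k ∈ Finset.Icc 1 K, KK e k ≤ 1 := by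
  obtain ⟨hs, ht⟩ := KK_tsum he he1
  have h1 : ∑ n ∈ Finset.Icc (-(K : ℤ)) K, KK e (n : ℝ) ≤ ∑' n : ℤ, KK e n :=
    hs.sum_le_tsum _ (fun n _ => KK_nonneg he _)
  rw [ht] at h1
  refine le_trans (le_of_eq ?_) h1
  clear h1 ht hs
  induction K with
  | zero => simp
  | succ K ih =>
    rw [Finset.sum_Icc_succ_top (by omega), mul_add, ← add_assoc, ih]
    have e1 : Finset.Icc (-((K + 1 : ℕ) : ℤ)) ((K + 1 : ℕ) : ℤ) =
        insert (-((K + 1 : ℕ) : ℤ)) (insert ((K + 1 : ℕ) : ℤ) (Finset.Icc (-(K : ℤ)) K)) := by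
      ext m
      simp only [Finset.mem_Icc, Finset.mem_insert]
      push_cast
      omega
    rw [e1, Finset.sum_insert, Finset.sum_insert]
    · push_cast
      have : KK e (-1 + -(K : ℝ)) = KK e ((K : ℝ) + 1) := by
        rw [show (-1 + -(K : ℝ)) = -((K : ℝ) + 1) by ring, KK_even]
      have h2 : KK e (-((K : ℝ) + 1)) = KK e ((K : ℝ) + 1) := KK_even _ _
      simp only [neg_add_rev] at *
      rw [this]
      ring
    · simp only [Finset.mem_Icc]
      push_cast
      omega
    · simp only [Finset.mem_Icc, Finset.mem_insert]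
      push_cast
      omega

/-- the kernel is Lipschitz -/
theorem KK_lip {e : ℝ} (he : 0 < e) (x y : ℝ) : |KK e x - KK e y| ≤ 2 * Real.pi * e ^ 2 * |x - y| := by
  have hpi := Real.pi_pos
  have key : ∀ x : ℝ, Integrable fun u : ℝ => tri e u * Real.cos (2 * Real.pi * u * x) := fun x =>
    tri_integrable he (by fun_prop)
  unfold KK
  rw [← integral_sub (key x) (key y)]
  have h1 : ∀ u : ℝ, ‖tri e u * Real.cos (2 * Real.pi * u * x) - tri e u * Real.cos (2 * Real.pi * u * y)‖ ≤
      (2 * Real.pi * e * |x - y|) * (tri e u * Real.cos (2 * Real.pi * u * 0)) := by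
    intro u
    rw [mul_zero, Real.cos_zero, mul_one, ← mul_sub, Real.norm_eq_abs, abs_mul,
      abs_of_nonneg (tri_nonneg e u)]
    rcases le_total e |u| with h | h
    · rw [tri_zero he h]; simp
    · have h2 : |Real.cos (2 * Real.pi * u * x) - Real.cos (2 * Real.pi * u * y)| ≤
          |2 * Real.pi * u * x - 2 * Real.pi * u * y| := Real.abs_cos_sub_cos_le _ _
      have h3 : |2 * Real.pi * u * x - 2 * Real.pi * u * y| = 2 * Real.pi * |u| * |x - y| := by
        rw [← mul_sub, abs_mul, abs_mul, abs_of_pos (by positivity : 0 < 2 * Real.pi)]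
      rw [h3] at h2
      have h4 : 2 * Real.pi * |u| * |x - y| ≤ 2 * Real.pi * e * |x - y| := by
        apply mul_le_mul_of_nonneg_right _ (abs_nonneg _)
        exact mul_le_mul_of_nonneg_left h (by positivity)
      calc tri e u * |Real.cos (2 * Real.pi * u * x) - Real.cos (2 * Real.pi * u * y)| ≤
          tri e u * (2 * Real.pi * e * |x - y|) :=
            mul_le_mul_of_nonneg_left (h2.trans h4) (tri_nonneg e u)
        _ = _ := by ring
  refine (norm_integral_le_of_norm_le ((key 0).const_mul _) (Eventually.of_forall h1)).trans ?_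
  rw [integral_const_mul]
  have h5 : ∫ u : ℝ, tri e u * Real.cos (2 * Real.pi * u * 0) = e := KK_zero he
  rw [h5]
  apply le_of_eq
  ring

end Pool.Agent.Q276.UR
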