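import Pool.Agent.Q276.UR.A3
import Pool.Agent.Q276.LR.A6
import Pool.Agent.Q276.UR.D1

/-! The logarithmic average of tents and its Fourier transform. -/

set_option autoImplicit false

open Filter Topology Set MeasureTheory FourierTransform

namespace Pool.Agent.Q276.UR

open H177.Lat (KK tri KK_zero KK_nonneg KK_le KK_sq KK_int tri_nonneg tri_zero tri_even tri_cont
  tri_integrable)
open Pool.Agent.Q276.LR (KK_contDiff four_tri KK_le2 tri_int)

/-- the transform of an even function -/
lemma four_even {f : ℝ → ℝ} (hf : Integrable f) (he : ∀ u, f (-u) = f u) (x : ℝ) :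
    𝓕 (fun u : ℝ => ((f u : ℝ) : ℂ)) x = ((∫ u, f u * Real.cos (2 * Real.pi * u * x) : ℝ) : ℂ) := by
  rw [Real.fourier_real_eq_integral_exp_smul]
  have h1 : ∀ u : ℝ, Complex.exp (↑(-2 * Real.pi * u * x) * Complex.I) • ((f u : ℝ) : ℂ) =
      ((f u * Real.cos (2 * Real.pi * u * x) : ℝ) : ℂ) -
        Complex.I * ((f u * Real.sin (2 * Real.pi * u * x) : ℝ) : ℂ) := by
    intro u
    rw [Complex.exp_mul_I, ← Complex.ofReal_cos, ← Complex.ofReal_sin, smul_eq_mul]
    have e1 : Real.cos (-2 * Real.pi * u * x) = Real.cos (2 * Real.pi * u * x) := by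
      rw [← Real.cos_neg]; congr 1; ring
    have e2 : Real.sin (-2 * Real.pi * u * x) = -Real.sin (2 * Real.pi * u * x) := by
      rw [← Real.sin_neg]; congr 1; ring
    rw [e1, e2]
    push_cast
    ring
  simp_rw [h1]
  have ic : Integrable fun u => f u * Real.cos (2 * Real.pi * u * x) :=
    hf.mul_bdd (c := 1) (by fun_prop) (Eventually.of_forall fun u => by
      rw [Real.norm_eq_abs]; exact Real.abs_cos_le_one _)
  have is : Integrable fun u => f u * Real.sin (2 * Real.pi * u * x) :=
    hf.mul_bdd (c := 1) (by fun_prop) (Eventually.of_forall fun u => by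
      rw [Real.norm_eq_abs]; exact Real.abs_sin_le_one _)
  rw [integral_sub ic.ofReal (is.ofReal.const_mul _), integral_const_mul]
  have h2 : ∫ u : ℝ, ((f u * Real.sin (2 * Real.pi * u * x) : ℝ) : ℂ) = 0 := by
    rw [integral_complex_ofReal]
    have h3 := integral_neg_eq_self (fun u : ℝ => f u * Real.sin (2 * Real.pi * u * x)) volume
    have h4 : (fun u : ℝ => f (-u) * Real.sin (2 * Real.pi * (-u) * x)) =
        fun u => - (f u * Real.sin (2 * Real.pi * u * x)) := by
      funext u
      rw [he]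
      have : 2 * Real.pi * (-u) * x = -(2 * Real.pi * u * x) := by ring
      rw [this, Real.sin_neg]; ring
    rw [h4, integral_neg] at h3
    have : (∫ u : ℝ, f u * Real.sin (2 * Real.pi * u * x)) = 0 := by linarith
    rw [this]; simp
  rw [h2, mul_zero, sub_zero, integral_complex_ofReal]

lemma KK_scale {e : ℝ} (he : 0 < e) (x : ℝ) : KK e x = e * KK 1 (e * x) := by
  rw [KK_int he, KK_int one_pos, one_mul, one_mul]

/-- the integral of the Fejer kernel -/
lemma KK1_int : Integrable (KK 1) ∧ ∫ x, KK 1 x = 1 := by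
  have hc : Continuous (KK 1) := (KK_contDiff one_pos).continuous
  have hi : Integrable (KK 1) := by
    have h1 : Integrable fun x : ℝ => 2 * (1 * (1 + (1 * x) ^ 2)⁻¹) := by
      have := integrable_inv_one_add_sq
      simpa using this.const_mul 2
    refine h1.mono' hc.aestronglyMeasurable (Eventually.of_forall fun x => ?_)
    rw [Real.norm_of_nonneg (KK_nonneg one_pos x)]
    exact KK_le2 one_pos x
  refine ⟨hi, ?_⟩
  have h1 : Integrable (fun u : ℝ => ((tri 1 u : ℝ) : ℂ)) := (tri_int one_pos).ofReal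
  have hF : 𝓕 (fun u : ℝ => ((tri 1 u : ℝ) : ℂ)) = fun x => ((KK 1 x : ℝ) : ℂ) :=
    funext fun x => four_tri one_pos x
  have h2 : Integrable (𝓕 (fun u : ℝ => ((tri 1 u : ℝ) : ℂ))) := by
    rw [hF]; exact hi.ofReal
  have h3 : Continuous (fun u : ℝ => ((tri 1 u : ℝ) : ℂ)) :=
    Complex.continuous_ofReal.comp (tri_cont 1)
  have h4 := h3.fourierInv_fourier_eq h1 h2
  have h5 := congrFun h4 0
  rw [Real.fourierInv_eq'] at h5
  simp only [inner_zero_right, mul_zero, Complex.ofReal_zero, zero_mul, Complex.exp_zero,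
    one_smul] at h5
  rw [hF, integral_complex_ofReal] at h5
  have h6 : tri 1 0 = 1 := by unfold tri; simp
  rw [h6] at h5
  exact_mod_cast h5

/-- `(1/ℓ) ∫_0^ℓ max(0, 1 - |x| e^{-s}) ds` -/
noncomputable def wR (l x : ℝ) : ℝ := l⁻¹ * ∫ s in (0 : ℝ)..l, tri 1 (x * Real.exp (-s))

/-- its transform -/
noncomputable def HR (l x : ℝ) : ℝ := l⁻¹ * ∫ s in (0 : ℝ)..l, Real.exp s * KK 1 (x * Real.exp s)

lemma wR_cont (l : ℝ) : Continuous (wR l) := by
  unfold wR
  refine continuous_const.mul ?_
  apply intervalIntegral.continuous_parametric_intervalIntegral_of_continuous'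
  have := tri_cont 1
  exact this.comp (by fun_prop)

lemma tri_le_one (x : ℝ) : tri 1 x ≤ 1 := by
  unfold tri
  apply max_le zero_le_one
  have := abs_nonneg x
  simp only [div_one]
  linarith

lemma tri_sint (x a b : ℝ) :
    IntervalIntegrable (fun s => tri 1 (x * Real.exp (-s))) volume a b :=
  ((tri_cont 1).comp (by fun_prop)).intervalIntegrable _ _

lemma wR_nonneg {l : ℝ} (hl : 0 < l) (x : ℝ) : 0 ≤ wR l x := by
  unfold wR
  refine mul_nonneg (by positivity) (intervalIntegral.integral_nonneg hl.le fun s _ => ?_)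
  exact tri_nonneg _ _

lemma wR_le_one {l : ℝ} (hl : 0 < l) (x : ℝ) : wR l x ≤ 1 := by
  unfold wR
  have h1 : ∫ s in (0 : ℝ)..l, tri 1 (x * Real.exp (-s)) ≤ ∫ s in (0 : ℝ)..l, (1 : ℝ) :=
    intervalIntegral.integral_mono_on hl.le (tri_sint x _ _) (by simp) fun s _ => tri_le_one _
  rw [intervalIntegral.integral_const, smul_eq_mul, mul_one, sub_zero] at h1
  rw [inv_mul_le_iff₀ hl, mul_one]
  exact h1

lemma wR_even (l x : ℝ) : wR l (-x) = wR l x := by
  unfold wR
  congr 1
  apply intervalIntegral.integral_congr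
  intro s _
  show tri 1 (-x * Real.exp (-s)) = tri 1 (x * Real.exp (-s))
  rw [neg_mul, tri_even]

lemma wR_far {l x : ℝ} (hl : 0 < l) (hx : Real.exp l ≤ |x|) : wR l x = 0 := by
  unfold wR
  have h1 : ∫ s in (0 : ℝ)..l, tri 1 (x * Real.exp (-s)) = ∫ s in (0 : ℝ)..l, (0 : ℝ) := by
    apply intervalIntegral.integral_congr
    intro s hs
    rw [Set.uIcc_of_le hl.le] at hs
    show tri 1 (x * Real.exp (-s)) = 0
    apply tri_zero one_pos
    rw [abs_mul, abs_of_pos (Real.exp_pos _)]
    calc (1 : ℝ) = Real.exp s * Real.exp (-s) := by rw [← Real.exp_add]; simp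
      _ ≤ |x| * Real.exp (-s) := by
        apply mul_le_mul_of_nonneg_right _ (Real.exp_pos _).le
        exact (Real.exp_le_exp.2 hs.2).trans hx
  rw [h1]; simp

lemma exp_neg_int (l : ℝ) : ∫ s in (0 : ℝ)..l, Real.exp (-s) = 1 - Real.exp (-l) := by
  rw [intervalIntegral.integral_comp_neg (fun s => Real.exp s), integral_exp]
  simp

lemma one_sub_wR {l : ℝ} (hl : 0 < l) (x : ℝ) : 1 - wR l x ≤ |x| / l := by
  have h1 : ∫ s in (0 : ℝ)..l, (1 - |x| * Real.exp (-s)) ≤
      ∫ s in (0 : ℝ)..l, tri 1 (x * Real.exp (-s)) := by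
    apply intervalIntegral.integral_mono_on hl.le (Continuous.intervalIntegrable (by fun_prop) _ _)
      (tri_sint x _ _)
    intro s _
    unfold tri
    rw [div_one, abs_mul, abs_of_pos (Real.exp_pos _)]
    exact le_max_right _ _
  rw [intervalIntegral.integral_sub (by simp) (Continuous.intervalIntegrable (by fun_prop) _ _),
    intervalIntegral.integral_const_mul, exp_neg_int, intervalIntegral.integral_const,
    smul_eq_mul, mul_one, sub_zero] at h1
  have h2 : l - |x| ≤ ∫ s in (0 : ℝ)..l, tri 1 (x * Real.exp (-s)) := by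
    have h3 := mul_nonneg (abs_nonneg x) (Real.exp_pos (-l)).le
    linarith [h1]
  unfold wR
  have h4 := mul_le_mul_of_nonneg_left h2 (by positivity : 0 ≤ l⁻¹)
  have h5 : l⁻¹ * (l - |x|) = 1 - |x| / l := by field_simp
  linarith

lemma wR_int {l : ℝ} (hl : 0 < l) : Integrable (wR l) := by
  apply (wR_cont l).integrable_of_hasCompactSupport
  apply HasCompactSupport.intro (isCompact_Icc (a := -Real.exp l) (b := Real.exp l))
  intro x hx
  apply wR_far hl
  by_contra h
  push Not at h
  exact hx (abs_le.1 h.le)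

/-- the transform of one tent -/
lemma tri_exp_four (s α : ℝ) :
    ∫ x, tri 1 (x * Real.exp (-s)) * Real.cos (2 * Real.pi * x * α) =
      Real.exp s * KK 1 (α * Real.exp s) := by
  have h1 := Measure.integral_comp_mul_right
    (fun u : ℝ => tri 1 u * Real.cos (2 * Real.pi * (u * Real.exp s) * α)) (Real.exp (-s))
  have h2 : ∀ x : ℝ, x * Real.exp (-s) * Real.exp s = x := by
    intro x
    rw [mul_assoc, ← Real.exp_add]; simp
  simp_rw [h2] at h1
  rw [h1, ← Real.exp_neg, neg_neg, abs_of_pos (Real.exp_pos _), smul_eq_mul]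
  congr 1
  unfold KK
  congr 1
  funext u
  congr 2
  ring

/-- the transform of the average -/
lemma wR_cos {l : ℝ} (hl : 0 < l) (α : ℝ) :
    ∫ x, wR l x * Real.cos (2 * Real.pi * x * α) = HR l α := by
  unfold HR
  simp_rw [← tri_exp_four]
  have h0 : ∀ x : ℝ, wR l x * Real.cos (2 * Real.pi * x * α) =
      l⁻¹ * ∫ s in (0 : ℝ)..l, tri 1 (x * Real.exp (-s)) * Real.cos (2 * Real.pi * x * α) := by
    intro x
    unfold wR
    rw [intervalIntegral.integral_mul_const]; ring
  simp_rw [h0]
  rw [integral_const_mul]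
  congr 1
  simp_rw [intervalIntegral.integral_of_le hl.le]
  rw [integral_integral_swap]
  -- integrability on the product
  have hc : Continuous (Function.uncurry fun (x s : ℝ) =>
      tri 1 (x * Real.exp (-s)) * Real.cos (2 * Real.pi * x * α)) := by
    have := tri_cont 1
    apply Continuous.mul
    · exact this.comp (by fun_prop)
    · fun_prop
  have h1 : IntegrableOn (Function.uncurry fun (x s : ℝ) =>
      tri 1 (x * Real.exp (-s)) * Real.cos (2 * Real.pi * x * α))
      (Icc (-Real.exp l) (Real.exp l) ×ˢ Icc 0 l) (volume.prod volume) :=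
    hc.continuousOn.integrableOn_compact (isCompact_Icc.prod isCompact_Icc)
  have h2 : IntegrableOn (Function.uncurry fun (x s : ℝ) =>
      tri 1 (x * Real.exp (-s)) * Real.cos (2 * Real.pi * x * α))
      (univ ×ˢ Ioc 0 l) (volume.prod volume) := by
    refine IntegrableOn.of_forall_sdiff_eq_zero
      (h1.mono_set (s := Icc (-Real.exp l) (Real.exp l) ×ˢ Ioc 0 l)
        (prod_mono_right Ioc_subset_Icc_self)) (MeasurableSet.univ.prod measurableSet_Ioc) ?_
    rintro ⟨x, s⟩ ⟨hx1, hx2⟩
    have hs : s ∈ Ioc 0 l := hx1.2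
    have hx : x ∉ Icc (-Real.exp l) (Real.exp l) := fun h => hx2 ⟨h, hs⟩
    have h3 : Real.exp l ≤ |x| := by
      by_contra h
      push Not at h
      exact hx (abs_le.1 h.le)
    show tri 1 (x * Real.exp (-s)) * Real.cos (2 * Real.pi * x * α) = 0
    rw [tri_zero one_pos, zero_mul]
    rw [abs_mul, abs_of_pos (Real.exp_pos _)]
    calc (1 : ℝ) = Real.exp s * Real.exp (-s) := by rw [← Real.exp_add]; simp
      _ ≤ |x| * Real.exp (-s) := by
        apply mul_le_mul_of_nonneg_right _ (Real.exp_pos _).le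
        exact (Real.exp_le_exp.2 hs.2).trans h3
  rw [IntegrableOn, ← Measure.prod_restrict, Measure.restrict_univ] at h2
  exact h2

lemma wR_four {l : ℝ} (hl : 0 < l) (α : ℝ) :
    𝓕 (fun u : ℝ => ((wR l u : ℝ) : ℂ)) α = ((HR l α : ℝ) : ℂ) := by
  rw [four_even (wR_int hl) (wR_even l), wR_cos hl]

lemma HR_zero {l : ℝ} (_hl : 0 < l) : HR l 0 = l⁻¹ * (Real.exp l - 1) := by
  unfold HR
  congr 1
  have h1 : ∀ s : ℝ, Real.exp s * KK 1 (0 * Real.exp s) = Real.exp s := by
    intro s
    rw [zero_mul, KK_zero one_pos, mul_one]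
  simp_rw [h1]
  rw [integral_exp, Real.exp_zero]

lemma wR_integral {l : ℝ} (hl : 0 < l) : ∫ x, wR l x = l⁻¹ * (Real.exp l - 1) := by
  rw [← HR_zero hl, ← wR_cos hl]
  simp

lemma HR_sint (l α : ℝ) :
    IntervalIntegrable (fun s => Real.exp s * KK 1 (α * Real.exp s)) volume 0 l := by
  have hc : Continuous (KK 1) := (KK_contDiff one_pos).continuous
  exact (Real.continuous_exp.mul (hc.comp (by fun_prop))).intervalIntegrable _ _

lemma HR_nonneg {l : ℝ} (hl : 0 < l) (α : ℝ) : 0 ≤ HR l α := by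
  unfold HR
  refine mul_nonneg (by positivity) (intervalIntegral.integral_nonneg hl.le fun s _ => ?_)
  exact mul_nonneg (Real.exp_pos _).le (KK_nonneg one_pos _)

lemma HR_even {l : ℝ} (hl : 0 < l) (α : ℝ) : HR l (-α) = HR l α := by
  rw [← wR_cos hl, ← wR_cos hl]
  congr 1
  funext x
  congr 1
  rw [← Real.cos_neg]
  congr 1
  ring

lemma HR_le {l : ℝ} (hl : 0 < l) (α : ℝ) : HR l α ≤ l⁻¹ * Real.exp l := by
  unfold HR
  apply mul_le_mul_of_nonneg_left _ (by positivity)
  have h1 : ∫ s in (0 : ℝ)..l, Real.exp s * KK 1 (α * Real.exp s) ≤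
      ∫ s in (0 : ℝ)..l, Real.exp s := by
    apply intervalIntegral.integral_mono_on hl.le (HR_sint l α)
      (Real.continuous_exp.intervalIntegrable _ _)
    intro s _
    have := KK_le one_pos (α * Real.exp s)
    nlinarith [Real.exp_pos s]
  rw [integral_exp, Real.exp_zero] at h1
  linarith

lemma HR_abs {l : ℝ} (hl : 0 < l) (α : ℝ) : |α| * HR l α ≤ 1 / (2 * l) := by
  wlog hα : 0 ≤ α generalizing α
  · have h1 := this (-α) (by linarith)
    rwa [abs_neg, HR_even hl] at h1
  rcases hα.eq_or_lt with h0 | h0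
  · rw [← h0, abs_zero, zero_mul]; positivity
  obtain ⟨hi, he⟩ := KK1_int
  have hc : Continuous (KK 1) := (KK_contDiff one_pos).continuous
  have h1 : ∫ s in (0 : ℝ)..l, (KK 1 (α * Real.exp s)) * (α * Real.exp s) =
      ∫ v in (α * Real.exp 0)..(α * Real.exp l), KK 1 v := by
    have := intervalIntegral.integral_comp_mul_deriv (a := 0) (b := l)
      (f := fun s => α * Real.exp s) (f' := fun s => α * Real.exp s) (g := KK 1)
      (fun s _ => (Real.hasDerivAt_exp s).const_mul α) (by fun_prop) hc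
    exact this
  have h2 : ∫ v in (α * Real.exp 0)..(α * Real.exp l), KK 1 v ≤ 1 / 2 := by
    have h3 : ∫ v, KK 1 |v| = 2 * ∫ v in Ioi 0, KK 1 v := integral_comp_abs
    have h4 : (fun v : ℝ => KK 1 |v|) = KK 1 := by
      funext v
      rcases abs_choice v with h | h
      · rw [h]
      · rw [h, KK_even]
    rw [h4, he] at h3
    have hle : α * Real.exp 0 ≤ α * Real.exp l :=
      mul_le_mul_of_nonneg_left (Real.exp_le_exp.2 hl.le) hα
    rw [intervalIntegral.integral_of_le hle]
    have h5 : ∫ v in Ioc (α * Real.exp 0) (α * Real.exp l), KK 1 v ≤ ∫ v in Ioi 0, KK 1 v := by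
      apply setIntegral_mono_set hi.integrableOn
      · exact Eventually.of_forall fun v => KK_nonneg one_pos v
      · apply LE.le.eventuallyLE
        intro v hv
        rw [mem_Ioi]
        refine lt_trans ?_ hv.1
        positivity
    linarith
  unfold HR
  rw [abs_of_nonneg hα]
  calc α * (l⁻¹ * ∫ s in (0 : ℝ)..l, Real.exp s * KK 1 (α * Real.exp s)) =
      l⁻¹ * ∫ s in (0 : ℝ)..l, (KK 1 (α * Real.exp s)) * (α * Real.exp s) := by
        rw [mul_left_comm, ← intervalIntegral.integral_const_mul]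
        congr 2
        funext s
        ring
    _ ≤ l⁻¹ * (1 / 2) := by
        rw [h1]
        exact mul_le_mul_of_nonneg_left h2 (by positivity)
    _ = 1 / (2 * l) := by field_simp

lemma HR_sq {l : ℝ} (hl : 0 < l) (α : ℝ) : α ^ 2 * HR l α ≤ 1 / l := by
  unfold HR
  rw [mul_left_comm, ← intervalIntegral.integral_const_mul]
  have h1 : ∫ s in (0 : ℝ)..l, α ^ 2 * (Real.exp s * KK 1 (α * Real.exp s)) ≤
      ∫ s in (0 : ℝ)..l, Real.exp (-s) := by
    apply intervalIntegral.integral_mono_on hl.le ((HR_sint l α).const_mul _)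
      (Continuous.intervalIntegrable (by fun_prop) _ _)
    intro s _
    have h2 := KK_sq one_pos (α * Real.exp s)
    have h3 : α ^ 2 * (Real.exp s * KK 1 (α * Real.exp s)) =
        Real.exp (-s) * (KK 1 (α * Real.exp s) * (α * Real.exp s) ^ 2) := by
      rw [Real.exp_neg]
      field_simp
    rw [h3]
    have := mul_le_mul_of_nonneg_left h2 (Real.exp_pos (-s)).le
    linarith
  rw [exp_neg_int] at h1
  have h4 := Real.exp_pos (-l)
  calc l⁻¹ * ∫ s in (0 : ℝ)..l, α ^ 2 * (Real.exp s * KK 1 (α * Real.exp s)) ≤ l⁻¹ * 1 :=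
        mul_le_mul_of_nonneg_left (by linarith) (by positivity)
    _ = 1 / l := by rw [mul_one, one_div]

lemma HR_contDiff {l : ℝ} (hl : 0 < l) : ContDiff ℝ 2 (HR l) := by
  have h1 : ContDiff ℝ (2 : ℕ∞) (𝓕 (fun u : ℝ => ((wR l u : ℝ) : ℂ))) := by
    apply Real.contDiff_fourier
    intro n _
    have hc : Continuous fun v : ℝ => ‖v‖ ^ n * ‖((wR l v : ℝ) : ℂ)‖ := by
      have := wR_cont l
      fun_prop
    have hc2 : Continuous fun v : ℝ => ‖v‖ ^ n • ((wR l v : ℝ) : ℂ) := by
      have := wR_cont l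
      fun_prop
    apply hc.integrable_of_hasCompactSupport
    apply HasCompactSupport.intro (isCompact_Icc (a := -Real.exp l) (b := Real.exp l))
    intro x hx
    rw [wR_far hl]
    · simp
    by_contra h
    push Not at h
    exact hx (abs_le.1 h.le)
  have h2 : HR l = fun x => (𝓕 (fun u : ℝ => ((wR l u : ℝ) : ℂ)) x).re := by
    funext x
    rw [wR_four hl, Complex.ofReal_re]
  rw [h2]
  have h3 : ContDiff ℝ 2 (𝓕 (fun u : ℝ => ((wR l u : ℝ) : ℂ))) := by exact_mod_cast h1
  exact Complex.reCLM.contDiff.comp h3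

end Pool.Agent.Q276.UR
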