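import Pool.Agent.Q276.UR.N1
import Pool.Agent.Q276.UR.B2

/-! Mean squares of the smoothed counts. -/

set_option autoImplicit false

open Filter Topology Set MeasureTheory FourierTransform

namespace Pool.Agent.Q276.UR

open SG (ord NZ zmult ZS)
open H177.Lat (kI yy)
open H370 (NN)
open Pool.Agent.Q276.LR

/-- the square of the transform -/
noncomputable def gR (l x : ℝ) : ℝ := HR l x ^ 2

lemma gR_contDiff {l : ℝ} (hl : 0 < l) : ContDiff ℝ 2 (gR l) := (HR_contDiff hl).pow 2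

lemma gR_A {l : ℝ} (hl : 0 < l) (x : ℝ) : x ^ 2 * gR l x ≤ 1 / (4 * l ^ 2) := by
  have h1 := HR_abs hl x
  have h2 : 0 ≤ |x| * HR l x := mul_nonneg (abs_nonneg _) (HR_nonneg hl _)
  have h3 : (|x| * HR l x) ^ 2 ≤ (1 / (2 * l)) ^ 2 := pow_le_pow_left₀ h2 h1 2
  have h4 : (|x| * HR l x) ^ 2 = x ^ 2 * gR l x := by rw [mul_pow, sq_abs]; rfl
  have h5 : (1 / (2 * l)) ^ 2 = 1 / (4 * l ^ 2) := by rw [div_pow]; ring
  rw [h4, h5] at h3
  exact h3

lemma int_cut {l : ℝ} (hl : Real.log 2 ≤ l) :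
    ∫ α : ℝ, |α| * Cut (gR l) 2 α ≤ 1 / (2 * l) + 1 / l ^ 2 := by
  have hl2 : 0 < Real.log 2 := Real.log_pos (by norm_num)
  have hl0 : 0 < l := by linarith
  set a : ℝ := Real.exp (-l) with ha
  have ha0 : 0 < a := Real.exp_pos _
  have ha2 : a ≤ 1 / 2 := by
    rw [ha, Real.exp_neg, one_div]
    apply inv_anti₀ (by norm_num)
    calc (2 : ℝ) = Real.exp (Real.log 2) := (Real.exp_log (by norm_num)).symm
      _ ≤ Real.exp l := Real.exp_le_exp.2 hl
  have hae : a * Real.exp l = 1 := by rw [ha, ← Real.exp_add]; simp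
  have hgc : Continuous (gR l) := (gR_contDiff hl0).continuous
  have hC : Continuous (Cut (gR l) 2) := Cut_cont hgc 2
  have hg0 : ∀ x, 0 ≤ gR l x := fun x => sq_nonneg _
  have hCg : ∀ x, Cut (gR l) 2 x ≤ gR l x := fun x => by
    unfold Cut
    have := mul_le_mul_of_nonneg_left (ct_le_one 2 x) (hg0 x)
    linarith
  have heven : ∀ x, Cut (gR l) 2 |x| = Cut (gR l) 2 x := by
    intro x
    rcases abs_choice x with h | h
    · rw [h]
    · rw [h]
      unfold Cut gR ct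
      rw [HR_even hl0]
      congr 4
      ring
  have h1 : ∫ α : ℝ, |α| * Cut (gR l) 2 α = 2 * ∫ t in Ioi (0 : ℝ), t * Cut (gR l) 2 t := by
    rw [← integral_comp_abs (f := fun t => t * Cut (gR l) 2 t)]
    congr 1
    funext α
    rw [heven]
  have h2 : ∫ t in Ioi (0 : ℝ), t * Cut (gR l) 2 t =
      ∫ t in (0 : ℝ)..(1 / 2), t * Cut (gR l) 2 t := by
    rw [intervalIntegral.integral_of_le (by norm_num)]
    apply setIntegral_eq_of_subset_of_forall_sdiff_eq_zero measurableSet_Ioi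
    · intro t ht; exact ht.1
    · intro t ht
      have h3 : 1 / 2 < t := by
        by_contra h
        push Not at h
        exact ht.2 ⟨ht.1, h⟩
      rw [Cut_out (by norm_num), mul_zero]
      rw [abs_of_pos (by linarith)]
      exact h3.le
  have hii : ∀ a b : ℝ, IntervalIntegrable (fun t => t * Cut (gR l) 2 t) volume a b :=
    fun a b => (continuous_id.mul hC).intervalIntegrable _ _
  have h3 : ∫ t in (0 : ℝ)..(1 / 2), t * Cut (gR l) 2 t =
      (∫ t in (0 : ℝ)..a, t * Cut (gR l) 2 t) + ∫ t in a..(1 / 2), t * Cut (gR l) 2 t :=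
    (intervalIntegral.integral_add_adjacent_intervals (hii _ _) (hii _ _)).symm
  have h4 : ∫ t in (0 : ℝ)..a, t * Cut (gR l) 2 t ≤ 1 / (2 * l ^ 2) := by
    have h5 : ∫ t in (0 : ℝ)..a, t * Cut (gR l) 2 t ≤
        ∫ t in (0 : ℝ)..a, t * (l⁻¹ * Real.exp l) ^ 2 := by
      apply intervalIntegral.integral_mono_on ha0.le (hii _ _)
        (Continuous.intervalIntegrable (by fun_prop) _ _)
      intro t ht
      apply mul_le_mul_of_nonneg_left _ ht.1
      refine (hCg t).trans ?_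
      exact pow_le_pow_left₀ (HR_nonneg hl0 t) (HR_le hl0 t) 2
    rw [intervalIntegral.integral_mul_const, integral_id] at h5
    have h6 : (a ^ 2 - 0 ^ 2) / 2 * (l⁻¹ * Real.exp l) ^ 2 = 1 / (2 * l ^ 2) := by
      have : (a ^ 2 - 0 ^ 2) / 2 * (l⁻¹ * Real.exp l) ^ 2 = (a * Real.exp l) ^ 2 / (2 * l ^ 2) := by
        field_simp
        ring
      rw [this, hae, one_pow]
    rw [h6] at h5
    exact h5
  have h7 : ∫ t in a..(1 / 2), t * Cut (gR l) 2 t ≤ 1 / (4 * l) := by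
    have h8 : ∫ t in a..(1 / 2), t * Cut (gR l) 2 t ≤
        ∫ t in a..(1 / 2), 1 / (4 * l ^ 2) * (1 / t) := by
      apply intervalIntegral.integral_mono_on ha2 (hii _ _)
      · apply ContinuousOn.intervalIntegrable
        intro t ht
        rw [Set.uIcc_of_le ha2] at ht
        have : t ≠ 0 := by linarith [ht.1]
        exact (by fun_prop (disch := assumption) : ContinuousAt _ t).continuousWithinAt
      intro t ht
      have ht0 : 0 < t := by linarith [ht.1]
      have h9 : t * Cut (gR l) 2 t ≤ t * gR l t := mul_le_mul_of_nonneg_left (hCg t) ht0.le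
      refine h9.trans ?_
      have h10 := gR_A hl0 t
      have h11 : t * gR l t = (t ^ 2 * gR l t) * (1 / t) := by field_simp
      rw [h11]
      exact mul_le_mul_of_nonneg_right h10 (by positivity)
    rw [intervalIntegral.integral_const_mul, integral_one_div_of_pos ha0 (by norm_num)] at h8
    have h12 : Real.log (1 / 2 / a) ≤ l := by
      have h13 : (1 / 2 : ℝ) / a ≤ Real.exp l := by
        rw [div_le_iff₀ ha0, mul_comm, hae]; norm_num
      calc Real.log (1 / 2 / a) ≤ Real.log (Real.exp l) := Real.log_le_log (by positivity) h13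
        _ = l := Real.log_exp l
    have h14 := mul_le_mul_of_nonneg_left h12 (by positivity : 0 ≤ 1 / (4 * l ^ 2))
    have h15 : 1 / (4 * l ^ 2) * l = 1 / (4 * l) := by field_simp
    linarith
  rw [h1, h2, h3]
  have h16 : 2 * (1 / (2 * l ^ 2) + 1 / (4 * l)) = 1 / (2 * l) + 1 / l ^ 2 := by
    field_simp
    ring
  linarith

/-- the part which is cut off -/
lemma tail_cut {l : ℝ} (hl : 0 < l) (x : ℝ) :
    gR l x ≤ Cut (gR l) 2 x + 4 / l ^ 2 * (1 / (1 + x ^ 2)) := by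
  have hx2 : 0 ≤ x ^ 2 := sq_nonneg x
  have hg0 : 0 ≤ gR l x := sq_nonneg _
  have h1 := gR_A hl x
  have h2 := one_sub_ct 2 x
  have h3 := ct_le_one 2 x
  have h3' := ct_nonneg 2 x
  have key : gR l x * (1 - ct 2 x) * (1 + x ^ 2) ≤ 4 / l ^ 2 := by
    have a1 : gR l x * (1 - ct 2 x) ≤ 8 * (x ^ 2 * gR l x) := by
      have := mul_le_mul_of_nonneg_left h2 hg0
      have e : gR l x * (2 * (2 * x) ^ 2) = 8 * (x ^ 2 * gR l x) := by ring
      linarith
    have a2 : gR l x * (1 - ct 2 x) * x ^ 2 ≤ x ^ 2 * gR l x := by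
      have := mul_le_mul_of_nonneg_left (by linarith : 1 - ct 2 x ≤ 1) (mul_nonneg hx2 hg0)
      linarith
    have a3 : gR l x * (1 - ct 2 x) * (1 + x ^ 2) ≤ 9 * (1 / (4 * l ^ 2)) := by linarith
    have a4 : 9 * (1 / (4 * l ^ 2)) ≤ 4 / l ^ 2 := by
      rw [mul_one_div, div_le_div_iff₀ (by positivity) (by positivity)]
      nlinarith [sq_nonneg l]
    linarith
  have h4 : gR l x * (1 - ct 2 x) ≤ 4 / l ^ 2 * (1 / (1 + x ^ 2)) := by
    rw [mul_one_div, le_div_iff₀ (by positivity)]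
    exact key
  unfold Cut
  linarith

/-- the smoothed count -/
noncomputable def FR (l : ℝ) (I : Finset ℕ) (y : ℕ → ℝ) (x : ℝ) : ℝ := ∑ n ∈ I, wR l (x - y n)

lemma FR_cont (l : ℝ) (I : Finset ℕ) (y : ℕ → ℝ) : Continuous (FR l I y) := by
  unfold FR
  exact continuous_finsetSum _ fun n _ => (wR_cont l).comp (by fun_prop)

lemma Cut_TS {g : ℝ → ℝ} (hg : Continuous g) (I : Finset ℕ) (y : ℕ → ℝ) :
    Integrable (fun α => Cut g 2 α * ‖TS I y α‖ ^ 2) ∧
    ∫ α, Cut g 2 α * ‖TS I y α‖ ^ 2 = ∑ n ∈ I, ∑ m ∈ I, bl (Cut g 2) (y n - y m) := by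
  have hΨ : Continuous (Cut g 2) := Cut_cont hg 2
  have hz : ∀ α, α ∉ Icc (-(1 / 2) : ℝ) (1 / 2) → Cut g 2 α = 0 := by
    intro α h
    rw [Cut_out (by norm_num)]
    by_contra h2
    push Not at h2
    obtain ⟨h3, h4⟩ := abs_lt.1 h2
    exact h ⟨h3.le, h4.le⟩
  have hint : ∀ f : ℝ → ℝ, Continuous f → Integrable (fun α => Cut g 2 α * f α) := by
    intro f hf
    apply (hΨ.mul hf).integrable_of_hasCompactSupport
    apply HasCompactSupport.intro (isCompact_Icc (a := (-(1 / 2) : ℝ)) (b := 1 / 2))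
    intro x hx
    show Cut g 2 x * f x = 0
    rw [hz x hx, zero_mul]
  refine ⟨hint _ ((TS_cont I y).norm.pow 2), ?_⟩
  simp_rw [TS_sq, Finset.mul_sum]
  rw [integral_finsetSum]
  swap
  · intro n _
    exact integrable_finsetSum _ fun m _ => hint _ (by fun_prop)
  refine Finset.sum_congr rfl fun n _ => ?_
  rw [integral_finsetSum]
  swap
  · intro m _
    exact hint _ (by fun_prop)
  rfl

theorem FR_sq {l : ℝ} (hl : 0 < l) (I : Finset ℕ) (y : ℕ → ℝ) :
    Integrable (fun x => FR l I y x ^ 2) ∧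
    ∫ x, FR l I y x ^ 2 ≤ ∑ n ∈ I, ∑ m ∈ I, bl (Cut (gR l) 2) (y n - y m) +
      4 / l ^ 2 * (Real.pi * ∑ n ∈ I, ∑ m ∈ I, Real.exp (-(2 * Real.pi) * |y n - y m|)) := by
  have h1 : Integrable fun u : ℝ => ((wR l u : ℝ) : ℂ) := (wR_int hl).ofReal
  have h2 : MemLp (fun u : ℝ => ((wR l u : ℝ) : ℂ)) 2 := by
    apply mem_of_bdd h1 (C := 1)
    intro x
    rw [Complex.norm_real, Real.norm_of_nonneg (wR_nonneg hl _)]
    exact wR_le_one hl x
  obtain ⟨i1, i2, e⟩ := planch_eq h1 h2 I y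
  have e1 : ∀ x, ‖∑ n ∈ I, ((wR l (x - y n) : ℝ) : ℂ)‖ ^ 2 = FR l I y x ^ 2 := by
    intro x
    rw [← Complex.ofReal_sum, Complex.norm_real, Real.norm_eq_abs, sq_abs]
    rfl
  simp_rw [e1] at i1 e
  simp_rw [wR_four hl, Complex.norm_real, Real.norm_eq_abs, sq_abs] at i2 e
  refine ⟨i1, ?_⟩
  obtain ⟨j1, e2⟩ := Cut_TS (gR_contDiff hl).continuous I y
  obtain ⟨j2, e3⟩ := cauchy_sum I y
  rw [e, ← e2]
  calc ∫ α, HR l α ^ 2 * ‖TS I y α‖ ^ 2 ≤
      ∫ α, (Cut (gR l) 2 α * ‖TS I y α‖ ^ 2 + 4 / l ^ 2 * (1 / (1 + α ^ 2) * ‖TS I y α‖ ^ 2)) := by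
        apply integral_mono i2 (j1.add (j2.const_mul _))
        intro α
        have := mul_le_mul_of_nonneg_right (tail_cut hl α) (sq_nonneg ‖TS I y α‖)
        refine this.trans (le_of_eq ?_)
        show _ = Cut (gR l) 2 α * ‖TS I y α‖ ^ 2 + 4 / l ^ 2 * (1 / (1 + α ^ 2) * ‖TS I y α‖ ^ 2)
        ring
    _ = (∫ α, Cut (gR l) 2 α * ‖TS I y α‖ ^ 2) +
        4 / l ^ 2 * (∫ α, 1 / (1 + α ^ 2) * ‖TS I y α‖ ^ 2) := by
        rw [integral_add j1 (j2.const_mul _), integral_const_mul]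
    _ ≤ _ := by
        have h4 : (0 : ℝ) ≤ 4 / l ^ 2 := by positivity
        have h5 := mul_le_mul_of_nonneg_left e3 h4
        linarith

/-- the mean value -/
noncomputable def mR (l : ℝ) : ℝ := l⁻¹ * (Real.exp l - 1)

lemma mR_nonneg {l : ℝ} (hl : 0 < l) : 0 ≤ mR l := by
  unfold mR
  have : 1 ≤ Real.exp l := Real.one_le_exp hl.le
  have h2 : 0 ≤ l⁻¹ := by positivity
  exact mul_nonneg h2 (by linarith)

lemma FR_mean {l : ℝ} (hl : 0 < l) (I : Finset ℕ) (y : ℕ → ℝ) (Y0 M : ℝ) (hM : 0 ≤ M) :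
    mR l * ((I.filter (fun n => Y0 + Real.exp l ≤ y n ∧ y n ≤ Y0 + M - Real.exp l)).card : ℝ) ≤
      ∫ x in Y0..(Y0 + M), FR l I y x := by
  unfold FR
  have hc : ∀ n, Continuous fun x => wR l (x - y n) := fun n => (wR_cont l).comp (by fun_prop)
  rw [intervalIntegral.integral_finsetSum fun n _ => (hc n).intervalIntegrable _ _]
  rw [← nsmul_eq_mul', ← Finset.sum_const, Finset.sum_filter]
  apply Finset.sum_le_sum
  intro n _
  split_ifs with h
  · have h1 : ∫ x in Y0..(Y0 + M), wR l (x - y n) = ∫ x, wR l (x - y n) := by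
      apply intervalIntegral.integral_eq_integral_of_support_subset
      intro x hx
      have hx' : wR l (x - y n) ≠ 0 := hx
      have h2 : |x - y n| < Real.exp l := by
        by_contra hcon
        push Not at hcon
        exact hx' (wR_far hl hcon)
      obtain ⟨h3, h4⟩ := abs_lt.1 h2
      exact ⟨by linarith [h.1], by linarith [h.2]⟩
    rw [h1, integral_sub_right_eq_self (fun u => wR l u), wR_integral hl]
    rfl
  · apply intervalIntegral.integral_nonneg (by linarith)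
    intro x _
    exact wR_nonneg hl _

/-- the local estimate -/
theorem local_R {l : ℝ} (hl : Real.log 2 ≤ l) (I : Finset ℕ) (y : ℕ → ℝ) (Y0 M P X : ℝ)
    (hM : 0 < M)
    (h1 : ∑ n ∈ I, ∑ m ∈ I, bl (Cut (gR l) 2) (y n - y m) ≤ P)
    (h2 : ∑ n ∈ I, (kI I y 2 n : ℝ) + 8 * ∑ n ∈ I, (kI I y 1 n : ℝ) ≤ X) :
    ∫ x in Y0..(Y0 + M), (FR l I y x - mR l) ^ 2 ≤ P + 16 / l ^ 2 * X + mR l ^ 2 * M -
      2 * mR l ^ 2 *
        ((I.filter (fun n => Y0 + Real.exp l ≤ y n ∧ y n ≤ Y0 + M - Real.exp l)).card : ℝ) := by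
  have hl2 : 0 < Real.log 2 := Real.log_pos (by norm_num)
  have hl0 : 0 < l := by linarith
  obtain ⟨i1, h3⟩ := FR_sq hl0 I y
  have hc := FR_cont l I y
  have h4 := exp_pairs I y
  have h5 := FR_mean hl0 I y Y0 M hM.le
  have hpi := Real.pi_lt_four
  have hpi0 := Real.pi_pos
  set EX := ∑ n ∈ I, ∑ m ∈ I, Real.exp (-(2 * Real.pi) * |y n - y m|) with hEX
  have hEX0 : 0 ≤ EX := Finset.sum_nonneg fun _ _ => Finset.sum_nonneg fun _ _ =>
    (Real.exp_pos _).le
  have h6 : 4 / l ^ 2 * (Real.pi * EX) ≤ 16 / l ^ 2 * X := by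
    have a1 : Real.pi * EX ≤ 4 * X := by nlinarith
    calc 4 / l ^ 2 * (Real.pi * EX) ≤ 4 / l ^ 2 * (4 * X) :=
          mul_le_mul_of_nonneg_left a1 (by positivity)
      _ = 16 / l ^ 2 * X := by ring
  have e1 : ∫ x in Y0..(Y0 + M), (FR l I y x - mR l) ^ 2 =
      (∫ x in Y0..(Y0 + M), FR l I y x ^ 2) - 2 * mR l * (∫ x in Y0..(Y0 + M), FR l I y x) +
        mR l ^ 2 * M := by
    have a1 : ∀ x, (FR l I y x - mR l) ^ 2 =
        FR l I y x ^ 2 - 2 * mR l * FR l I y x + mR l ^ 2 := fun x => by ring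
    simp_rw [a1]
    rw [intervalIntegral.integral_add, intervalIntegral.integral_sub,
      intervalIntegral.integral_const_mul, intervalIntegral.integral_const]
    · rw [smul_eq_mul]; ring
    · exact (hc.pow 2).intervalIntegrable _ _
    · exact (hc.const_mul _).intervalIntegrable _ _
    · exact ((hc.pow 2).sub (hc.const_mul _)).intervalIntegrable _ _
    · simp
  have h7 : ∫ x in Y0..(Y0 + M), FR l I y x ^ 2 ≤ ∫ x, FR l I y x ^ 2 := by
    rw [intervalIntegral.integral_of_le (by linarith)]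
    exact setIntegral_le_integral i1 (Eventually.of_forall fun x => sq_nonneg _)
  have h8 := mul_le_mul_of_nonneg_left h5 (by have := mR_nonneg hl0; positivity : 0 ≤ 2 * mR l)
  rw [e1]
  have e2 : 2 * mR l * (mR l * ((I.filter (fun n => Y0 + Real.exp l ≤ y n ∧
      y n ≤ Y0 + M - Real.exp l)).card : ℝ)) = 2 * mR l ^ 2 *
        ((I.filter (fun n => Y0 + Real.exp l ≤ y n ∧ y n ≤ Y0 + M - Real.exp l)).card : ℝ) := by
    ring
  linarith

end Pool.Agent.Q276.UR
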