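import Pool.Agent.Q276.LR.C1

/-! Sums over all zeros (on or off the line) as sums over the indices of the ordinates. -/

set_option autoImplicit false

open Filter Topology Set MeasureTheory

namespace Pool.Agent.Q276.UR

open SG (ord NZ zmult ZS)
open H370 (Zf mult NN)

/-- two finite families of numbers with the same counting function -/
lemma fin_conv {ι κ : Type*} (S : Finset ι) (w : ι → ℕ) (v : ι → ℝ) (K : Finset κ) (o : κ → ℝ)
    (h : ∀ x : ℝ, ∑ s ∈ S.filter (fun s => v s ≤ x), w s = (K.filter (fun n => o n ≤ x)).card)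
    (f : ℝ → ℝ) : ∑ s ∈ S, (w s : ℝ) * f (v s) = ∑ n ∈ K, f (o n) := by
  classical
  set V : Finset ℝ := S.image v ∪ K.image o with hV
  have hvV : ∀ s ∈ S, v s ∈ V := fun s hs =>
    Finset.mem_union_left _ (Finset.mem_image_of_mem v hs)
  have hoV : ∀ n ∈ K, o n ∈ V := fun n hn =>
    Finset.mem_union_right _ (Finset.mem_image_of_mem o hn)
  have key : ∀ u : ℝ, ∑ s ∈ S.filter (fun s => v s = u), w s = (K.filter (fun n => o n = u)).card := by
    intro u
    obtain ⟨x, hxu, hx⟩ : ∃ x : ℝ, x < u ∧ ∀ z ∈ V, z < u → z ≤ x := by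
      by_cases hne : (V.filter (fun z => z < u)).Nonempty
      · refine ⟨(V.filter (fun z => z < u)).max' hne, ?_, ?_⟩
        · have := Finset.max'_mem _ hne
          rw [Finset.mem_filter] at this
          exact this.2
        · intro z hz hzu
          exact Finset.le_max' _ _ (Finset.mem_filter.2 ⟨hz, hzu⟩)
      · refine ⟨u - 1, by linarith, fun z hz hzu => ?_⟩
        exact absurd ⟨z, Finset.mem_filter.2 ⟨hz, hzu⟩⟩ hne
    have e1 : S.filter (fun s => v s ≤ u) = S.filter (fun s => v s ≤ x) ∪ S.filter (fun s => v s = u) := by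
      ext s
      simp only [Finset.mem_filter, Finset.mem_union]
      constructor
      · rintro ⟨h1, h2⟩
        rcases h2.lt_or_eq with h3 | h3
        · exact Or.inl ⟨h1, hx _ (hvV s h1) h3⟩
        · exact Or.inr ⟨h1, h3⟩
      · rintro (⟨h1, h2⟩ | ⟨h1, h2⟩)
        · exact ⟨h1, h2.trans hxu.le⟩
        · exact ⟨h1, h2.le⟩
    have e2 : K.filter (fun n => o n ≤ u) = K.filter (fun n => o n ≤ x) ∪ K.filter (fun n => o n = u) := by
      ext s
      simp only [Finset.mem_filter, Finset.mem_union]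
      constructor
      · rintro ⟨h1, h2⟩
        rcases h2.lt_or_eq with h3 | h3
        · exact Or.inl ⟨h1, hx _ (hoV s h1) h3⟩
        · exact Or.inr ⟨h1, h3⟩
      · rintro (⟨h1, h2⟩ | ⟨h1, h2⟩)
        · exact ⟨h1, h2.trans hxu.le⟩
        · exact ⟨h1, h2.le⟩
    have d1 : Disjoint (S.filter (fun s => v s ≤ x)) (S.filter (fun s => v s = u)) := by
      rw [Finset.disjoint_left]
      intro s hs hs'
      rw [Finset.mem_filter] at hs hs'
      linarith [hs.2, hs'.2]
    have d2 : Disjoint (K.filter (fun n => o n ≤ x)) (K.filter (fun n => o n = u)) := by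
      rw [Finset.disjoint_left]
      intro s hs hs'
      rw [Finset.mem_filter] at hs hs'
      linarith [hs.2, hs'.2]
    have h1 := h u
    rw [e1, e2, Finset.sum_union d1, Finset.card_union_of_disjoint d2, h x] at h1
    omega
  have l1 : ∑ s ∈ S, (w s : ℝ) * f (v s) = ∑ u ∈ V, ((∑ s ∈ S.filter (fun s => v s = u), w s : ℕ) : ℝ) * f u := by
    rw [← Finset.sum_fiberwise_of_maps_to hvV]
    refine Finset.sum_congr rfl fun u _ => ?_
    rw [Nat.cast_sum, Finset.sum_mul]
    refine Finset.sum_congr rfl fun s hs => ?_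
    rw [Finset.mem_filter] at hs
    rw [hs.2]
  have l2 : ∑ n ∈ K, f (o n) = ∑ u ∈ V, ((K.filter (fun n => o n = u)).card : ℝ) * f u := by
    rw [← Finset.sum_fiberwise_of_maps_to hoV]
    refine Finset.sum_congr rfl fun u _ => ?_
    rw [Finset.card_eq_sum_ones, Nat.cast_sum, Finset.sum_mul]
    refine Finset.sum_congr rfl fun s hs => ?_
    rw [Finset.mem_filter] at hs
    rw [hs.2]
    simp
  rw [l1, l2]
  exact Finset.sum_congr rfl fun u _ => by rw [key u]

theorem sum_conv {A B : ℝ} (hA : 1 ≤ A) (hAB : A ≤ B) (f : ℝ → ℝ) :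
    ∑ s ∈ Zf riemannZeta A B, (mult riemannZeta s : ℝ) * f s.im =
      ∑ n ∈ Finset.Ioc (NZ A) (NZ B), f (ord n) := by
  classical
  apply fin_conv
  intro x
  have hmem : ∀ {C D : ℝ} (_ : 1 ≤ C) (s : ℂ), s ∈ Zf riemannZeta C D ↔ s ∈ H370.zset riemannZeta C D :=
    fun hC s => H370.mem_Zf H370.good_zeta hC
  rcases lt_or_ge x A with hx | hx
  · have e1 : (Zf riemannZeta A B).filter (fun s => s.im ≤ x) = ∅ := by
      rw [Finset.filter_eq_empty_iff]
      intro s hs
      rw [hmem hA] at hs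
      obtain ⟨s1, s2, s3, s4, s5⟩ := hs
      push Not
      linarith
    have e2 : (Finset.Ioc (NZ A) (NZ B)).filter (fun n => ord n ≤ x) = ∅ := by
      rw [Finset.filter_eq_empty_iff]
      intro n hn hcon
      rw [Finset.mem_Ioc] at hn
      have h1 := (SG.ord_le_iff (by omega : 1 ≤ n) A).mp (by linarith)
      omega
    rw [e1, e2]
    simp
  · set x' := min x B with hx'
    have hAx' : A ≤ x' := le_min hx hAB
    have e1 : (Zf riemannZeta A B).filter (fun s => s.im ≤ x) = Zf riemannZeta A x' := by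
      ext s
      rw [Finset.mem_filter, hmem hA, hmem hA]
      unfold H370.zset
      simp only [Set.mem_setOf_eq]
      constructor
      · rintro ⟨⟨s1, s2, s3, s4, s5⟩, s6⟩
        exact ⟨s1, s2, s3, le_min s6 s4, s5⟩
      · rintro ⟨s1, s2, s3, s4, s5⟩
        exact ⟨⟨s1, s2, s3, s4.trans (min_le_right _ _), s5⟩, s4.trans (min_le_left _ _)⟩
    have e2 : (Finset.Ioc (NZ A) (NZ B)).filter (fun n => ord n ≤ x) = Finset.Ioc (NZ A) (NZ x') := by
      ext n
      rw [Finset.mem_filter, Finset.mem_Ioc, Finset.mem_Ioc]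
      constructor
      · rintro ⟨⟨n1, n2⟩, n3⟩
        have h1 : ord n ≤ B := (SG.ord_le_iff (by omega : 1 ≤ n) B).mpr n2
        exact ⟨n1, (SG.ord_le_iff (by omega : 1 ≤ n) x').mp (le_min n3 h1)⟩
      · rintro ⟨n1, n2⟩
        have h1 := (SG.ord_le_iff (by omega : 1 ≤ n) x').mpr n2
        exact ⟨⟨n1, (SG.ord_le_iff (by omega : 1 ≤ n) B).mp (h1.trans (min_le_right _ _))⟩,
          h1.trans (min_le_left _ _)⟩
    rw [e1, e2, Nat.card_Ioc, ← H370.NN_eq H370.good_zeta hA]
    have h3 := LR.NZ_diff hA hAx'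
    have h4 : NZ x' = NZ A + NN riemannZeta A x' := by
      have : (NZ x' : ℝ) = ((NZ A + NN riemannZeta A x' : ℕ) : ℝ) := by
        push_cast
        linarith
      exact_mod_cast this
    omega

theorem double_conv {A B : ℝ} (hA : 1 ≤ A) (hAB : A ≤ B) (f : ℝ → ℝ → ℝ) :
    ∑ s ∈ Zf riemannZeta A B, ∑ s' ∈ Zf riemannZeta A B,
      (mult riemannZeta s : ℝ) * (mult riemannZeta s' : ℝ) * f s.im s'.im =
      ∑ n ∈ Finset.Ioc (NZ A) (NZ B), ∑ n' ∈ Finset.Ioc (NZ A) (NZ B), f (ord n) (ord n') := by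
  have h1 : ∀ s ∈ Zf riemannZeta A B, ∑ s' ∈ Zf riemannZeta A B,
      (mult riemannZeta s : ℝ) * (mult riemannZeta s' : ℝ) * f s.im s'.im =
      (mult riemannZeta s : ℝ) * ∑ n' ∈ Finset.Ioc (NZ A) (NZ B), f s.im (ord n') := by
    intro s _
    rw [← sum_conv hA hAB (fun x => f s.im x), Finset.mul_sum]
    refine Finset.sum_congr rfl fun s' _ => ?_
    ring
  rw [Finset.sum_congr rfl h1]
  exact sum_conv hA hAB (fun x => ∑ n' ∈ Finset.Ioc (NZ A) (NZ B), f x (ord n'))

end Pool.Agent.Q276.UR
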