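import Mathlib

/-! Cutting off a smooth function on the Fourier side. -/

set_option autoImplicit false

open Filter Topology Set MeasureTheory

namespace Pool.Agent.Q276.UR

/-- the cut-off function -/
noncomputable def ct (a x : ℝ) : ℝ := max 0 (1 - (a * x) ^ 2) ^ 2

/-- a function cut off at `1/a` -/
noncomputable def Cut (g : ℝ → ℝ) (a x : ℝ) : ℝ := g x * ct a x

/-- the cosine transform -/
noncomputable def bl (r : ℝ → ℝ) (u : ℝ) : ℝ := ∫ α : ℝ, r α * Real.cos (2 * Real.pi * α * u)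

lemma ct_nonneg (a x : ℝ) : 0 ≤ ct a x := by unfold ct; positivity

lemma ct_le_one (a x : ℝ) : ct a x ≤ 1 := by
  unfold ct
  have h0 : (0 : ℝ) ≤ max 0 (1 - (a * x) ^ 2) := le_max_left _ _
  have h1 : max 0 (1 - (a * x) ^ 2) ≤ 1 := max_le zero_le_one (by nlinarith [sq_nonneg (a * x)])
  exact pow_le_one₀ h0 h1

lemma ct_zero (a : ℝ) : ct a 0 = 1 := by unfold ct; simp

lemma ct_out {a x : ℝ} (ha : 0 < a) (h : 1 / a ≤ |x|) : ct a x = 0 := by
  unfold ct
  have h1 : 1 ≤ |a * x| := by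
    rw [abs_mul, abs_of_pos ha]
    rw [div_le_iff₀ ha] at h
    linarith
  have h2 : 1 ≤ (a * x) ^ 2 := by
    rw [← sq_abs]
    nlinarith
  rw [max_eq_left (by linarith)]
  simp

lemma ct_in {a x : ℝ} (ha : 0 < a) (h : |x| ≤ 1 / a) : ct a x = (1 - (a * x) ^ 2) ^ 2 := by
  unfold ct
  have h1 : |a * x| ≤ 1 := by
    rw [abs_mul, abs_of_pos ha]
    rw [le_div_iff₀ ha] at h
    linarith
  have h2 : (a * x) ^ 2 ≤ 1 := by
    rw [← sq_abs]
    nlinarith [abs_nonneg (a * x)]
  rw [max_eq_right (by linarith)]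

lemma ct_cont (a : ℝ) : Continuous (ct a) := by unfold ct; fun_prop

/-- `1 - ct a x ≤ 2 (a x)²` -/
lemma one_sub_ct (a x : ℝ) : 1 - ct a x ≤ 2 * (a * x) ^ 2 := by
  unfold ct
  set t := (a * x) ^ 2 with ht
  have ht0 : 0 ≤ t := sq_nonneg _
  rcases le_total t 1 with h | h
  · rw [max_eq_right (by linarith)]
    nlinarith
  · rw [max_eq_left (by linarith)]
    nlinarith

/-- the cut-off functions decrease -/
lemma ct_anti {a b : ℝ} (ha : 0 ≤ a) (hab : a ≤ b) (x : ℝ) : ct b x ≤ ct a x := by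
  unfold ct
  apply pow_le_pow_left₀ (le_max_left _ _)
  apply max_le_max le_rfl
  have : (a * x) ^ 2 ≤ (b * x) ^ 2 := by
    rw [mul_pow, mul_pow]
    exact mul_le_mul_of_nonneg_right (pow_le_pow_left₀ ha hab 2) (sq_nonneg x)
  linarith

lemma Cut_out {g : ℝ → ℝ} {a x : ℝ} (ha : 0 < a) (h : 1 / a ≤ |x|) : Cut g a x = 0 := by
  unfold Cut; rw [ct_out ha h, mul_zero]

/-- the smooth version -/
noncomputable def Sm (g : ℝ → ℝ) (a x : ℝ) : ℝ := g x * (1 - (a * x) ^ 2) ^ 2

lemma Cut_in {g : ℝ → ℝ} {a x : ℝ} (ha : 0 < a) (h : |x| ≤ 1 / a) : Cut g a x = Sm g a x := by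
  unfold Cut Sm; rw [ct_in ha h]

lemma Sm_contDiff {g : ℝ → ℝ} (hg : ContDiff ℝ 2 g) (a : ℝ) : ContDiff ℝ 2 (Sm g a) := by
  unfold Sm
  exact hg.mul ((contDiff_const.sub ((contDiff_const.mul contDiff_id).pow 2)).pow 2)

lemma Sm_end {g : ℝ → ℝ} {a x : ℝ} (h : (a * x) ^ 2 = 1) : Sm g a x = 0 := by
  unfold Sm; rw [h]; norm_num

lemma Sm_deriv_end {g : ℝ → ℝ} (hg : ContDiff ℝ 2 g) {a x : ℝ} (h : (a * x) ^ 2 = 1) :
    deriv (Sm g a) x = 0 := by
  have hgd : HasDerivAt g (deriv g x) x :=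
    ((hg.differentiable (by norm_num)) x).hasDerivAt
  have h1 : HasDerivAt (fun x : ℝ => 1 - (a * x) ^ 2) (-(2 * (a * x) * a)) x := by
    have h2 : HasDerivAt (fun x : ℝ => a * x) a x := by
      simpa using (hasDerivAt_id x).const_mul a
    have h3 := (h2.pow 2).const_sub 1
    refine h3.congr_deriv ?_
    norm_num
  have h2 := hgd.mul (h1.pow 2)
  have h3 : deriv (Sm g a) x = deriv g x * (1 - (a * x) ^ 2) ^ 2 +
      g x * (((2 : ℕ) : ℝ) * (1 - (a * x) ^ 2) ^ (2 - 1) * -(2 * (a * x) * a)) := h2.deriv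
  rw [h3, h]
  norm_num

lemma Cut_lip {g : ℝ → ℝ} (hg : ContDiff ℝ 2 g) {a : ℝ} (ha : 0 < a) :
    ∃ K : ℝ, ∀ x y, |Cut g a x - Cut g a y| ≤ K * |x - y| := by
  have hc : ContDiff ℝ 1 (Sm g a) := (Sm_contDiff hg a).of_le (by norm_num)
  have hd : Differentiable ℝ (Sm g a) := hc.differentiable (by norm_num)
  have hdc : Continuous (deriv (Sm g a)) := hc.continuous_deriv (by norm_num)
  have ha1 : 0 < 1 / a := by positivity
  obtain ⟨K, hK⟩ := (isCompact_Icc (a := (-(1 / a) : ℝ)) (b := 1 / a)).exists_bound_of_continuousOn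
    hdc.continuousOn
  set c : ℝ → ℝ := fun x => max (-(1 / a)) (min (1 / a) x) with hcdef
  have hc1 : ∀ x, c x ∈ Icc (-(1 / a) : ℝ) (1 / a) := fun x =>
    ⟨le_max_left _ _, max_le (by linarith) (min_le_left _ _)⟩
  have hend1 : (a * (1 / a)) ^ 2 = 1 := by
    rw [mul_one_div_cancel ha.ne']; norm_num
  have hend2 : (a * (-(1 / a))) ^ 2 = 1 := by
    rw [mul_neg, mul_one_div_cancel ha.ne']; norm_num
  have hc2 : ∀ x, Cut g a x = Sm g a (c x) := by
    intro x
    rcases le_total |x| (1 / a) with h | h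
    · rw [Cut_in ha h]
      obtain ⟨h1, h2⟩ := abs_le.1 h
      congr 1
      simp only [hcdef]
      rw [min_eq_right h2, max_eq_right h1]
    · rw [Cut_out ha h]
      symm
      apply Sm_end
      simp only [hcdef]
      rcases le_abs.1 h with h1 | h1
      · rw [min_eq_left h1, max_eq_right (by linarith)]
        exact hend1
      · rw [min_eq_right (by linarith), max_eq_left (by linarith)]
        exact hend2
  have hc3 : ∀ x y, |c x - c y| ≤ |x - y| := by
    intro x y
    simp only [hcdef]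
    have h1 := abs_max_sub_max_le_abs (min (1 / a) x) (min (1 / a) y) (-(1 / a) : ℝ)
    have h2 := abs_min_sub_min_le_max (1 / a) x (1 / a) y
    rw [max_comm (-(1/a)) , max_comm (-(1/a))]
    refine h1.trans (h2.trans ?_)
    simp
  refine ⟨K, fun x y => ?_⟩
  rw [hc2, hc2]
  have h1 := Convex.norm_image_sub_le_of_norm_deriv_le (f := Sm g a) (C := K)
    (fun z _ => hd.differentiableAt) (fun z hz => hK z hz) (convex_Icc _ _) (hc1 y) (hc1 x)
  rw [Real.norm_eq_abs, Real.norm_eq_abs] at h1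
  have hK0 : 0 ≤ K := (norm_nonneg _).trans (hK 0 ⟨by linarith, ha1.le⟩)
  exact h1.trans (mul_le_mul_of_nonneg_left (hc3 x y) hK0)

lemma Cut_cont {g : ℝ → ℝ} (hg : Continuous g) (a : ℝ) : Continuous (Cut g a) := by
  unfold Cut
  exact hg.mul (ct_cont a)

lemma bl_Cut {g : ℝ → ℝ} {a : ℝ} (ha : 0 < a) (x : ℝ) : bl (Cut g a) x =
    ∫ α in (-(1 / a) : ℝ)..(1 / a), Sm g a α * Real.cos (2 * Real.pi * α * x) := by
  unfold bl
  have ha1 : 0 < 1 / a := by positivity
  rw [intervalIntegral.integral_of_le (by linarith), ← integral_Icc_eq_integral_Ioc]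
  rw [← setIntegral_eq_integral_of_forall_compl_eq_zero (s := Icc (-(1 / a)) (1 / a))]
  · apply setIntegral_congr_fun measurableSet_Icc
    intro α hα
    simp only
    rw [Cut_in ha (abs_le.2 hα)]
  · intro α hα
    rw [Cut_out ha, zero_mul]
    by_contra h
    push Not at h
    exact hα (abs_le.1 h.le)

/-- decay of the transform -/
lemma bl_decay {g : ℝ → ℝ} (hg : ContDiff ℝ 2 g) {a : ℝ} (ha : 0 < a) :
    ∃ C : ℝ, ∀ x, |bl (Cut g a) x| * (1 + x ^ 2) ≤ C := by
  have ha1 : 0 < 1 / a := by positivity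
  have hc := Sm_contDiff hg a
  have hd : Differentiable ℝ (Sm g a) := hc.differentiable (by norm_num)
  have hc1 : ContDiff ℝ 1 (deriv (Sm g a)) := by
    have : ContDiff ℝ (1 + 1) (Sm g a) := by norm_num; exact hc
    exact (contDiff_succ_iff_deriv.1 this).2.2
  have hd1 : Differentiable ℝ (deriv (Sm g a)) := hc1.differentiable (by norm_num)
  have hc2 : Continuous (deriv (deriv (Sm g a))) := hc1.continuous_deriv (by norm_num)
  have hend1 : (a * (1 / a)) ^ 2 = 1 := by
    rw [mul_one_div_cancel ha.ne']; norm_num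
  have hend2 : (a * (-(1 / a))) ^ 2 = 1 := by
    rw [mul_neg, mul_one_div_cancel ha.ne']; norm_num
  set C := ∫ α in (-(1 / a) : ℝ)..(1 / a), |deriv (deriv (Sm g a)) α| with hC
  set C0 := ∫ α in (-(1 / a) : ℝ)..(1 / a), |Sm g a α| with hC0
  refine ⟨C0 + C, fun x => ?_⟩
  rw [bl_Cut ha]
  set z : ℝ := 2 * Real.pi * x with hz
  have hcc : Continuous fun α : ℝ => Real.cos (2 * Real.pi * α * x) := by fun_prop
  have hcs : Continuous fun α : ℝ => Real.sin (2 * Real.pi * α * x) := by fun_prop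
  have hds : ∀ α : ℝ, HasDerivAt (fun α => Real.sin (2 * Real.pi * α * x))
      (Real.cos (2 * Real.pi * α * x) * z) α := fun α => by
    have h : HasDerivAt (fun α : ℝ => 2 * Real.pi * α * x) z α := by
      have := ((hasDerivAt_id α).const_mul (2 * Real.pi)).mul_const x
      refine this.congr_deriv ?_
      rw [hz]; ring
    exact h.sin
  have hdc : ∀ α : ℝ, HasDerivAt (fun α => Real.cos (2 * Real.pi * α * x))
      (-Real.sin (2 * Real.pi * α * x) * z) α := fun α => by
    have h : HasDerivAt (fun α : ℝ => 2 * Real.pi * α * x) z α := by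
      have := ((hasDerivAt_id α).const_mul (2 * Real.pi)).mul_const x
      refine this.congr_deriv ?_
      rw [hz]; ring
    exact h.cos
  have hle : (-(1 / a) : ℝ) ≤ 1 / a := by linarith
  have key : z ^ 2 * (∫ α in (-(1 / a) : ℝ)..(1 / a), Sm g a α * Real.cos (2 * Real.pi * α * x)) =
      -∫ α in (-(1 / a) : ℝ)..(1 / a),
        deriv (deriv (Sm g a)) α * Real.cos (2 * Real.pi * α * x) := by
    have hdd : ∀ α ∈ Set.uIcc (-(1 / a) : ℝ) (1 / a), HasDerivAt
        (fun α => z * (Sm g a α * Real.sin (2 * Real.pi * α * x)) +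
          deriv (Sm g a) α * Real.cos (2 * Real.pi * α * x))
        (z ^ 2 * (Sm g a α * Real.cos (2 * Real.pi * α * x)) +
          deriv (deriv (Sm g a)) α * Real.cos (2 * Real.pi * α * x)) α := fun α _ => by
      have := (((hd α).hasDerivAt.mul (hds α)).const_mul z).add ((hd1 α).hasDerivAt.mul (hdc α))
      refine this.congr_deriv ?_
      ring
    have i1 : IntervalIntegrable (fun α => z ^ 2 * (Sm g a α * Real.cos (2 * Real.pi * α * x)))
        volume (-(1 / a) : ℝ) (1 / a) :=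
      (continuous_const.mul (hc.continuous.mul hcc)).intervalIntegrable _ _
    have i2 : IntervalIntegrable (fun α => deriv (deriv (Sm g a)) α *
        Real.cos (2 * Real.pi * α * x)) volume (-(1 / a) : ℝ) (1 / a) :=
      (hc2.mul hcc).intervalIntegrable _ _
    have h4 := intervalIntegral.integral_eq_sub_of_hasDerivAt hdd (i1.add i2)
    rw [intervalIntegral.integral_add i1 i2, intervalIntegral.integral_const_mul,
      Sm_end hend1, Sm_end hend2, Sm_deriv_end hg hend1, Sm_deriv_end hg hend2] at h4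
    linarith
  have h5 : |∫ α in (-(1 / a) : ℝ)..(1 / a),
      deriv (deriv (Sm g a)) α * Real.cos (2 * Real.pi * α * x)| ≤ C := by
    refine (intervalIntegral.abs_integral_le_integral_abs hle).trans ?_
    apply intervalIntegral.integral_mono_on hle ((hc2.mul hcc).abs.intervalIntegrable _ _)
      (hc2.abs.intervalIntegrable _ _)
    intro α _
    rw [Pi.mul_apply, abs_mul]
    exact mul_le_of_le_one_right (abs_nonneg _) (Real.abs_cos_le_one _)
  have h5' : |∫ α in (-(1 / a) : ℝ)..(1 / a),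
      Sm g a α * Real.cos (2 * Real.pi * α * x)| ≤ C0 := by
    refine (intervalIntegral.abs_integral_le_integral_abs hle).trans ?_
    apply intervalIntegral.integral_mono_on hle ((hc.continuous.mul hcc).abs.intervalIntegrable _ _)
      (hc.continuous.abs.intervalIntegrable _ _)
    intro α _
    rw [Pi.mul_apply, abs_mul]
    exact mul_le_of_le_one_right (abs_nonneg _) (Real.abs_cos_le_one _)
  have h6 := congrArg abs key
  rw [abs_neg, abs_mul, abs_of_nonneg (sq_nonneg z)] at h6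
  have h7 : x ^ 2 ≤ z ^ 2 := by
    rw [hz, mul_pow]
    have : 1 ≤ (2 * Real.pi) ^ 2 := by nlinarith [Real.pi_gt_three]
    nlinarith [sq_nonneg x]
  rw [mul_add, mul_one]
  apply add_le_add h5'
  calc |∫ α in (-(1 / a) : ℝ)..(1 / a), Sm g a α * Real.cos (2 * Real.pi * α * x)| * x ^ 2 ≤
      |∫ α in (-(1 / a) : ℝ)..(1 / a), Sm g a α * Real.cos (2 * Real.pi * α * x)| * z ^ 2 :=
        mul_le_mul_of_nonneg_left h7 (abs_nonneg _)
    _ ≤ C := by rw [mul_comm, h6]; exact h5

end Pool.Agent.Q276.UR
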