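import Pool.Agent.Q276.UR.A1
import Pool.Agent.Q276.UR.A2
import Pool.Agent.Y750.OM.Main5

/-! Pair sums of the ordinates: dyadic decomposition of the test function. -/

set_option autoImplicit false

open Filter Topology Set MeasureTheory

namespace Pool.Agent.Q276.UR

open SG (ord NZ zmult ZS)
open H370 (Zf mult NN)
open H177.Lat (yy)
open Pool.Agent.Y750.OM (PO rh pair_ord NO NO_le NO_nonneg)

/-- the pair sum over the ordinates in `(T, 2T]` -/
noncomputable def PSm (r : ℝ → ℝ) (T : ℝ) : ℝ :=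
  ∑ n ∈ Finset.Ioc (NZ T) (NZ (2 * T)), ∑ m ∈ Finset.Ioc (NZ T) (NZ (2 * T)),
    bl r (yy T n - yy T m)

lemma rh_eq (r : ℝ → ℝ) (x : ℝ) : rh r x = bl r (x / (2 * Real.pi)) := by
  unfold rh bl
  congr 1
  funext α
  congr 2
  field_simp

lemma PSm_eq {T : ℝ} (hT : 1 ≤ T) (r : ℝ → ℝ) : PO (rh r) T (2 * T) (Real.log T) = PSm r T := by
  unfold PO PSm
  rw [double_conv hT (by linarith) (fun x x' => rh r ((x - x') * Real.log T))]
  refine Finset.sum_congr rfl fun n _ => Finset.sum_congr rfl fun m _ => ?_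
  rw [rh_eq]
  congr 1
  unfold yy
  ring

lemma rh_dec {r : ℝ → ℝ} {C : ℝ} (h : ∀ u, |bl r u| * (1 + u ^ 2) ≤ C) (x : ℝ) :
    |rh r x| * (1 + x ^ 2) ≤ (2 * Real.pi) ^ 2 * C := by
  rw [rh_eq]
  have h1 := h (x / (2 * Real.pi))
  have hpi := Real.pi_gt_three
  have h2 : 1 + x ^ 2 ≤ (2 * Real.pi) ^ 2 * (1 + (x / (2 * Real.pi)) ^ 2) := by
    rw [mul_add, div_pow, mul_div_cancel₀ _ (by positivity)]
    nlinarith
  calc |bl r (x / (2 * Real.pi))| * (1 + x ^ 2) ≤
      |bl r (x / (2 * Real.pi))| * ((2 * Real.pi) ^ 2 * (1 + (x / (2 * Real.pi)) ^ 2)) :=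
        mul_le_mul_of_nonneg_left h2 (abs_nonneg _)
    _ = (2 * Real.pi) ^ 2 * (|bl r (x / (2 * Real.pi))| * (1 + (x / (2 * Real.pi)) ^ 2)) := by ring
    _ ≤ _ := mul_le_mul_of_nonneg_left h1 (by positivity)

/-- the unconditional theorem in the form used below -/
theorem pair_basic : ∃ C : ℝ, 0 < C ∧ ∀ δ : ℝ, 0 < δ → δ ≤ 1 / 2 → ∀ r : ℝ → ℝ,
    (∃ K : ℝ, ∀ x y, |r x - r y| ≤ K * |x - y|) → (∀ α, δ < |α| → r α = 0) →
    (∃ A : ℝ, ∀ u, |bl r u| * (1 + u ^ 2) ≤ A) → ∀ R : ℝ, (∀ α, |r α| ≤ R) → ∀ ε : ℝ, 0 < ε →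
    ∃ T0 : ℝ, 10 ≤ T0 ∧ ∀ T : ℝ, T0 ≤ T →
      |PSm r T - NN riemannZeta T (2 * T) * (r 0 + ∫ α : ℝ, |α| * r α)| ≤
        (C * R * δ ^ 3 + ε) * NN riemannZeta T (2 * T) := by
  obtain ⟨C, θ, hC, hθ, h⟩ := pair_ord (show (0 : ℝ) < 1 / 2 by norm_num)
    (show (1 / 2 : ℝ) < 2 / 3 by norm_num)
  refine ⟨C, hC, fun δ hδ hδ2 r hK hs hA R hR ε hε => ?_⟩
  obtain ⟨K, hK⟩ := hK
  obtain ⟨A, hA⟩ := hA
  obtain ⟨T0, hT0, h⟩ := h δ hδ hδ2 r K hK hs _ (rh_dec hA) R hR ε hε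
  refine ⟨T0, hT0, fun T hT => ?_⟩
  have hT1 : 1 ≤ T := by linarith
  have h1 := h T hT
  rw [PSm_eq hT1] at h1
  refine h1.trans ?_
  apply mul_le_mul_of_nonneg_right _ (Nat.cast_nonneg _)
  have h2 : (NO T (2 * T) / NN riemannZeta T (2 * T)) ^ θ ≤ 1 := by
    apply Real.rpow_le_one
    · exact div_nonneg (NO_nonneg _ _) (Nat.cast_nonneg _)
    · apply div_le_one_of_le₀ (NO_le hT1) (Nat.cast_nonneg _)
    · exact hθ.le
  have hR0 : 0 ≤ R := (abs_nonneg _).trans (hR 0)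
  have h3 : 0 ≤ C * R * δ ^ 3 := by positivity
  nlinarith

lemma bl_sub {r1 r2 r : ℝ → ℝ} (h1 : Continuous r1) (h2 : Continuous r2) {M : ℝ}
    (s1 : ∀ α, M < |α| → r1 α = 0) (s2 : ∀ α, M < |α| → r2 α = 0) (hr : ∀ α, r α = r1 α - r2 α)
    (u : ℝ) : bl r u = bl r1 u - bl r2 u := by
  unfold bl
  have key : ∀ f : ℝ → ℝ, Continuous f → (∀ α, M < |α| → f α = 0) →
      Integrable fun α : ℝ => f α * Real.cos (2 * Real.pi * α * u) := by
    intro f hf hs
    apply Continuous.integrable_of_hasCompactSupport (by fun_prop)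
    apply HasCompactSupport.intro (isCompact_Icc (a := -M) (b := M))
    intro x hx
    rw [hs x, zero_mul]
    by_contra hcon
    push Not at hcon
    exact hx (abs_le.1 hcon)
  rw [← integral_sub (key r1 h1 s1) (key r2 h2 s2)]
  congr 1
  funext α
  rw [hr]
  ring

lemma PSm_sub {r1 r2 r : ℝ → ℝ} (h : ∀ u, bl r u = bl r1 u - bl r2 u) (T : ℝ) :
    PSm r T = PSm r1 T - PSm r2 T := by
  unfold PSm
  rw [← Finset.sum_sub_distrib]
  refine Finset.sum_congr rfl fun n _ => ?_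
  rw [← Finset.sum_sub_distrib]
  exact Finset.sum_congr rfl fun m _ => h _

lemma int_abs_cut {g : ℝ → ℝ} (hg : Continuous g) {a : ℝ} (ha : 0 < a) :
    Integrable fun α : ℝ => |α| * Cut g a α := by
  apply Continuous.integrable_of_hasCompactSupport
  · have := Cut_cont hg a
    fun_prop
  apply HasCompactSupport.intro (isCompact_Icc (a := -(1 / a)) (b := 1 / a))
  intro x hx
  rw [Cut_out ha, mul_zero]
  by_contra hcon
  push Not at hcon
  exact hx (abs_le.1 hcon.le)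

/-- one step of the decomposition -/
lemma step_bound {g : ℝ → ℝ} (h0 : ∀ x, 0 ≤ g x) {A : ℝ} (hA : ∀ x, x ^ 2 * g x ≤ A) {a : ℝ}
    (ha : 0 < a) (x : ℝ) : |Cut g a x - Cut g (2 * a) x| ≤ 8 * a ^ 2 * A := by
  unfold Cut
  rw [← mul_sub]
  have h1 := ct_anti ha.le (by linarith : a ≤ 2 * a) x
  have h2 := one_sub_ct (2 * a) x
  have h3 := ct_le_one a x
  rw [abs_of_nonneg (mul_nonneg (h0 x) (by linarith))]
  have h4 : ct a x - ct (2 * a) x ≤ 8 * a ^ 2 * x ^ 2 := by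
    have : 2 * (2 * a * x) ^ 2 = 8 * a ^ 2 * x ^ 2 := by ring
    linarith
  calc g x * (ct a x - ct (2 * a) x) ≤ g x * (8 * a ^ 2 * x ^ 2) :=
        mul_le_mul_of_nonneg_left h4 (h0 x)
    _ = 8 * a ^ 2 * (x ^ 2 * g x) := by ring
    _ ≤ 8 * a ^ 2 * A := mul_le_mul_of_nonneg_left (hA x) (by positivity)

/-- **pair sums of the ordinates against a function with a singularity of order `1/x²`** -/
theorem pair_upper : ∃ C : ℝ, 0 < C ∧ ∀ g : ℝ → ℝ, ContDiff ℝ 2 g → (∀ x, 0 ≤ g x) →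
    ∀ A : ℝ, (∀ x, x ^ 2 * g x ≤ A) → ∀ ε : ℝ, 0 < ε → ∃ T0 : ℝ, 10 ≤ T0 ∧ ∀ T : ℝ, T0 ≤ T →
      |PSm (Cut g 2) T - NN riemannZeta T (2 * T) * (g 0 + ∫ α : ℝ, |α| * Cut g 2 α)| ≤
        (C * A + ε) * NN riemannZeta T (2 * T) := by
  obtain ⟨C, hC, hb⟩ := pair_basic
  refine ⟨8 * C, by positivity, fun g hg h0 A hA ε hε => ?_⟩
  have hgc : Continuous g := hg.continuous
  have hA0 : 0 ≤ A := by
    have := hA 0
    simpa using this
  have hap : ∀ k : ℕ, (0 : ℝ) < 2 ^ (k + 1) := fun k => by positivity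
  -- the induction
  have key : ∀ k : ℕ, ∀ ε : ℝ, 0 < ε → ∃ T0 : ℝ, 10 ≤ T0 ∧ ∀ T : ℝ, T0 ≤ T →
      |(PSm (Cut g 2) T - PSm (Cut g (2 ^ (k + 1))) T) - NN riemannZeta T (2 * T) *
        ((∫ α : ℝ, |α| * Cut g 2 α) - ∫ α : ℝ, |α| * Cut g (2 ^ (k + 1)) α)| ≤
        (8 * C * A * (1 - (1 / 2) ^ k) + ε) * NN riemannZeta T (2 * T) := by
    intro k
    induction k with
    | zero =>
      intro ε hε
      refine ⟨10, le_rfl, fun T hT => ?_⟩
      have e : (2 : ℝ) ^ (0 + 1) = 2 := by norm_num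
      rw [e, sub_self, sub_self, mul_zero, sub_zero, abs_zero]
      have : (0 : ℝ) ≤ NN riemannZeta T (2 * T) := Nat.cast_nonneg _
      have e2 : (8 * C * A * (1 - (1 / 2) ^ 0) + ε) = ε := by norm_num
      rw [e2]
      positivity
    | succ k ih =>
      intro ε hε
      obtain ⟨T1, hT1, h1⟩ := ih (ε / 2) (by positivity)
      set a : ℝ := 2 ^ (k + 1) with ha
      have ha0 : 0 < a := hap k
      have ha2 : (2 : ℝ) ^ (k + 1 + 1) = 2 * a := by rw [ha]; ring
      have ha1 : 2 ≤ a := by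
        rw [ha]
        calc (2 : ℝ) = 2 ^ 1 := by norm_num
          _ ≤ 2 ^ (k + 1) := pow_le_pow_right₀ (by norm_num) (by omega)
      set r : ℝ → ℝ := fun x => Cut g a x - Cut g (2 * a) x with hr
      have hs1 : ∀ α, 1 / a < |α| → Cut g a α = 0 := fun α h => Cut_out ha0 h.le
      have hs2 : ∀ α, 1 / a < |α| → Cut g (2 * a) α = 0 := fun α h => by
        apply Cut_out (by positivity)
        have : 1 / (2 * a) ≤ 1 / a := one_div_le_one_div_of_le ha0 (by linarith)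
        linarith
      have hbl : ∀ u, bl r u = bl (Cut g a) u - bl (Cut g (2 * a)) u :=
        bl_sub (Cut_cont hgc a) (Cut_cont hgc (2 * a)) hs1 hs2 (fun _ => rfl)
      obtain ⟨T2, hT2, h2⟩ := hb (1 / a) (by positivity)
        (by
          apply one_div_le_one_div_of_le (by norm_num) ha1) r
        (by
          obtain ⟨K1, hK1⟩ := Cut_lip hg ha0
          obtain ⟨K2, hK2⟩ := Cut_lip hg (by positivity : 0 < 2 * a)
          refine ⟨K1 + K2, fun x y => ?_⟩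
          have : r x - r y = (Cut g a x - Cut g a y) - (Cut g (2 * a) x - Cut g (2 * a) y) := by
            simp only [hr]; ring
          rw [this, add_mul]
          exact (abs_sub _ _).trans (add_le_add (hK1 x y) (hK2 x y)))
        (fun α h => by simp only [hr]; rw [hs1 α h, hs2 α h, sub_self])
        (by
          obtain ⟨A1, hA1⟩ := bl_decay hg ha0
          obtain ⟨A2, hA2⟩ := bl_decay hg (by positivity : 0 < 2 * a)
          refine ⟨A1 + A2, fun u => ?_⟩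
          rw [hbl]
          have h3 := abs_sub (bl (Cut g a) u) (bl (Cut g (2 * a)) u)
          have h4 : 0 ≤ 1 + u ^ 2 := by positivity
          calc |bl (Cut g a) u - bl (Cut g (2 * a)) u| * (1 + u ^ 2) ≤
              (|bl (Cut g a) u| + |bl (Cut g (2 * a)) u|) * (1 + u ^ 2) :=
                mul_le_mul_of_nonneg_right h3 h4
            _ = |bl (Cut g a) u| * (1 + u ^ 2) + |bl (Cut g (2 * a)) u| * (1 + u ^ 2) := by ring
            _ ≤ A1 + A2 := add_le_add (hA1 u) (hA2 u))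
        (8 * a ^ 2 * A) (fun x => step_bound h0 hA ha0 x) (ε / 2) (by positivity)
      refine ⟨max T1 T2, hT1.trans (le_max_left _ _), fun T hT => ?_⟩
      have g1 := h1 T ((le_max_left _ _).trans hT)
      have g2 := h2 T ((le_max_right _ _).trans hT)
      rw [ha2]
      rw [PSm_sub hbl] at g2
      have hr0 : r 0 = 0 := by
        simp only [hr]
        unfold Cut
        rw [ct_zero, ct_zero, sub_self]
      have hint : ∫ α : ℝ, |α| * r α = (∫ α : ℝ, |α| * Cut g a α) - ∫ α : ℝ, |α| * Cut g (2 * a) α := by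
        rw [← integral_sub (int_abs_cut hgc ha0) (int_abs_cut hgc (by positivity))]
        congr 1
        funext α
        simp only [hr]
        ring
      rw [hr0, zero_add, hint] at g2
      have e3 : C * (8 * a ^ 2 * A) * (1 / a) ^ 3 = 8 * C * A * (1 / a) := by
        field_simp
      have e4 : (1 : ℝ) / a = (1 / 2) ^ (k + 1) := by
        rw [ha, one_div_pow]
      rw [e3, e4] at g2
      have e5 : (PSm (Cut g 2) T - PSm (Cut g (2 * a)) T) - NN riemannZeta T (2 * T) *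
          ((∫ α : ℝ, |α| * Cut g 2 α) - ∫ α : ℝ, |α| * Cut g (2 * a) α) =
          ((PSm (Cut g 2) T - PSm (Cut g a) T) - NN riemannZeta T (2 * T) *
          ((∫ α : ℝ, |α| * Cut g 2 α) - ∫ α : ℝ, |α| * Cut g a α)) +
          ((PSm (Cut g a) T - PSm (Cut g (2 * a)) T) - NN riemannZeta T (2 * T) *
          ((∫ α : ℝ, |α| * Cut g a α) - ∫ α : ℝ, |α| * Cut g (2 * a) α)) := by ring
      rw [e5]
      refine (abs_add_le _ _).trans ((add_le_add g1 g2).trans (le_of_eq ?_))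
      rw [pow_succ]
      ring
  -- the last piece
  obtain ⟨G, hG⟩ := (isCompact_Icc (a := (-1 : ℝ)) (b := 1)).exists_bound_of_continuousOn
    hgc.continuousOn
  have hG0 : 0 ≤ G := (norm_nonneg _).trans (hG 0 (by norm_num))
  obtain ⟨k, hk⟩ : ∃ k : ℕ, C * G * (1 / 8) ^ (k + 1) ≤ ε / 4 := by
    have hlim : Tendsto (fun k : ℕ => C * G * (1 / 8 : ℝ) ^ (k + 1)) atTop (𝓝 (C * G * 0)) := by
      apply Tendsto.const_mul
      exact (tendsto_pow_atTop_nhds_zero_of_lt_one (by norm_num) (by norm_num)).comp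
        (tendsto_add_atTop_nat 1)
    rw [mul_zero] at hlim
    exact (hlim.eventually (ge_mem_nhds (by positivity))).exists
  set a : ℝ := 2 ^ (k + 1) with ha
  have ha0 : 0 < a := hap k
  have ha1 : 2 ≤ a := by
    rw [ha]
    calc (2 : ℝ) = 2 ^ 1 := by norm_num
      _ ≤ 2 ^ (k + 1) := pow_le_pow_right₀ (by norm_num) (by omega)
  have hcutG : ∀ x, |Cut g a x| ≤ G := by
    intro x
    rcases le_or_gt (1 / a) |x| with h | h
    · rw [Cut_out ha0 h, abs_zero]
      exact hG0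
    · have h1 : 1 / a ≤ 1 := by
        rw [div_le_one ha0]; linarith
      have h2 : x ∈ Icc (-1 : ℝ) 1 := abs_le.1 (by linarith)
      have h3 := hG x h2
      rw [Real.norm_eq_abs, abs_of_nonneg (h0 x)] at h3
      unfold Cut
      rw [abs_of_nonneg (mul_nonneg (h0 x) (ct_nonneg a x))]
      calc g x * ct a x ≤ g x * 1 := mul_le_mul_of_nonneg_left (ct_le_one a x) (h0 x)
        _ ≤ G := by rw [mul_one]; exact h3
  obtain ⟨T1, hT1, h1⟩ := key k (ε / 4) (by positivity)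
  obtain ⟨T2, hT2, h2⟩ := hb (1 / a) (by positivity)
    (by apply one_div_le_one_div_of_le (by norm_num) ha1) (Cut g a) (Cut_lip hg ha0)
    (fun α h => Cut_out ha0 h.le) (bl_decay hg ha0) G hcutG (ε / 4) (by positivity)
  refine ⟨max T1 T2, hT1.trans (le_max_left _ _), fun T hT => ?_⟩
  have g1 := h1 T ((le_max_left _ _).trans hT)
  have g2 := h2 T ((le_max_right _ _).trans hT)
  have hN0 : (0 : ℝ) ≤ NN riemannZeta T (2 * T) := Nat.cast_nonneg _
  have e1 : Cut g a 0 = g 0 := by unfold Cut; rw [ct_zero, mul_one]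
  rw [e1] at g2
  have e2 : C * G * (1 / a) ^ 3 = C * G * (1 / 8) ^ (k + 1) := by
    rw [ha, one_div_pow, ← pow_mul, mul_comm (k + 1) 3, pow_mul, one_div_pow]
    norm_num
  rw [e2] at g2
  have e5 : PSm (Cut g 2) T - NN riemannZeta T (2 * T) * (g 0 + ∫ α : ℝ, |α| * Cut g 2 α) =
      ((PSm (Cut g 2) T - PSm (Cut g a) T) - NN riemannZeta T (2 * T) *
      ((∫ α : ℝ, |α| * Cut g 2 α) - ∫ α : ℝ, |α| * Cut g a α)) +
      (PSm (Cut g a) T - NN riemannZeta T (2 * T) * (g 0 + ∫ α : ℝ, |α| * Cut g a α)) := by ring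
  rw [e5]
  refine (abs_add_le _ _).trans ((add_le_add g1 g2).trans ?_)
  rw [← add_mul]
  apply mul_le_mul_of_nonneg_right _ hN0
  have h3 : 0 ≤ 8 * C * A * (1 / 2) ^ k := by positivity
  have h4 : 8 * C * A * (1 - (1 / 2) ^ k) = 8 * C * A - 8 * C * A * (1 / 2) ^ k := by ring
  linarith

end Pool.Agent.Q276.UR
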