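import Pool.Agent.Q276.UR.D1
import Pool.Agent.H177R3.LatC

/-! If almost all gaps are close to one, pair sums are close to those of the integers. -/

set_option autoImplicit false

open Filter Topology Set MeasureTheory

namespace Pool.Agent.Q276.UR

open H177.Lat (KK KK_zero KK_nonneg KK_le KK_sq kI far_pairs)

/-- symmetric double sums -/
lemma sym_sum (I : Finset ℕ) (f : ℕ → ℕ → ℝ) (hf : ∀ n m, f n m = f m n) :
    ∑ n ∈ I, ∑ m ∈ I, f n m = ∑ n ∈ I, f n n + 2 * ∑ n ∈ I, ∑ m ∈ I.filter (fun m => n < m), f n m := by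
  have h1 : ∀ n ∈ I, ∑ m ∈ I, f n m = ∑ m ∈ I.filter (fun m => m < n), f n m + f n n +
      ∑ m ∈ I.filter (fun m => n < m), f n m := by
    intro n hn
    rw [← Finset.sum_filter_add_sum_filter_not I (fun m => m < n),
      ← Finset.sum_filter_add_sum_filter_not (I.filter (fun m => ¬ m < n)) (fun m => m = n)]
    have e1 : (I.filter (fun m => ¬ m < n)).filter (fun m => m = n) = {n} := by
      ext m
      simp only [Finset.mem_filter, Finset.mem_singleton]
      constructor
      · rintro ⟨_, h⟩; exact h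
      · rintro rfl; exact ⟨⟨hn, lt_irrefl _⟩, rfl⟩
    have e2 : (I.filter (fun m => ¬ m < n)).filter (fun m => ¬ m = n) = I.filter (fun m => n < m) := by
      ext m
      simp only [Finset.mem_filter]
      constructor
      · rintro ⟨⟨h1, h2⟩, h3⟩; exact ⟨h1, by omega⟩
      · rintro ⟨h1, h2⟩; exact ⟨⟨h1, by omega⟩, by omega⟩
    rw [e1, e2, Finset.sum_singleton]
    ring
  rw [Finset.sum_congr rfl h1, Finset.sum_add_distrib, Finset.sum_add_distrib]
  have h2 : ∑ n ∈ I, ∑ m ∈ I.filter (fun m => m < n), f n m =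
      ∑ n ∈ I, ∑ m ∈ I.filter (fun m => n < m), f n m := by
    rw [Finset.sum_comm' (t' := I) (s' := fun m => I.filter (fun n => m < n))]
    · refine Finset.sum_congr rfl fun n _ => Finset.sum_congr rfl fun m _ => hf m n
    · intro n m
      simp only [Finset.mem_filter]
      tauto
  rw [h2]
  ring

/-- the deviation of a gap -/
noncomputable def dv (y : ℕ → ℝ) (i : ℕ) : ℝ := |y (i + 1) - y i - 1|

/-- the deviations of the next `K` gaps -/
noncomputable def Wn (y : ℕ → ℝ) (b K n : ℕ) : ℝ := ∑ i ∈ (Finset.Ico n (n + K)).filter (fun i => i < b), dv y i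

lemma Wn_nonneg (y : ℕ → ℝ) (b K n : ℕ) : 0 ≤ Wn y b K n := Finset.sum_nonneg fun _ _ => abs_nonneg _

lemma dev_le (y : ℕ → ℝ) (b K n k : ℕ) (hk : k ≤ K) (hb : n + k ≤ b) :
    |y (n + k) - y n - k| ≤ Wn y b K n := by
  have e1 : y (n + k) - y n - k = ∑ i ∈ Finset.Ico n (n + k), (y (i + 1) - y i - 1) := by
    rw [Finset.sum_sub_distrib, Finset.sum_Ico_sub _ (by omega), Finset.sum_const, Nat.card_Ico,
      nsmul_eq_mul, mul_one]
    congr 1
    simp
  rw [e1]
  refine (Finset.abs_sum_le_sum_abs _ _).trans ?_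
  unfold Wn dv
  apply Finset.sum_le_sum_of_subset_of_nonneg
  · intro i hi
    rw [Finset.mem_Ico] at hi
    rw [Finset.mem_filter, Finset.mem_Ico]
    omega
  · intro _ _ _
    exact abs_nonneg _

lemma Wn_sum (y : ℕ → ℝ) (a b K : ℕ) :
    ∑ n ∈ Finset.Ioc a b, Wn y b K n ≤ K * ∑ i ∈ Finset.Ioo a b, dv y i := by
  unfold Wn
  rw [Finset.sum_comm' (t' := Finset.Ioo a b)
    (s' := fun i => (Finset.Ioc a b).filter (fun n => n ≤ i ∧ i < n + K))]
  · rw [Finset.mul_sum]
    refine Finset.sum_le_sum fun i hi => ?_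
    rw [Finset.sum_const, nsmul_eq_mul]
    apply mul_le_mul_of_nonneg_right _ (abs_nonneg _)
    have h1 : (Finset.Ioc a b).filter (fun n => n ≤ i ∧ i < n + K) ⊆ Finset.Ioc (i - K) i := by
      intro n hn
      rw [Finset.mem_filter] at hn
      rw [Finset.mem_Ioc]
      rcases hn with ⟨h1, h2, h3⟩
      rw [Finset.mem_Ioc] at h1
      omega
    have h2 := Finset.card_le_card h1
    rw [Nat.card_Ioc] at h2
    have h3 : ((Finset.Ioc a b).filter (fun n => n ≤ i ∧ i < n + K)).card ≤ K := by omega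
    exact_mod_cast h3
  · intro n i
    simp only [Finset.mem_filter, Finset.mem_Ico, Finset.mem_Ioc, Finset.mem_Ioo]
    constructor
    · rintro ⟨⟨h1, h2⟩, ⟨h3, h4⟩, h5⟩
      exact ⟨⟨⟨h1, h2⟩, h3, h4⟩, by omega, h5⟩
    · rintro ⟨⟨⟨h1, h2⟩, h3, h4⟩, h5, h6⟩
      exact ⟨⟨h1, h2⟩, ⟨h3, h4⟩, h6⟩

/-- **pair sums and deviations** -/
theorem pairs_dev {e : ℝ} (he : 0 < e) (he1 : e ≤ 1) (R : ℕ) (hR : 2 ≤ R) {η : ℝ} (hη : 0 < η)
    (a b : ℕ) (y : ℕ → ℝ)
    (hy : ∀ n ∈ Finset.Ioc a b, ∀ m ∈ Finset.Ioc a b, n ≤ m → y n ≤ y m) :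
    ∑ n ∈ Finset.Ioc a b, ∑ m ∈ Finset.Ioc a b, KK e (y n - y m) ≤
      ((Finset.Ioc a b).card : ℝ) +
      (16 * Real.pi * e ^ 2 * R ^ 2 + 2 * e / η) * ∑ i ∈ Finset.Ioo a b, dv y i +
      e * η * ∑ n ∈ Finset.Ioc a b, (kI (Finset.Ioc a b) y R n : ℝ) ^ 2 +
      32 / (e * R) * ∑ n ∈ Finset.Ioc a b, (kI (Finset.Ioc a b) y 1 n : ℝ) := by
  have hpi := Real.pi_pos
  set I := Finset.Ioc a b with hI
  set K : ℕ := 2 * R with hK
  have hR0 : (0 : ℝ) < R := by
    have : 0 < R := by omega
    exact_mod_cast this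
  have hK0 : (K : ℝ) = 2 * R := by rw [hK]; push_cast; ring
  have hcomm : ∀ n m : ℕ, KK e (y n - y m) = KK e (y m - y n) := fun n m => by
    rw [← neg_sub, KK_even]
  rw [sym_sum I (fun n m => KK e (y n - y m)) hcomm]
  have hdiag : ∑ n ∈ I, KK e (y n - y n) = (I.card : ℝ) * KK e 0 := by
    simp only [sub_self]
    rw [Finset.sum_const, nsmul_eq_mul]
  rw [hdiag]
  -- the sum over `m > n`
  have hone : ∀ n ∈ I, ∑ m ∈ I.filter (fun m => n < m), KK e (y n - y m) ≤
      ∑ k ∈ Finset.Icc 1 K, KK e k + K * (2 * Real.pi * e ^ 2 * Wn y b K n) +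
      (1 / e * ∑ m ∈ I.filter (fun m => (R : ℝ) < |y n - y m|), 1 / (y n - y m) ^ 2 +
        e * (η / 2 * (kI I y R n : ℝ) ^ 2 + 1 / (2 * η) * (Wn y b K n / R))) := by
    intro n hn
    rw [hI, Finset.mem_Ioc] at hn
    rw [← Finset.sum_filter_add_sum_filter_not (I.filter (fun m => n < m)) (fun m => m ≤ n + K)]
    apply add_le_add
    · have e1 : (I.filter (fun m => n < m)).filter (fun m => m ≤ n + K) =
          ((Finset.Icc 1 K).filter (fun k => n + k ≤ b)).image (fun k => n + k) := by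
        ext m
        simp only [hI, Finset.mem_filter, Finset.mem_image, Finset.mem_Icc, Finset.mem_Ioc]
        constructor
        · rintro ⟨⟨⟨h1, h2⟩, h3⟩, h4⟩
          exact ⟨m - n, ⟨⟨by omega, by omega⟩, by omega⟩, by omega⟩
        · rintro ⟨k, ⟨⟨h1, h2⟩, h3⟩, rfl⟩
          exact ⟨⟨⟨by omega, by omega⟩, by omega⟩, by omega⟩
      rw [e1, Finset.sum_image (by intro x _ z _ h; simpa using h)]
      have h2 : ∀ k ∈ (Finset.Icc 1 K).filter (fun k => n + k ≤ b), KK e (y n - y (n + k)) ≤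
          KK e k + 2 * Real.pi * e ^ 2 * Wn y b K n := by
        intro k hk
        rw [Finset.mem_filter, Finset.mem_Icc] at hk
        have h3 := dev_le y b K n k hk.1.2 hk.2
        have h4 := KK_lip he (y (n + k) - y n) k
        rw [hcomm]
        have h5 := (abs_le.1 h4).2
        have h6 : 2 * Real.pi * e ^ 2 * |y (n + k) - y n - k| ≤ 2 * Real.pi * e ^ 2 * Wn y b K n :=
          mul_le_mul_of_nonneg_left h3 (by positivity)
        linarith
      refine (Finset.sum_le_sum h2).trans ?_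
      rw [Finset.sum_add_distrib, Finset.sum_const, nsmul_eq_mul]
      apply add_le_add
      · apply Finset.sum_le_sum_of_subset_of_nonneg (Finset.filter_subset _ _)
        intro k _ _
        exact KK_nonneg he _
      · apply mul_le_mul_of_nonneg_right _ (by have := Wn_nonneg y b K n; positivity)
        have h7 := Finset.card_le_card (Finset.filter_subset (fun k => n + k ≤ b) (Finset.Icc 1 K))
        rw [Nat.card_Icc] at h7
        have h8 : ((Finset.Icc 1 K).filter (fun k => n + k ≤ b)).card ≤ K := by omega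
        exact_mod_cast h8
    · set Fm := (I.filter (fun m => n < m)).filter (fun m => ¬ m ≤ n + K) with hFm
      rw [← Finset.sum_filter_add_sum_filter_not Fm (fun m => (R : ℝ) < |y n - y m|)]
      apply add_le_add
      · rw [Finset.mul_sum]
        have h2 : ∑ m ∈ Fm.filter (fun m => (R : ℝ) < |y n - y m|), KK e (y n - y m) ≤
            ∑ m ∈ Fm.filter (fun m => (R : ℝ) < |y n - y m|), 1 / e * (1 / (y n - y m) ^ 2) := by
          refine Finset.sum_le_sum fun m hm => ?_
          rw [Finset.mem_filter] at hm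
          have h3 : 0 < (y n - y m) ^ 2 := by
            rw [← sq_abs]
            have : 0 < |y n - y m| := lt_trans hR0 hm.2
            positivity
          rw [mul_one_div, le_div_iff₀ h3]
          exact KK_sq he _
        refine h2.trans ?_
        apply Finset.sum_le_sum_of_subset_of_nonneg
        · intro m hm
          rw [Finset.mem_filter, hFm, Finset.mem_filter, Finset.mem_filter] at hm
          rw [Finset.mem_filter]
          exact ⟨hm.1.1.1, hm.2⟩
        · intro m _ _
          positivity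
      · -- close but far in index
        set Gm := Fm.filter (fun m => ¬ (R : ℝ) < |y n - y m|) with hGm
        have h2 : ∑ m ∈ Gm, KK e (y n - y m) ≤ Gm.card * e := by
          calc ∑ m ∈ Gm, KK e (y n - y m) ≤ ∑ m ∈ Gm, e := Finset.sum_le_sum fun m _ => KK_le he _
            _ = Gm.card * e := by rw [Finset.sum_const, nsmul_eq_mul]
        have hcard : (Gm.card : ℝ) ≤ kI I y R n := by
          unfold kI
          have : Gm ⊆ I.filter (fun n' => |y n - y n'| ≤ R) := by
            intro m hm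
            rw [hGm, Finset.mem_filter, hFm, Finset.mem_filter, Finset.mem_filter] at hm
            rw [Finset.mem_filter]
            exact ⟨hm.1.1.1, not_lt.1 hm.2⟩
          exact_mod_cast Finset.card_le_card this
        rcases Finset.eq_empty_or_nonempty Gm with hemp | hne
        · rw [hemp, Finset.sum_empty]
          have := Wn_nonneg y b K n
          positivity
        · obtain ⟨m, hm⟩ := hne
          rw [hGm, Finset.mem_filter, hFm, Finset.mem_filter, Finset.mem_filter, hI,
            Finset.mem_Ioc] at hm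
          obtain ⟨⟨⟨⟨m1, m2⟩, m3⟩, m4⟩, m5⟩ := hm
          rw [not_lt] at m5
          rw [not_le] at m4
          have h3 := dev_le y b K n K le_rfl (by omega)
          have h4 : y (n + K) ≤ y m := hy (n + K) (Finset.mem_Ioc.2 ⟨by omega, by omega⟩) m
            (Finset.mem_Ioc.2 ⟨m1, m2⟩) m4.le
          have h5 := (abs_le.1 m5).1
          have h6 := (abs_le.1 h3).1
          have hW : (R : ℝ) ≤ Wn y b K n := by
            rw [hK0] at h6
            linarith
          have h7 : 1 ≤ Wn y b K n / R := by rw [le_div_iff₀ hR0]; linarith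
          set k := (kI I y R n : ℝ) with hk
          have hk0 : 0 ≤ k := Nat.cast_nonneg _
          have h8 : k ≤ η / 2 * k ^ 2 + 1 / (2 * η) := by
            have h9 : 0 ≤ (η * k - 1) ^ 2 := sq_nonneg _
            have h10 : η / 2 * k ^ 2 + 1 / (2 * η) - k = (η * k - 1) ^ 2 / (2 * η) := by
              field_simp
              ring
            have h11 : 0 ≤ (η * k - 1) ^ 2 / (2 * η) := by positivity
            linarith
          have h9 : 1 / (2 * η) ≤ 1 / (2 * η) * (Wn y b K n / R) :=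
            le_mul_of_one_le_right (by positivity) h7
          calc ∑ m ∈ Gm, KK e (y n - y m) ≤ Gm.card * e := h2
            _ ≤ k * e := mul_le_mul_of_nonneg_right hcard he.le
            _ ≤ (η / 2 * k ^ 2 + 1 / (2 * η) * (Wn y b K n / R)) * e :=
                mul_le_mul_of_nonneg_right (by linarith) he.le
            _ = _ := by ring
  have hsum := Finset.sum_le_sum hone
  rw [Finset.sum_add_distrib, Finset.sum_add_distrib, Finset.sum_add_distrib, Finset.sum_const,
    nsmul_eq_mul] at hsum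
  have hfar := far_pairs I y R hR
  have hW := Wn_sum y a b K
  rw [← hI] at hW
  set E := ∑ i ∈ Finset.Ioo a b, dv y i with hE
  set SW := ∑ n ∈ I, Wn y b K n with hSW
  set K2 := ∑ n ∈ I, (kI I y R n : ℝ) ^ 2 with hK2
  set K1 := ∑ n ∈ I, (kI I y 1 n : ℝ) with hK1
  have e1 : ∑ n ∈ I, K * (2 * Real.pi * e ^ 2 * Wn y b K n) = K * (2 * Real.pi * e ^ 2) * SW := by
    rw [hSW, Finset.mul_sum]
    exact Finset.sum_congr rfl fun _ _ => by ring
  have e2 : ∑ n ∈ I, e * (η / 2 * (kI I y R n : ℝ) ^ 2 + 1 / (2 * η) * (Wn y b K n / R)) =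
      e * (η / 2) * K2 + e * (1 / (2 * η) / R) * SW := by
    rw [hSW, hK2, Finset.mul_sum, Finset.mul_sum, ← Finset.sum_add_distrib]
    exact Finset.sum_congr rfl fun _ _ => by ring
  have e3 : ∑ n ∈ I, 1 / e * ∑ m ∈ I.filter (fun m => (R : ℝ) < |y n - y m|), 1 / (y n - y m) ^ 2 =
      1 / e * ∑ n ∈ I, ∑ m ∈ I.filter (fun m => (R : ℝ) < |y n - y m|), 1 / (y n - y m) ^ 2 := by
    rw [Finset.mul_sum]
  rw [e1, e2, e3] at hsum
  have hpois := KK_partial he he1 K
  have hcardI : (0 : ℝ) ≤ I.card := Nat.cast_nonneg _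
  have h1 : (I.card : ℝ) * KK e 0 + 2 * (I.card * ∑ k ∈ Finset.Icc 1 K, KK e k) ≤ I.card := by
    have := mul_le_mul_of_nonneg_left hpois hcardI
    linarith
  have h2 : 1 / e * ∑ n ∈ I, ∑ m ∈ I.filter (fun m => (R : ℝ) < |y n - y m|), 1 / (y n - y m) ^ 2 ≤
      1 / e * (16 / R * K1) := mul_le_mul_of_nonneg_left hfar (by positivity)
  have h3 : K * (2 * Real.pi * e ^ 2) * SW ≤ K * (2 * Real.pi * e ^ 2) * (K * E) :=
    mul_le_mul_of_nonneg_left hW (by positivity)
  have h4 : e * (1 / (2 * η) / R) * SW ≤ e * (1 / (2 * η) / R) * (K * E) :=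
    mul_le_mul_of_nonneg_left hW (by positivity)
  have h5 : 2 * (K * (2 * Real.pi * e ^ 2) * (K * E)) + 2 * (e * (1 / (2 * η) / R) * (K * E)) =
      (16 * Real.pi * e ^ 2 * R ^ 2 + 2 * e / η) * E := by
    rw [hK0]
    field_simp
    ring
  have h6 : 2 * (1 / e * (16 / R * K1)) = 32 / (e * R) * K1 := by
    field_simp
    ring
  linarith

end Pool.Agent.Q276.UR
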