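import Pool.Agent.Q276.UR.A3
import Pool.Agent.Q276.UR.A5
import Pool.Agent.Q276.UR.D2
import Pool.Agent.Q276.LR.E2
import Pool.Agent.Y750.OM.Main6

/-! The gaps are not concentrated at their mean, without any hypothesis. -/

set_option autoImplicit false

open Filter Topology Set MeasureTheory

namespace Pool.Agent.Q276.UR

open SG (ord NZ zmult ZS)
open H177.Lat (kI yy del2 tri KK tri_nonneg tri_zero tri_in tri_lip KK_nonneg KK_le KK_sq)
open H370 (NN)
open Pool.Agent.Q276.LR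

lemma bl_tri (e u : ℝ) : bl (tri e) u = KK e u := rfl

lemma tri_int_abs {e : ℝ} (he : 0 < e) : ∫ α : ℝ, |α| * tri e α = e ^ 2 / 3 :=
  Pool.Agent.Y750.OM.tri_abs he

theorem pair_lower : ∃ e : ℝ, 0 < e ∧ e ≤ 1 ∧ ∃ T0 : ℝ, 10 ≤ T0 ∧ ∀ T : ℝ, T0 ≤ T →
    (1 + 5 * e ^ 2 / 24) * NN riemannZeta T (2 * T) ≤
      ∑ n ∈ Finset.Ioc (NZ T) (NZ (2 * T)), ∑ m ∈ Finset.Ioc (NZ T) (NZ (2 * T)),
        KK e (yy T n - yy T m) := by
  obtain ⟨C, hC, h⟩ := pair_basic
  set e : ℝ := min (1 / 2) (1 / (12 * C)) with he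
  have he0 : 0 < e := lt_min (by norm_num) (by positivity)
  have he2 : e ≤ 1 / 2 := min_le_left _ _
  have heC : C * e ≤ 1 / 12 := by
    have : e ≤ 1 / (12 * C) := min_le_right _ _
    rw [le_div_iff₀ (by positivity)] at this
    linarith
  obtain ⟨T0, hT0, h1⟩ := h e he0 he2 (tri e) ⟨1 / e, tri_lip he0⟩ (fun α hα => tri_zero he0 hα.le)
    ⟨e + 1 / e, fun u => by
      rw [bl_tri, abs_of_nonneg (KK_nonneg he0 u), mul_add, mul_one]
      exact add_le_add (KK_le he0 u) (KK_sq he0 u)⟩ 1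
    (fun α => by
      rw [abs_of_nonneg (tri_nonneg e α)]
      exact tri_le_one' he0 α) (e ^ 2 / 24) (by positivity)
  refine ⟨e, he0, by linarith, T0, hT0, fun T hT => ?_⟩
  have h2 := (abs_le.1 (h1 T hT)).1
  rw [tri_int_abs he0, tri_zero'] at h2
  have h3 : PSm (tri e) T = ∑ n ∈ Finset.Ioc (NZ T) (NZ (2 * T)),
      ∑ m ∈ Finset.Ioc (NZ T) (NZ (2 * T)), KK e (yy T n - yy T m) := rfl
  rw [h3] at h2
  have hN : (0 : ℝ) ≤ NN riemannZeta T (2 * T) := Nat.cast_nonneg _
  have h4 : C * 1 * e ^ 3 ≤ e ^ 2 / 12 := by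
    have : C * 1 * e ^ 3 = (C * e) * e ^ 2 := by ring
    rw [this]
    nlinarith [sq_nonneg e]
  have h5 : (C * 1 * e ^ 3 + e ^ 2 / 24) * NN riemannZeta T (2 * T) ≤
      (e ^ 2 / 12 + e ^ 2 / 24) * NN riemannZeta T (2 * T) :=
    mul_le_mul_of_nonneg_right (by linarith) hN
  linarith

theorem spread_block : ∃ c : ℝ, 0 < c ∧ ∃ T0 : ℝ, 100 ≤ T0 ∧ ∀ T : ℝ, T0 ≤ T →
    c * (T * Real.log T) ≤ ∑ n ∈ Finset.Ioc (NZ T) (NZ (2 * T)), |xx n| := by
  have hpi := Real.pi_gt_three
  have hpi4 := Real.pi_lt_d2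
  obtain ⟨e, he0, he1, T1, hT1, hlow⟩ := pair_lower
  obtain ⟨C1, T2, hC1, hT2, hk1⟩ := kI_sum 1
  set κ : ℝ := (5 * e ^ 2 / 24) / 14 with hκ
  have hκ0 : 0 < κ := by positivity
  -- choice of R
  obtain ⟨R, hR2, hR⟩ : ∃ R : ℕ, 2 ≤ R ∧ 32 / (e * R) * C1 ≤ κ / 4 := by
    refine ⟨⌈128 * C1 / (e * κ)⌉₊ + 2, by omega, ?_⟩
    have h1 := Nat.le_ceil (128 * C1 / (e * κ))
    have h2 : 128 * C1 / (e * κ) ≤ ((⌈128 * C1 / (e * κ)⌉₊ + 2 : ℕ) : ℝ) := by
      push_cast
      linarith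
    set R := ⌈128 * C1 / (e * κ)⌉₊ + 2
    have hR0 : (0 : ℝ) < R := by
      have : 0 < R := by omega
      exact_mod_cast this
    rw [div_le_iff₀ (by positivity)] at h2
    rw [div_mul_eq_mul_div, div_le_iff₀ (by positivity)]
    linarith
  obtain ⟨C2, T3, hC2, hT3, hk2⟩ := kI_sq R
  set η : ℝ := κ / (4 * e * C2) with hη
  have hη0 : 0 < η := by positivity
  have hηC : e * η * C2 = κ / 4 := by
    rw [hη]; field_simp
  set A1 : ℝ := 16 * Real.pi * e ^ 2 * R ^ 2 + 2 * e / η with hA1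
  have hA10 : 0 < A1 := by
    have : 0 < 2 * e / η := by positivity
    positivity
  obtain ⟨T4, hT4, hw⟩ := win_asymp (1 / 10) (by norm_num)
  obtain ⟨T5, hT5⟩ := (Real.tendsto_log_atTop.eventually_ge_atTop
    (4 * A1 / κ)).exists_forall_of_atTop
  refine ⟨κ / (4 * A1), by positivity, max (max T1 T2) (max T3 (max T4 T5)), ?_, fun T hT => ?_⟩
  · exact hT4.trans ((le_max_left _ _).trans ((le_max_right _ _).trans (le_max_right _ _)))
  have hTT1 : T1 ≤ T := ((le_max_left _ _).trans (le_max_left _ _)).trans hT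
  have hTT2 : T2 ≤ T := ((le_max_right _ _).trans (le_max_left _ _)).trans hT
  have hTT3 : T3 ≤ T := ((le_max_left _ _).trans (le_max_right _ _)).trans hT
  have hTT4 : T4 ≤ T := ((le_max_left _ _).trans ((le_max_right _ _).trans (le_max_right _ _))).trans hT
  have hTT5 : T5 ≤ T := ((le_max_right _ _).trans ((le_max_right _ _).trans (le_max_right _ _))).trans hT
  have hT100 : 100 ≤ T := hT4.trans hTT4
  have hTpos : 0 < T := by linarith
  have hL := hT5 T hTT5
  have hlpos : 0 < Real.log T := Real.log_pos (by linarith)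
  have hs1 : Real.sqrt T ≤ T := by
    rw [Real.sqrt_le_left (by linarith)]
    nlinarith
  have g2 := (abs_le.1 (hw T hTT4 T le_rfl (by linarith) T hs1 le_rfl)).1
  rw [← two_mul, NZ_diff (by linarith) (by linarith)] at g2
  set a := NZ T with ha
  set b := NZ (2 * T) with hb
  set y := yy T with hy
  set L := Real.log T with hLdef
  have hNN : T * L / 14 ≤ NN riemannZeta T (2 * T) := by
    have h1 : T * L / 14 ≤ 9 / 10 * (T * L / (2 * Real.pi)) := by
      rw [mul_div_assoc', div_le_div_iff₀ (by norm_num) (by positivity)]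
      have : 0 ≤ T * L := by positivity
      nlinarith
    linarith
  have hcard : ((Finset.Ioc a b).card : ℝ) = NN riemannZeta T (2 * T) := by
    rw [Nat.card_Ioc, Nat.cast_sub (SG.NZ_mono (by linarith)), ← NZ_diff (by linarith) (by linarith)]
  have hmono : ∀ n ∈ Finset.Ioc a b, ∀ m ∈ Finset.Ioc a b, n ≤ m → y n ≤ y m := by
    intro n hn m _ hnm
    rw [Finset.mem_Ioc] at hn
    have h2 := SG.ord_mono (by omega : 1 ≤ n) hnm
    rw [hy]
    unfold yy
    gcongr
  have hlo := hlow T hTT1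
  have hup := pairs_dev he0 he1 R hR2 hη0 a b y hmono
  have q1 := hk1 T hTT2
  have q2 := hk2 T hTT3
  unfold II at q1 q2
  rw [← ha, ← hb, ← hy, ← hLdef] at q1 q2
  rw [← ha, ← hb, ← hy] at hlo
  push_cast at q1
  set E := ∑ i ∈ Finset.Ioo a b, dv y i with hE
  set K2 := ∑ n ∈ Finset.Ioc a b, (kI (Finset.Ioc a b) y R n : ℝ) ^ 2 with hK2
  set K1 := ∑ n ∈ Finset.Ioc a b, (kI (Finset.Ioc a b) y 1 n : ℝ) with hK1
  rw [hcard] at hup
  have hTL : 0 < T * L := by positivity
  have r1 : e * η * K2 ≤ κ / 4 * (T * L) := by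
    calc e * η * K2 ≤ e * η * (C2 * (T * L)) := mul_le_mul_of_nonneg_left q2 (by positivity)
      _ = e * η * C2 * (T * L) := by ring
      _ = κ / 4 * (T * L) := by rw [hηC]
  have r2 : 32 / (e * R) * K1 ≤ κ / 4 * (T * L) := by
    calc 32 / (e * R) * K1 ≤ 32 / (e * R) * (C1 * (T * L)) :=
          mul_le_mul_of_nonneg_left q1 (by positivity)
      _ = 32 / (e * R) * C1 * (T * L) := by ring
      _ ≤ κ / 4 * (T * L) := mul_le_mul_of_nonneg_right hR hTL.le
  have r3 : κ * (T * L) ≤ 5 * e ^ 2 / 24 * NN riemannZeta T (2 * T) := by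
    have h1 := mul_le_mul_of_nonneg_left hNN (by positivity : 0 ≤ 5 * e ^ 2 / 24)
    have h2 : κ * (T * L) = 5 * e ^ 2 / 24 * (T * L / 14) := by rw [hκ]; ring
    linarith
  have r4 : κ / 2 * (T * L) ≤ A1 * E := by
    have h1 : 5 * e ^ 2 / 24 * (NN riemannZeta T (2 * T) : ℝ) ≤ A1 * E + e * η * K2 + 32 / (e * R) * K1 := by
      linarith
    linarith
  -- from `y` to the unfolded gaps
  have hgapE : E ≤ ∑ n ∈ Finset.Ioc a b, |xx n| + T / Real.pi := by
    have h1 : ∀ i ∈ Finset.Ioo a b, dv y i ≤ |xx i| + (ord (i + 1) - ord i) / Real.pi := by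
      intro i hi
      rw [Finset.mem_Ioo] at hi
      have hi1 : 1 ≤ i := by omega
      have o1 : T ≤ ord i := by
        by_contra hcon
        push Not at hcon
        have := (SG.ord_le_iff hi1 T).mp hcon.le
        omega
      have o2 : ord i ≤ 2 * T := (SG.ord_le_iff hi1 _).mpr (by omega)
      have h2 := gap_conv hT100 hi1 o1 (by linarith)
      unfold dv xx
      have h3 : y (i + 1) - y i - 1 = (del2 i - 1) - (del2 i - (yy T (i + 1) - yy T i)) := by
        rw [hy]; ring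
      rw [h3]
      exact (abs_sub _ _).trans (by linarith)
    refine (Finset.sum_le_sum h1).trans ?_
    rw [Finset.sum_add_distrib]
    apply add_le_add
    · apply Finset.sum_le_sum_of_subset_of_nonneg
      · intro i hi
        rw [Finset.mem_Ioo] at hi
        rw [Finset.mem_Ioc]
        omega
      · intro _ _ _
        exact abs_nonneg _
    · rw [← Finset.sum_div]
      apply div_le_div_of_nonneg_right _ Real.pi_pos.le
      rcases Nat.lt_or_ge (a + 1) b with hab | hab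
      · have e1 : Finset.Ioo a b = Finset.Ico (a + 1) b := by
          ext m; simp only [Finset.mem_Ioo, Finset.mem_Ico]; omega
        rw [e1, Finset.sum_Ico_sub _ (by omega)]
        have o1 : T ≤ ord (a + 1) := by
          by_contra hcon
          push Not at hcon
          have := (SG.ord_le_iff (by omega : 1 ≤ a + 1) T).mp hcon.le
          omega
        have o2 : ord b ≤ 2 * T := (SG.ord_le_iff (by omega) _).mpr (by omega)
        linarith
      · have e1 : Finset.Ioo a b = ∅ := by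
          ext m; simp only [Finset.mem_Ioo, Finset.notMem_empty, iff_false]; omega
        rw [e1, Finset.sum_empty]
        exact hTpos.le
  have r5 : κ / (2 * A1) * (T * L) ≤ E := by
    rw [div_mul_eq_mul_div, div_le_iff₀ (by positivity)]
    linarith
  have r6 : T / Real.pi ≤ κ / (4 * A1) * (T * L) := by
    rw [div_le_iff₀ hκ0] at hL
    have h1 : T / Real.pi ≤ T := div_le_self hTpos.le (by linarith)
    have h2 : T ≤ κ / (4 * A1) * (T * L) := by
      rw [div_mul_eq_mul_div, le_div_iff₀ (by positivity)]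
      have := mul_le_mul_of_nonneg_left hL hTpos.le
      linarith
    linarith
  have r7 : κ / (2 * A1) * (T * L) = 2 * (κ / (4 * A1) * (T * L)) := by
    field_simp
    ring
  linarith

/-- **the gaps are not concentrated at their mean** -/
theorem spread_uncond : ∃ c : ℝ, 0 < c ∧ ∀ᶠ N : ℕ in atTop,
    c * N ≤ ∑ n ∈ Finset.Icc 1 N, |xx n| := by
  obtain ⟨c, hc, T0, hT0, h⟩ := spread_block
  obtain ⟨C, hC, hup⟩ := H177.Lat.NZ_three
  refine ⟨c / C, by positivity, ?_⟩
  filter_upwards [SG.ord_tendsto.eventually_ge_atTop (3 * T0), eventually_ge_atTop 1] with N hN1 hN2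
  set T : ℝ := ord N / 3 with hT
  have hTT0 : T0 ≤ T := by rw [hT]; linarith
  have hTpos : 0 < T := by linarith
  have h1 := h T hTT0
  have h2 := hup T (by linarith)
  have e3 : 3 * T = ord N := by rw [hT]; ring
  rw [e3] at h2
  have h3 : (N : ℝ) ≤ NZ (ord N) := by exact_mod_cast SG.le_NZ_ord hN2
  have h4 : NZ (2 * T) < N := by
    by_contra hcon
    push Not at hcon
    have h7 : ord N ≤ 2 * T := (SG.ord_le_iff hN2 _).mpr hcon
    linarith
  have h5 : ∑ n ∈ Finset.Ioc (NZ T) (NZ (2 * T)), |xx n| ≤ ∑ n ∈ Finset.Icc 1 N, |xx n| := by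
    apply Finset.sum_le_sum_of_subset_of_nonneg
    · intro n hn
      rw [Finset.mem_Ioc] at hn
      rw [Finset.mem_Icc]
      omega
    · intro n _ _
      exact abs_nonneg _
  refine le_trans ?_ (h1.trans h5)
  rw [div_mul_eq_mul_div, div_le_iff₀ hC]
  have h6 : (N : ℝ) ≤ C * (T * Real.log T) := h3.trans h2
  nlinarith [mul_le_mul_of_nonneg_left h6 hc.le]

/-- **gaps at some bounded distance are negatively correlated, without any hypothesis** -/
theorem neg_corr_of (C : ℝ) (hC : 0 < C) (h1 : ∀ J K : ℕ, 1 ≤ J → 1 ≤ K →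
    ∀ᶠ N : ℕ in atTop, ∑ n ∈ Finset.Ioc (2 ^ J) N, |BB J K n| ≤
      C * (1 / Real.sqrt J + K * (1 + Real.log K) / J) * N) :
    ∃ R : ℕ, ∃ c : ℝ, 0 < c ∧ ∀ᶠ N : ℕ in atTop,
    ∃ k ∈ Finset.Icc 1 R, ∑ n ∈ Finset.Ioc R N, Real.sign (xx n) * (xx (n - k) + xx (n + k)) ≤
      -c * N := by
  obtain ⟨c1, hc1, h2⟩ := spread_uncond
  -- choice of J
  obtain ⟨J, hJ, hJ2⟩ : ∃ J : ℕ, 1 ≤ J ∧ 2 * C / Real.sqrt J ≤ c1 / 4 := by
    refine ⟨⌈(8 * C / c1) ^ 2⌉₊ + 1, by omega, ?_⟩
    have h3 : (8 * C / c1) ^ 2 ≤ ((⌈(8 * C / c1) ^ 2⌉₊ + 1 : ℕ) : ℝ) := by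
      push_cast
      have := Nat.le_ceil ((8 * C / c1) ^ 2)
      linarith
    have h4 : 8 * C / c1 ≤ Real.sqrt ((⌈(8 * C / c1) ^ 2⌉₊ + 1 : ℕ) : ℝ) := by
      rw [Real.le_sqrt (by positivity) (by positivity)]
      exact h3
    have h5 : 0 < 8 * C / c1 := by positivity
    rw [div_le_iff₀ (by linarith)]
    rw [div_le_iff₀ hc1] at h4
    linarith
  have hJ0 : (0 : ℝ) < J := by exact_mod_cast hJ
  have hJ1 : (1 : ℝ) ≤ J := by exact_mod_cast hJ
  set R := 2 ^ J with hR
  have hR0 : (0 : ℝ) < R := by rw [hR]; positivity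
  set S0 := ∑ n ∈ Finset.Icc 1 R, |xx n| with hS0
  refine ⟨R, c1 / (4 * R), by positivity, ?_⟩
  have hN : Tendsto (fun N : ℕ => (N : ℝ)) atTop atTop := tendsto_natCast_atTop_atTop
  filter_upwards [h1 J 1 hJ le_rfl, h2, eventually_gt_atTop R,
    hN.eventually_gt_atTop (4 * S0 / c1)] with N g1 g2 g3 g4
  have hN0 : (0 : ℝ) < N := by
    have : 0 < N := lt_of_le_of_lt (Nat.zero_le R) g3
    exact_mod_cast this
  by_contra hcon
  push Not at hcon
  -- the sum with signs
  have e1 : ∑ n ∈ Finset.Ioc R N, Real.sign (xx n) * BB J 1 n = ∑ n ∈ Finset.Ioc R N, |xx n| +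
      ∑ k ∈ Finset.Icc 1 R, wt J k * ∑ n ∈ Finset.Ioc R N, Real.sign (xx n) * (xx (n - k) + xx (n + k)) := by
    have e2 : ∀ n ∈ Finset.Ioc R N, Real.sign (xx n) * BB J 1 n = |xx n| +
        ∑ k ∈ Finset.Icc 1 R, wt J k * (Real.sign (xx n) * (xx (n - k) + xx (n + k))) := by
      intro n _
      have e3 : BB J 1 n = xx n + ∑ k ∈ Finset.Icc 1 R, wt J k * (xx (n - k) + xx (n + k)) := by
        unfold BB
        rw [Finset.sum_range_one, add_zero]
        congr 1
        refine Finset.sum_congr rfl fun k _ => ?_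
        unfold ut
        simp
      have e4 : Real.sign (xx n) * xx n = |xx n| := by
        rcases lt_trichotomy (xx n) 0 with h | h | h
        · rw [Real.sign_of_neg h, abs_of_neg h]; ring
        · rw [h]; simp
        · rw [Real.sign_of_pos h, abs_of_pos h]; ring
      rw [e3, mul_add, e4, Finset.mul_sum]
      congr 1
      refine Finset.sum_congr rfl fun k _ => ?_
      ring
    rw [Finset.sum_congr rfl e2, Finset.sum_add_distrib, Finset.sum_comm]
    congr 1
    refine Finset.sum_congr rfl fun k _ => ?_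
    rw [Finset.mul_sum]
  have e2 : ∑ n ∈ Finset.Ioc R N, Real.sign (xx n) * BB J 1 n ≤ ∑ n ∈ Finset.Ioc R N, |BB J 1 n| := by
    refine Finset.sum_le_sum fun n _ => ?_
    refine (le_abs_self _).trans ?_
    rw [abs_mul]
    have : |Real.sign (xx n)| ≤ 1 := by
      rcases lt_trichotomy (xx n) 0 with h | h | h
      · rw [Real.sign_of_neg h]; norm_num
      · rw [h]; simp
      · rw [Real.sign_of_pos h]; norm_num
    calc |Real.sign (xx n)| * |BB J 1 n| ≤ 1 * |BB J 1 n| :=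
          mul_le_mul_of_nonneg_right this (abs_nonneg _)
      _ = _ := one_mul _
  have e3 : ∑ n ∈ Finset.Ioc R N, |BB J 1 n| ≤ c1 / 4 * N := by
    refine g1.trans (mul_le_mul_of_nonneg_right ?_ hN0.le)
    refine le_trans ?_ hJ2
    have h5 : Real.sqrt J ≤ J := by
      rw [Real.sqrt_le_left (by linarith)]
      nlinarith
    have h6 : (1 : ℝ) / J ≤ 1 / Real.sqrt J :=
      one_div_le_one_div_of_le (Real.sqrt_pos.2 hJ0) h5
    have h7 : ((1 : ℕ) : ℝ) * (1 + Real.log ((1 : ℕ) : ℝ)) / J = 1 / J := by simp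
    rw [h7]
    calc C * (1 / Real.sqrt J + 1 / J) ≤ C * (1 / Real.sqrt J + 1 / Real.sqrt J) :=
          mul_le_mul_of_nonneg_left (by linarith) hC.le
      _ = 2 * C / Real.sqrt J := by ring
  have e4 : c1 * N - S0 ≤ ∑ n ∈ Finset.Ioc R N, |xx n| := by
    have h5 : ∑ n ∈ Finset.Icc 1 N, |xx n| = S0 + ∑ n ∈ Finset.Ioc R N, |xx n| := by
      have h6 : Finset.Icc 1 N = Finset.Icc 1 R ∪ Finset.Ioc R N := by
        ext m
        simp only [Finset.mem_Icc, Finset.mem_union, Finset.mem_Ioc]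
        have : 1 ≤ R := Nat.one_le_two_pow
        omega
      rw [h6, Finset.sum_union]
      rw [Finset.disjoint_left]
      intro m hm hm'
      rw [Finset.mem_Icc] at hm
      rw [Finset.mem_Ioc] at hm'
      omega
    linarith
  have e5 : -(c1 / 4 * N) ≤ ∑ k ∈ Finset.Icc 1 R, wt J k * ∑ n ∈ Finset.Ioc R N,
      Real.sign (xx n) * (xx (n - k) + xx (n + k)) := by
    have h5 : ∀ k ∈ Finset.Icc 1 R, -(c1 / (4 * R)) * N ≤ wt J k * ∑ n ∈ Finset.Ioc R N,
        Real.sign (xx n) * (xx (n - k) + xx (n + k)) := by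
      intro k hk
      have h6 := hcon k hk
      set Q := ∑ n ∈ Finset.Ioc R N, Real.sign (xx n) * (xx (n - k) + xx (n + k)) with hQ
      have w0 := wt_nonneg J k
      have w1 := wt_le_one hJ k
      rcases le_or_gt 0 Q with h7 | h7
      · have h8 : 0 ≤ wt J k * Q := mul_nonneg w0 h7
        have h9 : 0 ≤ c1 / (4 * R) * N := by positivity
        linarith
      · have h8 : Q ≤ wt J k * Q := by nlinarith
        linarith
    have h6 := Finset.sum_le_sum h5
    rw [Finset.sum_const, Nat.card_Icc, nsmul_eq_mul, Nat.add_sub_cancel] at h6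
    refine le_trans (le_of_eq ?_) h6
    field_simp
  rw [div_lt_iff₀ hc1] at g4
  have g5 := mul_pos hc1 hN0
  linarith

end Pool.Agent.Q276.UR
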