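import Pool.Agent.Q276.UR.N2

/-! The mean square of the smoothed count in a dyadic block. -/

set_option autoImplicit false

open Filter Topology Set MeasureTheory

namespace Pool.Agent.Q276.UR

open SG (ord NZ zmult ZS)
open H177.Lat (kI yy)
open H370 (NN)
open Pool.Agent.Q276.LR

lemma ord_gt {x : ℝ} {n : ℕ} (hn : NZ x < n) : x < ord n := by
  by_contra hcon2
  push Not at hcon2
  have := (SG.ord_le_iff (by omega : 1 ≤ n) x).mp hcon2
  omega

/-- the numerics at the end of the proof -/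
lemma num1 {Q m ε ε1 M Nn Kc X c l : ℝ} (hM : 0 < M) (hQ : 0 ≤ Q)
    (he : ε1 * (3 * m ^ 2 + Q) ≤ ε) (hN : Nn ≤ (1 + ε1) * M) (hK : (1 - ε1) * M ≤ Kc)
    (hX : X ≤ c * M) (hl : 0 < l) :
    Nn * (m ^ 2 + Q) + 16 / l ^ 2 * X + m ^ 2 * M - 2 * m ^ 2 * Kc ≤
      M * (Q + 16 * c / l ^ 2 + ε) := by
  have hm : 0 ≤ m ^ 2 := sq_nonneg m
  have h1 : Nn * (m ^ 2 + Q) ≤ (1 + ε1) * M * (m ^ 2 + Q) :=
    mul_le_mul_of_nonneg_right hN (by linarith)
  have h2 : 2 * m ^ 2 * ((1 - ε1) * M) ≤ 2 * m ^ 2 * Kc :=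
    mul_le_mul_of_nonneg_left hK (by positivity)
  have h3 : 16 / l ^ 2 * X ≤ 16 / l ^ 2 * (c * M) :=
    mul_le_mul_of_nonneg_left hX (by positivity)
  have h4 : M * (ε1 * (3 * m ^ 2 + Q)) ≤ M * ε := mul_le_mul_of_nonneg_left he hM.le
  have h5 : 16 / l ^ 2 * (c * M) = M * (16 * c / l ^ 2) := by ring
  nlinarith [h1, h2, h3, h4, h5]

theorem window_R : ∃ C : ℝ, 0 < C ∧ ∀ l : ℝ, Real.log 2 ≤ l → ∀ ε : ℝ, 0 < ε →
    ∃ T0 : ℝ, 100 ≤ T0 ∧ ∀ T : ℝ, T0 ≤ T →
    ∫ x in (T * Real.log T / (2 * Real.pi))..(T * Real.log T / (2 * Real.pi) +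
        T * Real.log T / (2 * Real.pi)), (FR l (II T) (yy T) x - mR l) ^ 2 ≤
      T * Real.log T / (2 * Real.pi) * (1 / (2 * l) + C / l ^ 2 + ε) := by
  have hpi := Real.pi_gt_three
  obtain ⟨Cp, hCp, hpu⟩ := pair_upper
  obtain ⟨Ca, Ta, hCa, hTa, ha⟩ := kI_sum 2
  obtain ⟨Cb, Tb, hCb, hTb, hb⟩ := kI_sum 1
  set c : ℝ := 2 * Real.pi * (Ca + 8 * Cb) with hc
  have hc0 : 0 < c := by positivity
  refine ⟨1 + Cp / 4 + 16 * c, by positivity, fun l hl ε hε => ?_⟩
  have hl2 : 0 < Real.log 2 := Real.log_pos (by norm_num)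
  have hl0 : 0 < l := by linarith
  set Q : ℝ := 1 / (2 * l) + 1 / l ^ 2 + (Cp * (1 / (4 * l ^ 2)) + ε / 2) with hQ
  have hQ0 : 0 ≤ Q := by positivity
  set m := mR l with hm
  set ε1 : ℝ := min (1 / 2) ((ε / 2) / (3 * m ^ 2 + Q + 1)) with hε1
  have hden : 0 < 3 * m ^ 2 + Q + 1 := by positivity
  have he0 : 0 < ε1 := lt_min (by norm_num) (by positivity)
  have he1 : ε1 ≤ 1 / 2 := min_le_left _ _
  have he2 : ε1 * (3 * m ^ 2 + Q) ≤ ε / 2 := by
    have h1 : ε1 ≤ (ε / 2) / (3 * m ^ 2 + Q + 1) := min_le_right _ _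
    rw [le_div_iff₀ hden] at h1
    nlinarith
  obtain ⟨T1, hT1, h1⟩ := hpu (gR l) (gR_contDiff hl0) (fun x => sq_nonneg _) _ (gR_A hl0)
    (ε / 2) (by positivity)
  obtain ⟨T2, hT2, hw⟩ := win_asymp (ε1 / 2) (by positivity)
  have h8 := Real.tendsto_log_atTop.eventually_ge_atTop (Real.exp l * (2 * Real.pi))
  obtain ⟨T3, hT3⟩ := h8.exists_forall_of_atTop
  refine ⟨max (max T1 T2) (max (max Ta Tb) (max T3 (8 / ε1))), ?_, fun T hT => ?_⟩
  · exact hT2.trans ((le_max_right _ _).trans (le_max_left _ _))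
  have hTT1 : T1 ≤ T := ((le_max_left _ _).trans (le_max_left _ _)).trans hT
  have hTT2 : T2 ≤ T := ((le_max_right _ _).trans (le_max_left _ _)).trans hT
  have hTr : max (max Ta Tb) (max T3 (8 / ε1)) ≤ T := (le_max_right _ _).trans hT
  have hTTa : Ta ≤ T := ((le_max_left _ _).trans (le_max_left _ _)).trans hTr
  have hTTb : Tb ≤ T := ((le_max_right _ _).trans (le_max_left _ _)).trans hTr
  have hTT3 : T3 ≤ T := ((le_max_left _ _).trans (le_max_right _ _)).trans hTr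
  have hTT4 : 8 / ε1 ≤ T := ((le_max_right _ _).trans (le_max_right _ _)).trans hTr
  have hT100 : 100 ≤ T := hT2.trans hTT2
  have hTpos : 0 < T := by linarith
  have k1 : Real.exp l * (2 * Real.pi) ≤ Real.log T := hT3 T hTT3
  have hL0 : 0 < Real.log T := Real.log_pos (by linarith)
  have hs1 : Real.sqrt T ≤ T := by
    rw [Real.sqrt_le_left (by linarith)]
    nlinarith
  have hs2 : Real.sqrt T ≤ T - 2 := by
    rw [Real.sqrt_le_left (by linarith)]
    nlinarith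
  -- the pair sum
  have g1 := (abs_le.1 (h1 T hTT1)).2
  have g2 := (abs_le.1 (hw T hTT2 T le_rfl (by linarith) T hs1 le_rfl)).2
  rw [← two_mul] at g2
  rw [NZ_diff (by linarith) (by linarith)] at g2
  have g4 := int_cut hl
  have g5 : gR l 0 = m ^ 2 := by
    unfold gR
    rw [HR_zero hl0]
    rfl
  -- counts
  have c4 := hw T hTT2 (T + 1) (by linarith) (by linarith) (T - 2) hs2 (by linarith)
  have f1 := ha T hTTa
  have f2 := hb T hTTb
  push_cast at f1 f2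
  set L : ℝ := Real.log T with hL
  obtain ⟨M, hM⟩ : ∃ M : ℝ, M = T * L / (2 * Real.pi) := ⟨_, rfl⟩
  have hM0 : 0 < M := by rw [hM]; positivity
  rw [← hM]
  rw [← hM] at g2
  obtain ⟨Nn, hNn⟩ : ∃ Nn : ℝ, Nn = (NN riemannZeta T (2 * T) : ℝ) := ⟨_, rfl⟩
  rw [← hNn] at g1 g2
  have hNn0 : 0 ≤ Nn := by rw [hNn]; exact Nat.cast_nonneg _
  have hN1 : Nn ≤ (1 + ε1) * M := by nlinarith
  have hP : PSm (Cut (gR l) 2) T ≤ Nn * (m ^ 2 + Q) := by
    rw [g5] at g1
    have e1 : Nn * (m ^ 2 + ∫ α : ℝ, |α| * Cut (gR l) 2 α) ≤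
        Nn * (m ^ 2 + (1 / (2 * l) + 1 / l ^ 2)) := mul_le_mul_of_nonneg_left (by linarith) hNn0
    have e2 : Nn * (m ^ 2 + Q) = Nn * (m ^ 2 + (1 / (2 * l) + 1 / l ^ 2)) +
        (Cp * (1 / (4 * l ^ 2)) + ε / 2) * Nn := by rw [hQ]; ring
    linarith
  have hX : ∑ n ∈ II T, (kI (II T) (yy T) 2 n : ℝ) + 8 * ∑ n ∈ II T, (kI (II T) (yy T) 1 n : ℝ) ≤
      c * M := by
    have e3 : c * M = (Ca + 8 * Cb) * (T * L) := by
      rw [hM, hc]
      field_simp
    rw [e3]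
    linarith
  have hcard : (1 - ε1) * M ≤ (((II T).filter
      (fun n => M + Real.exp l ≤ yy T n ∧ yy T n ≤ M + M - Real.exp l)).card : ℝ) := by
    have d4 : (1 - ε1) * M ≤ (NZ (T + 1 + (T - 2)) : ℝ) - NZ (T + 1) := by
      have h1 := (abs_le.1 c4).1
      have h2 : (1 - ε1) * M ≤ (1 - ε1 / 2) * ((T - 2) * L / (2 * Real.pi)) := by
        have h3 : (1 - ε1) * T ≤ (1 - ε1 / 2) * (T - 2) := by
          have h5 : 8 ≤ ε1 * T := by
            rw [div_le_iff₀ he0] at hTT4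
            linarith
          nlinarith
        have hc0 : 0 ≤ L / (2 * Real.pi) := by positivity
        have h4 := mul_le_mul_of_nonneg_right h3 hc0
        calc (1 - ε1) * M = (1 - ε1) * T * (L / (2 * Real.pi)) := by rw [hM]; ring
          _ ≤ (1 - ε1 / 2) * (T - 2) * (L / (2 * Real.pi)) := h4
          _ = _ := by ring
      have h5 : (1 - ε1 / 2) * ((T - 2) * L / (2 * Real.pi)) = (T - 2) * L / (2 * Real.pi) -
          ε1 / 2 * ((T - 2) * L / (2 * Real.pi)) := by ring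
      linarith
    refine d4.trans ?_
    have h1 : Finset.Ioc (NZ (T + 1)) (NZ (T + 1 + (T - 2))) ⊆ (II T).filter
        (fun n => M + Real.exp l ≤ yy T n ∧ yy T n ≤ M + M - Real.exp l) := by
      intro n hn
      rw [Finset.mem_Ioc] at hn
      have h2 := ord_gt hn.1
      have h3 := (SG.ord_le_iff (by omega : 1 ≤ n) _).mpr hn.2
      have m1 : NZ T ≤ NZ (T + 1) := SG.NZ_mono (by linarith)
      have m2 : NZ (T + 1 + (T - 2)) ≤ NZ (2 * T) := SG.NZ_mono (by linarith)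
      have h4 : Real.exp l ≤ L / (2 * Real.pi) := by
        rw [le_div_iff₀ (by positivity)]
        exact k1
      have hc0 : 0 ≤ L / (2 * Real.pi) := by positivity
      have hyv : yy T n = ord n * (L / (2 * Real.pi)) := by unfold yy; ring
      unfold II
      rw [Finset.mem_filter, Finset.mem_Ioc, hyv, hM]
      refine ⟨⟨by omega, by omega⟩, ?_, ?_⟩
      · calc T * L / (2 * Real.pi) + Real.exp l ≤ (T + 1) * (L / (2 * Real.pi)) := by
              have : (T + 1) * (L / (2 * Real.pi)) = T * L / (2 * Real.pi) + L / (2 * Real.pi) := by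
                ring
              linarith
          _ ≤ ord n * (L / (2 * Real.pi)) := mul_le_mul_of_nonneg_right h2.le hc0
      · calc ord n * (L / (2 * Real.pi)) ≤ (T + 1 + (T - 2)) * (L / (2 * Real.pi)) :=
              mul_le_mul_of_nonneg_right h3 hc0
          _ = T * L / (2 * Real.pi) + T * L / (2 * Real.pi) - L / (2 * Real.pi) := by ring
          _ ≤ _ := by linarith
    have h5 := Finset.card_le_card h1
    rw [Nat.card_Ioc] at h5
    have h6 : ((NZ (T + 1 + (T - 2)) - NZ (T + 1) : ℕ) : ℝ) ≤ (((II T).filter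
        (fun n => M + Real.exp l ≤ yy T n ∧ yy T n ≤ M + M - Real.exp l)).card : ℝ) := by
      exact_mod_cast h5
    refine le_trans ?_ h6
    rw [Nat.cast_sub (SG.NZ_mono (by linarith))]
  have hloc := local_R hl (II T) (yy T) M M (Nn * (m ^ 2 + Q)) (c * M) hM0 hP hX
  rw [← hm] at hloc
  refine hloc.trans ?_
  have hnum := num1 (ε := ε / 2) (X := c * M) hM0 hQ0 he2 hN1 hcard le_rfl hl0
  refine hnum.trans (le_of_eq ?_)
  rw [hQ]
  ring

end Pool.Agent.Q276.UR
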