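import Pool.Agent.Q276.UR.N3

/-! Number rigidity in space: the mean square over `[T, 2T]`. -/

set_option autoImplicit false

open Filter Topology Set MeasureTheory

namespace Pool.Agent.Q276.UR

open SG (ord NZ zmult ZS)
open H177.Lat (kI yy)
open H370 (NN)
open Pool.Agent.Q276.LR

/-! ### local counts -/

lemma win_ovh (h : ℝ) (hh : 0 < h) (a b : ℝ) :
    ∫ x, (Icc (a - h) (a + h)).indicator (fun _ => (1 : ℝ)) x *
      (Icc (b - h) (b + h)).indicator (fun _ => (1 : ℝ)) x ≤
    2 * h * (if |a - b| ≤ 2 * h then 1 else 0) := by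
  have h1 : (fun x => (Icc (a - h) (a + h)).indicator (fun _ => (1 : ℝ)) x *
      (Icc (b - h) (b + h)).indicator (fun _ => (1 : ℝ)) x) =
      (Icc (a - h) (a + h) ∩ Icc (b - h) (b + h)).indicator (fun _ => (1 : ℝ)) := by
    funext x
    by_cases ha : x ∈ Icc (a - h) (a + h) <;> by_cases hb : x ∈ Icc (b - h) (b + h)
    · rw [indicator_of_mem ha, indicator_of_mem hb, indicator_of_mem (mem_inter ha hb), mul_one]
    · rw [indicator_of_notMem hb, indicator_of_notMem (fun q => hb (mem_of_mem_inter_right q)),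
        mul_zero]
    · rw [indicator_of_notMem ha, indicator_of_notMem (fun q => ha (mem_of_mem_inter_left q)),
        zero_mul]
    · rw [indicator_of_notMem ha, indicator_of_notMem (fun q => ha (mem_of_mem_inter_left q)),
        zero_mul]
  rw [h1, integral_indicator_const _ (measurableSet_Icc.inter measurableSet_Icc), smul_eq_mul,
    mul_one]
  split_ifs with h2
  · rw [mul_one]
    have h3 : volume.real (Icc (a - h) (a + h) ∩ Icc (b - h) (b + h)) ≤
        volume.real (Icc (a - h) (a + h)) :=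
      measureReal_mono inter_subset_left (by rw [Real.volume_Icc]; exact ENNReal.ofReal_ne_top)
    refine h3.trans ?_
    rw [Real.volume_real_Icc_of_le (by linarith)]
    linarith
  · rw [mul_zero]
    have h3 : Icc (a - h) (a + h) ∩ Icc (b - h) (b + h) = ∅ := by
      rw [eq_empty_iff_forall_notMem]
      rintro x ⟨⟨x1, x2⟩, x3, x4⟩
      apply h2
      rw [abs_le]
      constructor <;> linarith
    rw [h3]; simp

/-- the local count -/
noncomputable def Wh (h : ℝ) (I : Finset ℕ) (y : ℕ → ℝ) (x : ℝ) : ℝ :=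
  ∑ n ∈ I, (Icc (y n - h) (y n + h)).indicator (fun _ => (1 : ℝ)) x

lemma winh_int (h a : ℝ) : Integrable ((Icc (a - h) (a + h)).indicator (fun _ => (1 : ℝ))) := by
  rw [integrable_indicator_iff measurableSet_Icc]
  exact integrableOn_const (by simp)

lemma winh_int2 (h a b : ℝ) :
    Integrable (fun x => (Icc (a - h) (a + h)).indicator (fun _ => (1 : ℝ)) x *
      (Icc (b - h) (b + h)).indicator (fun _ => (1 : ℝ)) x) := by
  refine (winh_int h a).mono' ((winh_int h a).1.mul (winh_int h b).1)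
    (Eventually.of_forall fun x => ?_)
  rw [Real.norm_eq_abs]
  by_cases ha : x ∈ Icc (a - h) (a + h) <;> by_cases hb : x ∈ Icc (b - h) (b + h)
  · rw [indicator_of_mem ha, indicator_of_mem hb]; norm_num
  · rw [indicator_of_mem ha, indicator_of_notMem hb]; norm_num
  · rw [indicator_of_notMem ha]; norm_num
  · rw [indicator_of_notMem ha]; norm_num

lemma Wh_sq (h : ℕ) (hh : 1 ≤ h) (I : Finset ℕ) (y : ℕ → ℝ) :
    Integrable (fun x => Wh h I y x ^ 2) ∧
    ∫ x, Wh h I y x ^ 2 ≤ 2 * h * ∑ n ∈ I, (kI I y ((2 * h : ℕ) : ℝ) n : ℝ) := by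
  have hh0 : (0 : ℝ) < h := by exact_mod_cast hh
  have e1 : ∀ x, Wh h I y x ^ 2 = ∑ n ∈ I, ∑ m ∈ I,
      (Icc (y n - h) (y n + h)).indicator (fun _ => (1 : ℝ)) x *
      (Icc (y m - h) (y m + h)).indicator (fun _ => (1 : ℝ)) x := by
    intro x
    unfold Wh
    rw [sq, Finset.sum_mul_sum]
  simp_rw [e1]
  refine ⟨integrable_finsetSum _ fun n _ => integrable_finsetSum _ fun m _ => winh_int2 _ _ _, ?_⟩
  rw [integral_finsetSum _ fun n _ => integrable_finsetSum _ fun m _ => winh_int2 _ _ _,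
    Finset.mul_sum]
  apply Finset.sum_le_sum
  intro n _
  rw [integral_finsetSum _ fun m _ => winh_int2 _ _ _]
  refine (Finset.sum_le_sum fun m _ => win_ovh h hh0 (y n) (y m)).trans ?_
  rw [← Finset.mul_sum]
  apply mul_le_mul_of_nonneg_left _ (by positivity)
  unfold kI
  rw [Finset.card_filter]
  push_cast
  exact le_rfl

/-! ### the statistic -/

open Classical in
/-- one inside of `E`, the weight outside -/
noncomputable def phi (E : Set ℝ) (l x : ℝ) : ℝ := if x ∈ E then 1 else wR l x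

lemma phi_meas {E : Set ℝ} (hE : MeasurableSet E) (l : ℝ) : Measurable (phi E l) := by
  unfold phi
  exact Measurable.ite hE measurable_const (wR_cont l).measurable

lemma phi_nonneg {E : Set ℝ} {l : ℝ} (hl : 0 < l) (x : ℝ) : 0 ≤ phi E l x := by
  unfold phi
  split_ifs
  · exact zero_le_one
  · exact wR_nonneg hl x

lemma phi_le_one {E : Set ℝ} {l : ℝ} (hl : 0 < l) (x : ℝ) : phi E l x ≤ 1 := by
  unfold phi
  split_ifs
  · exact le_rfl
  · exact wR_le_one hl x

lemma phi_far {E : Set ℝ} {h l x : ℝ} (hE : E ⊆ Icc (-h) h) (hl : 0 < l) (h1 : h < |x|)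
    (h2 : Real.exp l ≤ |x|) : phi E l x = 0 := by
  unfold phi
  rw [if_neg, wR_far hl h2]
  intro hx
  obtain ⟨a1, a2⟩ := hE hx
  have := abs_le.2 ⟨a1, a2⟩
  linarith

lemma phi_sub {E : Set ℝ} {h l : ℝ} (hE : E ⊆ Icc (-h) h) (hl : 0 < l) (hh : 0 ≤ h) (x y : ℝ) :
    |phi E l (y - x) - wR l (x - y)| ≤
      h / l * (Icc (y - h) (y + h)).indicator (fun _ => (1 : ℝ)) x := by
  have e1 : wR l (x - y) = wR l (y - x) := by rw [← wR_even]; congr 1; ring
  rw [e1]
  unfold phi
  split_ifs with hx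
  · obtain ⟨a1, a2⟩ := hE hx
    have hm : x ∈ Icc (y - h) (y + h) := ⟨by linarith, by linarith⟩
    rw [indicator_of_mem hm, mul_one, abs_of_nonneg (by linarith [wR_le_one hl (y - x)])]
    refine (one_sub_wR hl (y - x)).trans ?_
    exact div_le_div_of_nonneg_right (abs_le.2 ⟨a1, a2⟩) hl.le
  · rw [sub_self, abs_zero]
    apply mul_nonneg (by positivity)
    exact indicator_nonneg (fun _ _ => zero_le_one) _

/-- the positions of the zeros in the scale of the mean gap -/
noncomputable def xr (T t : ℝ) (n : ℕ) : ℝ := (ord n - t) * Real.log T / (2 * Real.pi)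

/-- the statistic -/
noncomputable def Sr (E : Set ℝ) (l T t : ℝ) : ℝ :=
  ∑ n ∈ Finset.Icc 1 (NZ (3 * T)), phi E l (xr T t n)

lemma xr_eq (T t : ℝ) (n : ℕ) : xr T t n = yy T n - t * (Real.log T / (2 * Real.pi)) := by
  unfold xr yy; ring

lemma Sr_meas {E : Set ℝ} (hE : MeasurableSet E) (l T : ℝ) : Measurable (Sr E l T) := by
  unfold Sr
  apply Finset.measurable_sum
  intro n _
  exact (phi_meas hE l).comp (by unfold xr; fun_prop)

lemma Sr_nonneg {E : Set ℝ} {l : ℝ} (hl : 0 < l) (T t : ℝ) : 0 ≤ Sr E l T t :=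
  Finset.sum_nonneg fun _ _ => phi_nonneg hl _

lemma Sr_le {E : Set ℝ} {l : ℝ} (hl : 0 < l) (T t : ℝ) : Sr E l T t ≤ NZ (3 * T) := by
  unfold Sr
  refine (Finset.sum_le_sum fun n _ => phi_le_one hl _).trans ?_
  simp

/-- only the zeros at distance at most one count -/
lemma phi_zero {E : Set ℝ} {h l T t : ℝ} (hE : E ⊆ Icc (-h) h) (hl : 0 < l)
    (hL : Real.exp l * (2 * Real.pi) ≤ Real.log T) (hL2 : h * (2 * Real.pi) < Real.log T) (n : ℕ)
    (hn : 1 ≤ |ord n - t|) : phi E l (xr T t n) = 0 := by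
  have hpi := Real.pi_pos
  have hL0 : 0 < Real.log T := lt_of_lt_of_le (by positivity) hL
  have h1 : Real.log T / (2 * Real.pi) ≤ |xr T t n| := by
    unfold xr
    rw [mul_div_assoc, abs_mul, abs_of_pos (by positivity : 0 < Real.log T / (2 * Real.pi))]
    have : 0 < Real.log T / (2 * Real.pi) := by positivity
    nlinarith
  apply phi_far hE hl
  · refine lt_of_lt_of_le ?_ h1
    rw [lt_div_iff₀ (by positivity)]
    exact hL2
  · refine le_trans ?_ h1
    rw [le_div_iff₀ (by positivity)]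
    exact hL

/-- away from the ends -/
lemma Sr_central {E : Set ℝ} {h l T t : ℝ} (hE : E ⊆ Icc (-h) h) (hl : 0 < l)
    (hL : Real.exp l * (2 * Real.pi) ≤ Real.log T) (hL2 : h * (2 * Real.pi) < Real.log T)
    (hT : 3 ≤ T) (h1 : T + 1 ≤ t) (h2 : t ≤ 2 * T - 1) :
    Sr E l T t = ∑ n ∈ II T, phi E l (xr T t n) := by
  unfold Sr
  symm
  apply Finset.sum_subset
  · intro n hn
    unfold II at hn
    rw [Finset.mem_Ioc] at hn
    rw [Finset.mem_Icc]
    exact ⟨by omega, hn.2.trans (SG.NZ_mono (by linarith))⟩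
  · intro n hn1 hn2
    rw [Finset.mem_Icc] at hn1
    apply phi_zero hE hl hL hL2
    unfold II at hn2
    rw [Finset.mem_Ioc, not_and_or, not_lt, not_le] at hn2
    rcases hn2 with h3 | h3
    · have h4 := (SG.ord_le_iff hn1.1 T).mpr h3
      rw [abs_sub_comm]
      exact le_trans (by linarith) (le_abs_self _)
    · have h4 := ord_gt h3
      exact le_trans (by linarith) (le_abs_self _)

/-- the bound near the ends -/
lemma Sr_end : ∃ C : ℝ, 0 < C ∧ ∀ (E : Set ℝ) (h l T t : ℝ), E ⊆ Icc (-h) h → 0 < l →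
    Real.exp l * (2 * Real.pi) ≤ Real.log T → h * (2 * Real.pi) < Real.log T → 20 ≤ T →
    T ≤ t → t ≤ 2 * T → Sr E l T t ≤ C * (Real.log T) ^ 2 := by
  obtain ⟨C, hC, hw⟩ := win_count
  refine ⟨1 + 4 * C, by positivity, fun E h l T t hE hl hL hL2 hT h1 h2 => ?_⟩
  have hpi := Real.pi_gt_three
  have hlog1 : 1 ≤ Real.log T := by
    have : 1 ≤ Real.exp l := Real.one_le_exp hl.le
    nlinarith
  have h3 := hw (T - 2) (by linarith) (t - 2) (by linarith) (by linarith) 3 le_rfl (by linarith)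
  rw [show t - 2 + 3 = t + 1 by ring] at h3
  have h4 : Sr E l T t ≤ (NZ (t + 1) : ℝ) - NZ (t - 2) := by
    unfold Sr
    have e1 : ∑ n ∈ Finset.Icc 1 (NZ (3 * T)), phi E l (xr T t n) =
        ∑ n ∈ Finset.Ioc (NZ (t - 2)) (NZ (t + 1)), phi E l (xr T t n) := by
      symm
      apply Finset.sum_subset
      · intro n hn
        rw [Finset.mem_Ioc] at hn
        rw [Finset.mem_Icc]
        exact ⟨by omega, hn.2.trans (SG.NZ_mono (by linarith))⟩
      · intro n hn1 hn2
        rw [Finset.mem_Icc] at hn1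
        apply phi_zero hE hl hL hL2
        rw [Finset.mem_Ioc, not_and_or, not_lt, not_le] at hn2
        rcases hn2 with h3 | h3
        · have h4 := (SG.ord_le_iff hn1.1 _).mpr h3
          rw [abs_sub_comm]
          exact le_trans (by linarith) (le_abs_self _)
        · have h4 := ord_gt h3
          exact le_trans (by linarith) (le_abs_self _)
    rw [e1]
    refine (Finset.sum_le_sum fun n _ => phi_le_one hl _).trans ?_
    rw [Finset.sum_const, Nat.card_Ioc, nsmul_eq_mul, mul_one,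
      Nat.cast_sub (SG.NZ_mono (by linarith))]
  have h5 := (abs_le.1 h3).2
  have h6 : Real.log (T - 2) ≤ Real.log T := Real.log_le_log (by linarith) (by linarith)
  have h7 : 0 ≤ Real.log (T - 2) := Real.log_nonneg (by linarith)
  have h8 : 3 * Real.log (T - 2) / (2 * Real.pi) ≤ (Real.log T) ^ 2 := by
    rw [div_le_iff₀ (by positivity)]
    have a1 : Real.log T ≤ (Real.log T) ^ 2 := by nlinarith
    have a2 : 6 * (Real.log T) ^ 2 ≤ (Real.log T) ^ 2 * (2 * Real.pi) := by nlinarith [sq_nonneg (Real.log T)]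
    nlinarith
  have h9 : (Real.log (T - 2)) ^ 2 ≤ (Real.log T) ^ 2 := pow_le_pow_left₀ h7 h6 2
  have h10 : C * (3 + (Real.log (T - 2)) ^ 2) ≤ C * (4 * (Real.log T) ^ 2) := by
    apply mul_le_mul_of_nonneg_left _ hC.le
    nlinarith
  nlinarith

/-- the pointwise bound away from the ends -/
lemma Sr_point {E : Set ℝ} {h l T t d : ℝ} (hE : E ⊆ Icc (-h) h) (hl : 0 < l) (hh : 0 ≤ h)
    (hL : Real.exp l * (2 * Real.pi) ≤ Real.log T) (hL2 : h * (2 * Real.pi) < Real.log T)
    (hT : 3 ≤ T) (h1 : T + 1 ≤ t) (h2 : t ≤ 2 * T - 1) (hd : 0 < d) :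
    (Sr E l T t - mR l) ^ 2 ≤
      (1 + d) * (FR l (II T) (yy T) (t * (Real.log T / (2 * Real.pi))) - mR l) ^ 2 +
      (1 + 1 / d) * (h / l) ^ 2 * Wh h (II T) (yy T) (t * (Real.log T / (2 * Real.pi))) ^ 2 := by
  rw [Sr_central hE hl hL hL2 hT h1 h2]
  set x := t * (Real.log T / (2 * Real.pi)) with hx
  set F := FR l (II T) (yy T) x with hF
  set W := Wh h (II T) (yy T) x with hW
  set S := ∑ n ∈ II T, phi E l (xr T t n) with hS
  have h3 : |S - F| ≤ h / l * W := by
    rw [hS, hF, hW]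
    unfold FR Wh
    rw [← Finset.sum_sub_distrib, Finset.mul_sum]
    refine (Finset.abs_sum_le_sum_abs _ _).trans (Finset.sum_le_sum fun n _ => ?_)
    rw [xr_eq, ← hx]
    exact phi_sub hE hl hh x (yy T n)
  have h4 : (S - mR l) ^ 2 = ((F - mR l) + (S - F)) ^ 2 := by ring
  have h5 : (S - F) ^ 2 ≤ (h / l * W) ^ 2 := by
    rw [← sq_abs (S - F)]
    exact pow_le_pow_left₀ (abs_nonneg _) h3 2
  have h6 : ((F - mR l) + (S - F)) ^ 2 ≤ (1 + d) * (F - mR l) ^ 2 + (1 + 1 / d) * (S - F) ^ 2 := by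
    have h7 : 0 ≤ (d * (F - mR l) - (S - F)) ^ 2 / d := by positivity
    have h8 : (1 + d) * (F - mR l) ^ 2 + (1 + 1 / d) * (S - F) ^ 2 -
        ((F - mR l) + (S - F)) ^ 2 = (d * (F - mR l) - (S - F)) ^ 2 / d := by
      field_simp
      ring
    linarith
  have h7 : (1 + 1 / d) * (S - F) ^ 2 ≤ (1 + 1 / d) * (h / l * W) ^ 2 :=
    mul_le_mul_of_nonneg_left h5 (by positivity)
  rw [h4]
  have h8 : (1 + 1 / d) * (h / l * W) ^ 2 = (1 + 1 / d) * (h / l) ^ 2 * W ^ 2 := by ring
  linarith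

end Pool.Agent.Q276.UR
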