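import Pool.Agent.Q276.UR.N4

/-! Number rigidity in space: the mean square over `[T, 2T]`, conclusion. -/

set_option autoImplicit false

open Filter Topology Set MeasureTheory

namespace Pool.Agent.Q276.UR

open SG (ord NZ zmult ZS)
open H177.Lat (kI yy)
open Pool.Agent.Q276.LR

lemma Sr_ii {E : Set ℝ} (hE : MeasurableSet E) {l : ℝ} (hl : 0 < l) (T m a b : ℝ) :
    IntervalIntegrable (fun t => (Sr E l T t - m) ^ 2) volume a b := by
  have hm : Measurable fun t => (Sr E l T t - m) ^ 2 := ((Sr_meas hE l T).sub_const m).pow_const 2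
  rw [intervalIntegrable_iff]
  refine Measure.integrableOn_of_bounded (M := ((NZ (3 * T) : ℝ) + |m|) ^ 2) (by simp)
    hm.aestronglyMeasurable ?_
  refine Eventually.of_forall fun t => ?_
  rw [Real.norm_of_nonneg (sq_nonneg _), ← sq_abs]
  apply pow_le_pow_left₀ (abs_nonneg _)
  refine (abs_sub _ _).trans ?_
  rw [abs_of_nonneg (Sr_nonneg hl T t)]
  linarith [Sr_le (E := E) hl T t]

/-- numerics -/
lemma num2 {l c1 c2 ε T : ℝ} (hl : 1 / 2 ≤ l) (hc1 : 0 ≤ c1) (hc2 : 0 ≤ c2) (hT : 0 < T)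
    (hε : 0 < ε) :
    (1 + 1 / Real.sqrt l) * (T * (1 / (2 * l) + c1 / l ^ 2 + ε / 6)) +
      (1 + 1 / (1 / Real.sqrt l)) * (c2 / l ^ 2) * T + T * (ε / 2) ≤
      T * (1 / (2 * l) + (1 / 2 + 4 * c1 + 3 * c2) / (l * Real.sqrt l) + ε) := by
  have hl0 : 0 < l := by linarith
  set r := Real.sqrt l with hr
  have hr0 : 0 < r := Real.sqrt_pos.2 hl0
  have hrr : r * r = l := Real.mul_self_sqrt hl0.le
  have hr1 : 1 / 2 ≤ r := by
    rw [hr]
    apply Real.le_sqrt_of_sq_le
    linarith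
  have h1 : 1 / r ≤ 2 := by
    rw [div_le_iff₀ hr0]; linarith
  have e0 : 1 / l ^ 2 = 1 / (l * r) * (1 / r) := by
    rw [← hrr]; field_simp
  have hlr : 0 < 1 / (l * r) := by positivity
  have h2 : 1 / l ^ 2 ≤ 1 / (l * r) * (2 : ℝ) := by
    rw [e0]
    exact mul_le_mul_of_nonneg_left h1 hlr.le
  have key : (1 + 1 / r) * (1 / (2 * l) + c1 / l ^ 2 + ε / 6) +
      (1 + 1 / (1 / r)) * (c2 / l ^ 2) + ε / 2 ≤
      1 / (2 * l) + (1 / 2 + 4 * c1 + 3 * c2) / (l * r) + ε := by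
    have a1 : (1 + 1 / r) * (1 / (2 * l)) = 1 / (2 * l) + 1 / 2 / (l * r) := by
      field_simp
    have a2 : (1 + 1 / r) * (c1 / l ^ 2) ≤ 4 * c1 / (l * r) + 0 := by
      have b1 : 1 / l ^ 2 * (1 / r) ≤ 1 / (l * r) * 2 := by
        rw [e0]
        have b2 : 1 / (l * r) * (1 / r) * (1 / r) = 1 / (l * r) * (1 / l) := by
          rw [← hrr]; field_simp
        rw [b2]
        apply mul_le_mul_of_nonneg_left _ hlr.le
        rw [div_le_iff₀ hl0]; linarith
      have b3 : (1 + 1 / r) * (c1 / l ^ 2) = c1 * (1 / l ^ 2 + 1 / l ^ 2 * (1 / r)) := by ring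
      have b4 : 4 * c1 / (l * r) = c1 * (1 / (l * r) * 2 + 1 / (l * r) * 2) := by ring
      rw [b3, b4, add_zero]
      exact mul_le_mul_of_nonneg_left (by linarith) hc1
    have a3 : (1 + 1 / (1 / r)) * (c2 / l ^ 2) ≤ 3 * c2 / (l * r) := by
      have b1 : 1 / l ^ 2 * r = 1 / (l * r) := by
        rw [← hrr]; field_simp
      have b3 : (1 + 1 / (1 / r)) * (c2 / l ^ 2) = c2 * (1 / l ^ 2 + 1 / l ^ 2 * r) := by
        rw [one_div_one_div]; ring
      have b4 : 3 * c2 / (l * r) = c2 * (1 / (l * r) * 2 + 1 / (l * r)) := by ring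
      rw [b3, b4]
      exact mul_le_mul_of_nonneg_left (by linarith) hc2
    have a4 : (1 + 1 / r) * (ε / 6) ≤ ε / 2 := by nlinarith
    have a5 : (1 / 2 + 4 * c1 + 3 * c2) / (l * r) = 1 / 2 / (l * r) + 4 * c1 / (l * r) +
        3 * c2 / (l * r) := by ring
    have a6 : (1 + 1 / r) * (1 / (2 * l) + c1 / l ^ 2 + ε / 6) = (1 + 1 / r) * (1 / (2 * l)) +
        (1 + 1 / r) * (c1 / l ^ 2) + (1 + 1 / r) * (ε / 6) := by ring
    rw [a6, a1, a5]
    linarith
  have h3 := mul_le_mul_of_nonneg_left key hT.le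
  calc _ = T * ((1 + 1 / r) * (1 / (2 * l) + c1 / l ^ 2 + ε / 6) +
      (1 + 1 / (1 / r)) * (c2 / l ^ 2) + ε / 2) := by ring
    _ ≤ _ := h3

theorem space_main (h : ℕ) (hh : 1 ≤ h) : ∃ C : ℝ, 0 < C ∧ ∀ l : ℝ, Real.log 2 ≤ l → ∀ ε : ℝ,
    0 < ε → ∃ T0 : ℝ, 100 ≤ T0 ∧ ∀ T : ℝ, T0 ≤ T → ∀ E : Set ℝ, MeasurableSet E →
    E ⊆ Icc (-(h : ℝ)) h →
    ∫ t in T..(2 * T), (Sr E l T t - mR l) ^ 2 ≤
      T * (1 / (2 * l) + C / (l * Real.sqrt l) + ε) := by
  have hpi := Real.pi_gt_three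
  obtain ⟨C1, hC1, hwin⟩ := window_R
  obtain ⟨C2, T2, hC2, hT2, hk⟩ := kI_sum (2 * h)
  obtain ⟨C3, hC3, hend⟩ := Sr_end
  have hh0 : (0 : ℝ) < h := by exact_mod_cast hh
  refine ⟨1 / 2 + 4 * C1 + 3 * ((h : ℝ) ^ 2 * (4 * Real.pi * h * C2)), by positivity,
    fun l hl ε hε => ?_⟩
  have hl2 : (1 : ℝ) / 2 ≤ Real.log 2 := by
    have := Real.log_two_gt_d9
    linarith
  have hl1 : 1 / 2 ≤ l := hl2.trans hl
  have hl0 : 0 < l := by linarith
  obtain ⟨T1, hT1, hW⟩ := hwin l hl (ε / 6) (by positivity)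
  have hm0 := mR_nonneg hl0
  set m := mR l with hm
  set K : ℝ := C3 + m + 1 with hK
  have hK0 : 0 < K := by positivity
  set e2 : ℝ := Real.sqrt ε / (2 * K) with he2
  have he20 : 0 < e2 := by positivity
  obtain ⟨T3, hT3, hls⟩ := logsq_small e2 he20
  have h8 := Real.tendsto_log_atTop.eventually_ge_atTop
    (max (Real.exp l * (2 * Real.pi)) (h * (2 * Real.pi) + 1))
  obtain ⟨T4, hT4⟩ := h8.exists_forall_of_atTop
  refine ⟨max (max T1 T2) (max T3 T4), hT1.trans ((le_max_left _ _).trans (le_max_left _ _)),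
    fun T hT E hEm hE => ?_⟩
  have hTT1 : T1 ≤ T := ((le_max_left _ _).trans (le_max_left _ _)).trans hT
  have hTT2 : T2 ≤ T := ((le_max_right _ _).trans (le_max_left _ _)).trans hT
  have hTT3 : T3 ≤ T := ((le_max_left _ _).trans (le_max_right _ _)).trans hT
  have hTT4 : T4 ≤ T := ((le_max_right _ _).trans (le_max_right _ _)).trans hT
  have hT100 : 100 ≤ T := hT1.trans hTT1
  have hTpos : 0 < T := by linarith
  have hLL := hT4 T hTT4
  have hL1 : Real.exp l * (2 * Real.pi) ≤ Real.log T := (le_max_left _ _).trans hLL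
  have hL2 : (h : ℝ) * (2 * Real.pi) < Real.log T := by
    have := (le_max_right _ _).trans hLL
    linarith
  have hLpos : 0 < Real.log T := Real.log_pos (by linarith)
  have hLone : 1 ≤ Real.log T := by
    have : 1 ≤ Real.exp l := Real.one_le_exp hl0.le
    nlinarith
  have hwinT := hW T hTT1
  have hkT := hk T hTT2
  have hlsT := hls T hTT3
  set d : ℝ := 1 / Real.sqrt l with hd
  have hd0 : 0 < d := by positivity
  set q : ℝ := Real.log T / (2 * Real.pi) with hq
  have hq0 : 0 < q := by positivity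
  have hii : ∀ a b, IntervalIntegrable (fun t => (Sr E l T t - m) ^ 2) volume a b :=
    fun a b => Sr_ii hEm hl0 T m a b
  -- the two ends
  have hpt : ∀ t, T ≤ t → t ≤ 2 * T → (Sr E l T t - m) ^ 2 ≤ T * (ε / 4) := by
    intro t h1 h2
    have a1 := hend E h l T t hE hl0 hL1 hL2 (by linarith) h1 h2
    have a2 := Sr_nonneg (E := E) hl0 T t
    have a3 : |Sr E l T t - m| ≤ K * (Real.log T) ^ 2 := by
      have b1 : 1 ≤ (Real.log T) ^ 2 := by nlinarith
      rw [abs_le]
      constructor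
      · nlinarith
      · nlinarith
    have a4 : |Sr E l T t - m| ≤ K * (e2 * Real.sqrt T) :=
      a3.trans (mul_le_mul_of_nonneg_left hlsT hK0.le)
    have a5 : (Sr E l T t - m) ^ 2 ≤ (K * (e2 * Real.sqrt T)) ^ 2 := by
      rw [← sq_abs]
      exact pow_le_pow_left₀ (abs_nonneg _) a4 2
    refine a5.trans (le_of_eq ?_)
    have a6 : K * (e2 * Real.sqrt T) = Real.sqrt ε * Real.sqrt T / 2 := by
      rw [he2]
      field_simp
    rw [a6, div_pow, mul_pow, Real.sq_sqrt hε.le, Real.sq_sqrt hTpos.le]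
    ring
  have hA : ∫ t in T..(T + 1), (Sr E l T t - m) ^ 2 ≤ T * (ε / 4) := by
    have := intervalIntegral.integral_mono_on (by linarith : T ≤ T + 1) (hii T (T + 1))
      (intervalIntegrable_const (c := T * (ε / 4)))
      (fun t ht => hpt t ht.1 (by linarith [ht.2]))
    rw [intervalIntegral.integral_const] at this
    simpa using this
  have hB : ∫ t in (2 * T - 1)..(2 * T), (Sr E l T t - m) ^ 2 ≤ T * (ε / 4) := by
    have := intervalIntegral.integral_mono_on (by linarith : 2 * T - 1 ≤ 2 * T)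
      (hii (2 * T - 1) (2 * T)) (intervalIntegrable_const (c := T * (ε / 4)))
      (fun t ht => hpt t (by linarith [ht.1]) ht.2)
    rw [intervalIntegral.integral_const] at this
    simpa using this
  -- the middle
  set G1 : ℝ → ℝ := fun x => (FR l (II T) (yy T) x - m) ^ 2 with hG1
  set G2 : ℝ → ℝ := fun x => Wh h (II T) (yy T) x ^ 2 with hG2
  have hG1c : Continuous G1 := ((FR_cont l (II T) (yy T)).sub continuous_const).pow 2
  obtain ⟨hG2i, hG2b⟩ := Wh_sq h hh (II T) (yy T)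
  have hG10 : ∀ x, 0 ≤ G1 x := fun x => sq_nonneg _
  have hG20 : ∀ x, 0 ≤ G2 x := fun x => sq_nonneg _
  have i1 : ∀ a b, IntervalIntegrable (fun t => G1 (t * q)) volume a b :=
    fun a b => (hG1c.comp (by fun_prop)).intervalIntegrable _ _
  have i2' : Integrable (fun t => G2 (t * q)) := hG2i.comp_mul_right' hq0.ne'
  have i2 : ∀ a b, IntervalIntegrable (fun t => G2 (t * q)) volume a b :=
    fun a b => i2'.intervalIntegrable
  set κ : ℝ := (1 + 1 / d) * (h / l) ^ 2 with hκ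
  have hκ0 : 0 ≤ κ := by positivity
  have hC : ∫ t in (T + 1)..(2 * T - 1), (Sr E l T t - m) ^ 2 ≤
      (1 + d) * (∫ t in T..(2 * T), G1 (t * q)) + κ * ∫ t in T..(2 * T), G2 (t * q) := by
    have b1 : ∫ t in (T + 1)..(2 * T - 1), (Sr E l T t - m) ^ 2 ≤
        ∫ t in (T + 1)..(2 * T - 1), ((1 + d) * G1 (t * q) + κ * G2 (t * q)) := by
      apply intervalIntegral.integral_mono_on (by linarith) (hii _ _)
        (((i1 _ _).const_mul _).add ((i2 _ _).const_mul _))
      intro t ht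
      exact Sr_point hE hl0 hh0.le hL1 hL2 (by linarith) ht.1 ht.2 hd0
    refine b1.trans ?_
    rw [← intervalIntegral.integral_const_mul, ← intervalIntegral.integral_const_mul,
      ← intervalIntegral.integral_add ((i1 _ _).const_mul _) ((i2 _ _).const_mul _)]
    apply intervalIntegral.integral_mono_interval (by linarith) (by linarith) (by linarith)
    · refine Eventually.of_forall fun t => ?_
      have c1 := mul_nonneg (by linarith : 0 ≤ 1 + d) (hG10 (t * q))
      have c2 := mul_nonneg hκ0 (hG20 (t * q))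
      show (0 : ℝ) ≤ (1 + d) * G1 (t * q) + κ * G2 (t * q)
      linarith
    · exact ((i1 _ _).const_mul _).add ((i2 _ _).const_mul _)
  have hM1 : ∫ t in T..(2 * T), G1 (t * q) ≤ T * (1 / (2 * l) + C1 / l ^ 2 + ε / 6) := by
    rw [intervalIntegral.integral_comp_mul_right G1 hq0.ne', smul_eq_mul]
    have e1 : T * q = T * Real.log T / (2 * Real.pi) := by rw [hq]; ring
    have e2 : 2 * T * q = T * Real.log T / (2 * Real.pi) + T * Real.log T / (2 * Real.pi) := by
      rw [hq]; ring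
    rw [e1, e2, inv_mul_le_iff₀ hq0]
    refine hwinT.trans (le_of_eq ?_)
    rw [hq]; ring
  have hM2 : ∫ t in T..(2 * T), G2 (t * q) ≤ 4 * Real.pi * h * C2 * T := by
    have b1 : ∫ t in T..(2 * T), G2 (t * q) ≤ ∫ t, G2 (t * q) := by
      rw [intervalIntegral.integral_of_le (by linarith)]
      exact setIntegral_le_integral i2' (Eventually.of_forall fun t => hG20 _)
    have b2 : ∫ t, G2 (t * q) = q⁻¹ * ∫ x, G2 x := by
      rw [Measure.integral_comp_mul_right G2 q, smul_eq_mul, abs_of_pos (by positivity)]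
    have b3 : ∫ x, G2 x ≤ 2 * h * (C2 * (T * Real.log T)) :=
      hG2b.trans (mul_le_mul_of_nonneg_left hkT (by positivity))
    rw [b2] at b1
    refine b1.trans ?_
    rw [inv_mul_le_iff₀ hq0]
    refine b3.trans (le_of_eq ?_)
    rw [hq]
    field_simp
    ring
  have hsplit : ∫ t in T..(2 * T), (Sr E l T t - m) ^ 2 =
      (∫ t in T..(T + 1), (Sr E l T t - m) ^ 2) +
      (∫ t in (T + 1)..(2 * T - 1), (Sr E l T t - m) ^ 2) +
      ∫ t in (2 * T - 1)..(2 * T), (Sr E l T t - m) ^ 2 := by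
    rw [intervalIntegral.integral_add_adjacent_intervals (hii _ _) (hii _ _),
      intervalIntegral.integral_add_adjacent_intervals (hii _ _) (hii _ _)]
  rw [hsplit]
  have hnum := num2 (T := T) (ε := ε) hl1 hC1.le
    (by positivity : 0 ≤ (h : ℝ) ^ 2 * (4 * Real.pi * h * C2)) hTpos hε
  rw [← hd] at hnum
  have f1 : (1 + d) * (∫ t in T..(2 * T), G1 (t * q)) ≤
      (1 + d) * (T * (1 / (2 * l) + C1 / l ^ 2 + ε / 6)) :=
    mul_le_mul_of_nonneg_left hM1 (by positivity)
  have f2 : κ * ∫ t in T..(2 * T), G2 (t * q) ≤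
      (1 + 1 / d) * ((h : ℝ) ^ 2 * (4 * Real.pi * h * C2) / l ^ 2) * T := by
    refine (mul_le_mul_of_nonneg_left hM2 hκ0).trans (le_of_eq ?_)
    rw [hκ]
    field_simp
  linarith

end Pool.Agent.Q276.UR
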